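import Pool.Agent.V5helper40.FR.Jobs2

/-!
# Newton's identities for the conjugates of `ω`
-/

set_option autoImplicit false

namespace Pool.Agent.V5helper40.FR

section newton

open Polynomial

variable {F : Type*} [Field F]

/-- a polynomial of degree at most 6 -/
noncomputable def p6 (b6 b5 b4 b3 b2 b1 b0 : F) : F[X] :=
  C b6 * X ^ 6 + C b5 * X ^ 5 + C b4 * X ^ 4 + C b3 * X ^ 3 + C b2 * X ^ 2 + C b1 * X + C b0

theorem p6_coeff (b6 b5 b4 b3 b2 b1 b0 : F) :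
    (p6 b6 b5 b4 b3 b2 b1 b0).coeff 0 = b0 ∧ (p6 b6 b5 b4 b3 b2 b1 b0).coeff 1 = b1 ∧
    (p6 b6 b5 b4 b3 b2 b1 b0).coeff 2 = b2 ∧ (p6 b6 b5 b4 b3 b2 b1 b0).coeff 3 = b3 ∧
    (p6 b6 b5 b4 b3 b2 b1 b0).coeff 4 = b4 ∧ (p6 b6 b5 b4 b3 b2 b1 b0).coeff 5 = b5 := by
  unfold p6
  refine ⟨?_, ?_, ?_, ?_, ?_, ?_⟩ <;>
    simp [Polynomial.coeff_X_pow, Polynomial.coeff_X, Polynomial.coeff_C]

theorem p6_deg (b6 b5 b4 b3 b2 b1 b0 : F) : (p6 b6 b5 b4 b3 b2 b1 b0).degree ≤ 6 := by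
  unfold p6
  compute_degree

/-- its quotient by `X - r` -/
noncomputable def quo7 (a1 a2 a3 a4 a5 a6 r : F) : F[X] :=
  p6 1 (a6 + r) (a5 + a6 * r + r ^ 2)
    (a4 + a5 * r + a6 * r ^ 2 + r ^ 3)
    (a3 + a4 * r + a5 * r ^ 2 + a6 * r ^ 3 + r ^ 4)
    (a2 + a3 * r + a4 * r ^ 2 + a5 * r ^ 3 + a6 * r ^ 4 + r ^ 5)
    (a1 + a2 * r + a3 * r ^ 2 + a4 * r ^ 3 + a5 * r ^ 4 + a6 * r ^ 5 + r ^ 6)

/-- the derivative -/
noncomputable def der7 (a1 a2 a3 a4 a5 a6 : F) : F[X] :=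
  p6 7 (6 * a6) (5 * a5) (4 * a4) (3 * a3) (2 * a2) a1

theorem der_eq (a0 a1 a2 a3 a4 a5 a6 : F) (r : ℕ → F)
    (hinj : Set.InjOn r (Finset.range 7))
    (hr : ∀ k ∈ Finset.range 7, r k ^ 7 + a6 * r k ^ 6 + a5 * r k ^ 5 + a4 * r k ^ 4 + a3 * r k ^ 3
      + a2 * r k ^ 2 + a1 * r k + a0 = 0) :
    der7 a1 a2 a3 a4 a5 a6 = ∑ k ∈ Finset.range 7, quo7 a1 a2 a3 a4 a5 a6 (r k) := by
  refine Polynomial.eq_of_degrees_lt_of_eval_index_eq (Finset.range 7) hinj ?_ ?_ ?_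
  · rw [Finset.card_range]
    have : (der7 a1 a2 a3 a4 a5 a6).degree ≤ 6 := p6_deg _ _ _ _ _ _ _
    exact lt_of_le_of_lt this (by norm_num)
  · rw [Finset.card_range]
    have : (∑ k ∈ Finset.range 7, quo7 a1 a2 a3 a4 a5 a6 (r k)).degree ≤ 6 := by
      exact (Polynomial.degree_sum_le _ _).trans (Finset.sup_le (fun k _ => p6_deg _ _ _ _ _ _ _))
    exact lt_of_le_of_lt this (by norm_num)
  · intro j hj
    rw [Polynomial.eval_finset_sum, Finset.sum_eq_single j]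
    · unfold der7 quo7 p6
      simp only [eval_add, eval_mul, eval_C, eval_pow, eval_X]
      ring
    · intro k hk hkj
      have hne : r j - r k ≠ 0 := by
        intro h0
        exact hkj (hinj hk hj (sub_eq_zero.1 h0).symm)
      have h1 := hr j hj
      have h2 := hr k hk
      apply mul_left_cancel₀ hne
      unfold quo7 p6
      simp only [eval_add, eval_mul, eval_C, eval_pow, eval_X]
      linear_combination h1 - h2
    · intro h; exact absurd hj h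

/-- Newton's identities -/
theorem newton7 (a0 a1 a2 a3 a4 a5 a6 : F) (r : ℕ → F)
    (hinj : Set.InjOn r (Finset.range 7))
    (hr : ∀ k ∈ Finset.range 7, r k ^ 7 + a6 * r k ^ 6 + a5 * r k ^ 5 + a4 * r k ^ 4 + a3 * r k ^ 3
      + a2 * r k ^ 2 + a1 * r k + a0 = 0) (p : ℕ → F)
    (hp : ∀ m, ∑ k ∈ Finset.range 7, r k ^ m = p m) :
    p 1 = -a6 ∧ p 2 = -a6 * p 1 - 2 * a5 ∧ p 3 = -a6 * p 2 - a5 * p 1 - 3 * a4 ∧
    p 4 = -a6 * p 3 - a5 * p 2 - a4 * p 1 - 4 * a3 ∧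
    p 5 = -a6 * p 4 - a5 * p 3 - a4 * p 2 - a3 * p 1 - 5 * a2 ∧
    p 6 = -a6 * p 5 - a5 * p 4 - a4 * p 3 - a3 * p 2 - a2 * p 1 - 6 * a1 := by
  have h := der_eq a0 a1 a2 a3 a4 a5 a6 r hinj hr
  have c : ∀ i, (der7 a1 a2 a3 a4 a5 a6).coeff i =
      ∑ k ∈ Finset.range 7, (quo7 a1 a2 a3 a4 a5 a6 (r k)).coeff i := by
    intro i
    rw [h, Polynomial.finset_sum_coeff]
  have c5 := c 5
  have c4 := c 4
  have c3 := c 3
  have c2 := c 2
  have c1 := c 1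
  have c0 := c 0
  have hp1 := hp 1
  simp only [pow_one] at hp1
  have hl := p6_coeff (F := F)
  unfold der7 quo7 at c5 c4 c3 c2 c1 c0
  simp only [(hl _ _ _ _ _ _ _).1] at c0
  simp only [(hl _ _ _ _ _ _ _).2.1] at c1
  simp only [(hl _ _ _ _ _ _ _).2.2.1] at c2
  simp only [(hl _ _ _ _ _ _ _).2.2.2.1] at c3
  simp only [(hl _ _ _ _ _ _ _).2.2.2.2.1] at c4
  simp only [(hl _ _ _ _ _ _ _).2.2.2.2.2] at c5
  simp only [Finset.sum_add_distrib, ← Finset.mul_sum, hp, hp1, Finset.sum_const,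
    Finset.card_range, nsmul_eq_mul, Nat.cast_ofNat] at c0 c1 c2 c3 c4 c5
  refine ⟨?_, ?_, ?_, ?_, ?_, ?_⟩
  · linear_combination -c5
  · linear_combination -c4
  · linear_combination -c3
  · linear_combination -c2
  · linear_combination -c1
  · linear_combination -c0

end newton

open HahnSeries

noncomputable section

theorem om_lead : om.coeff (-48) = 1 := by
  have h1 := xx_ne
  have hc : PowerSeries.constantCoeff (subq 7 (subq 7 PE)) = 1 := by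
    rw [← PowerSeries.coeff_zero_eq_constantCoeff_apply, subq_coeff_zero, subq_coeff_zero]
    exact euler_coeff_zero
  have e1 : psi (psi eta) = xx ^ 49 * ofQ (subq 7 (subq 7 PE)) := by
    rw [psi_eta_eq, map_mul, map_pow, psi_xx, psi_ofQ]; ring
  have hne : ofQ (subq 7 (subq 7 PE)) ≠ 0 := by
    intro h0
    have := psi_ne psi_eta_ne
    rw [e1, h0, mul_zero] at this
    exact this rfl
  have e2 : om = (xx ^ 48)⁻¹ * ofQ (PE * (subq 7 (subq 7 PE))⁻¹) := by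
    rw [om, e1, eta_eq, map_mul, ofQ_inv (by rw [hc]; exact one_ne_zero)]
    field_simp
  have e3 : ((xx ^ 48)⁻¹ : K) = single (-48) 1 := by
    rw [xx, single_pow]
    symm
    apply eq_inv_of_mul_eq_one_left
    rw [single_mul_single]
    simp
  rw [e2, e3]
  have := coeff_single_mul_add (r := (1 : ℂ)) (x := ofQ (PE * (subq 7 (subq 7 PE))⁻¹))
    (a := (0 : ℤ)) (b := (-48 : ℤ))
  rw [zero_add, one_mul] at this
  rw [this, ofQ_eq]
  have h3 := ofP_coeff (subq 24 (PE * (subq 7 (subq 7 PE))⁻¹)) 0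
  rw [Nat.cast_zero] at h3
  rw [h3, subq_coeff_zero, PowerSeries.coeff_zero_eq_constantCoeff_apply, map_mul, PE_const,
    PowerSeries.constantCoeff_inv, hc]
  simp

theorem ze48 (k : ℕ) : (ze ^ k) ^ (-48 : ℤ) = ze ^ k := by
  have h7 : (ze ^ k) ^ (7 : ℤ) = 1 := by
    have : (ze ^ k) ^ 7 = 1 := by
      rw [← pow_mul, mul_comm, pow_mul, ze_prim.pow_eq_one, one_pow]
    exact_mod_cast this
  have : (-48 : ℤ) = 1 + 7 * (-7) := by norm_num
  rw [this, zpow_add₀ (zek_ne k), zpow_one, zpow_mul, h7, one_zpow, mul_one]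

/-- the conjugates -/
def rk (k : ℕ) : K := rot (ze ^ k) (zek_ne k) om

theorem rk_inj : Set.InjOn rk (Finset.range 7) := by
  intro j hj k hk h
  rw [Finset.coe_range, Set.mem_Iio] at hj hk
  have h1 := congrArg (fun f : K => f.coeff (-48)) h
  simp only [rk, rot_coeff, om_lead, mul_one, ze48] at h1
  exact ze_prim.pow_inj hj hk h1

/-- Part 3 of the job M. -/
theorem m3 (hw : om ^ 7 + 7 * om ^ 6 + 21 * om ^ 5 + 49 * om ^ 4 + (147 + 7 * (psi tt)⁻¹) * om ^ 3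
    + (343 + 35 * (psi tt)⁻¹) * om ^ 2 + (343 + 49 * (psi tt)⁻¹) * om = ((psi tt)⁻¹) ^ 2) :
    (U 1 = 1 ∧ U om = -1 ∧ U (om ^ 2) = 1 ∧ U (om ^ 3) = -7 ∧ U (om ^ 4) = -4 * tt⁻¹ - 7 ∧
    U (om ^ 5) = 10 * tt⁻¹ + 49 ∧ U (om ^ 6) = 49) := by
  have hrT : ∀ k : ℕ, rot (ze ^ k) (zek_ne k) (psi tt) = psi tt := by
    intro k
    refine rot_psi _ _ ?_ _
    rw [← pow_mul, mul_comm, pow_mul, ze_prim.pow_eq_one, one_pow]
  have hr : ∀ k ∈ Finset.range 7, rk k ^ 7 + 7 * rk k ^ 6 + 21 * rk k ^ 5 + 49 * rk k ^ 4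
      + (147 + 7 * (psi tt)⁻¹) * rk k ^ 3 + (343 + 35 * (psi tt)⁻¹) * rk k ^ 2
      + (343 + 49 * (psi tt)⁻¹) * rk k + (-((psi tt)⁻¹) ^ 2) = 0 := by
    intro k _
    have h1 := congrArg (rot (ze ^ k) (zek_ne k)) hw
    simp only [map_add, map_mul, map_pow, map_inv₀, hrT, map_ofNat] at h1
    rw [← sub_eq_zero] at h1
    rw [← h1, rk]
    ring
  have hp : ∀ m, ∑ k ∈ Finset.range 7, rk k ^ m = 7 * psi (U (om ^ m)) := by
    intro m
    rw [← sum_rot]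
    refine Finset.sum_congr rfl (fun k _ => ?_)
    rw [rk, map_pow]
  obtain ⟨p1, p2, p3, p4, p5, p6⟩ := newton7 _ _ _ _ _ _ _ rk rk_inj hr
    (fun m => 7 * psi (U (om ^ m))) hp
  simp only [pow_one] at p1 p2 p3 p4 p5 p6
  have h7 : (7 : K) ≠ 0 := by norm_num
  have q1 : psi (U om) = -1 := by
    apply mul_left_cancel₀ h7; linear_combination p1
  rw [q1] at p2 p3 p4 p5 p6
  have q2 : psi (U (om ^ 2)) = 1 := by
    apply mul_left_cancel₀ h7; linear_combination p2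
  rw [q2] at p3 p4 p5 p6
  have q3 : psi (U (om ^ 3)) = -7 := by
    apply mul_left_cancel₀ h7; linear_combination p3
  rw [q3] at p4 p5 p6
  have q4 : psi (U (om ^ 4)) = -4 * (psi tt)⁻¹ - 7 := by
    apply mul_left_cancel₀ h7; linear_combination p4
  rw [q4] at p5 p6
  have q5 : psi (U (om ^ 5)) = 10 * (psi tt)⁻¹ + 49 := by
    apply mul_left_cancel₀ h7; linear_combination p5
  rw [q5] at p6
  have q6 : psi (U (om ^ 6)) = 49 := by
    apply mul_left_cancel₀ h7; linear_combination p6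
  refine ⟨?_, ?_, ?_, ?_, ?_, ?_, ?_⟩
  · have := U_psi 1
    rwa [map_one] at this
  · apply psi_injective; rw [q1, map_neg, map_one]
  · apply psi_injective; rw [q2, map_one]
  · apply psi_injective; rw [q3, map_neg, map_ofNat]
  · apply psi_injective; rw [q4, map_sub, map_mul, map_neg, map_inv₀, map_ofNat, map_ofNat]
  · apply psi_injective; rw [q5, map_add, map_mul, map_inv₀, map_ofNat, map_ofNat]
  · apply psi_injective; rw [q6, map_ofNat]

end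

end Pool.Agent.V5helper40.FR
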