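import Pool.Agent.V5helper40.FR.Basic

/-!
# The level 7 relations in the field of Laurent series
-/

set_option autoImplicit false

namespace Pool.Agent.V5helper40.FR

open HahnSeries
open Pool.Agent.R322.QD (e2 e4 e6 th)

noncomputable section

/-! ### Ramanujan's equations -/

theorem ofQ_ofNat (n : ℕ) [n.AtLeastTwo] : ofQ (OfNat.ofNat n) = OfNat.ofNat n := map_ofNat ofQ n

theorem dl_E2 (h : JobT1) : dl E2 = 2 * (E2 ^ 2 - E4) := by
  have h1 := congrArg ofQ h.2.1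
  rw [map_mul, map_sub, map_pow, ofQ_ofNat] at h1
  have h2 := dl_ofQ e2
  show dl (ofQ e2) = 2 * (ofQ e2 ^ 2 - ofQ e4)
  rw [h2]
  linear_combination 2 * h1

theorem dl_E4 (h : JobT1) : dl E4 = 8 * (E2 * E4 - E6) := by
  have h1 := congrArg ofQ h.2.2.1
  rw [map_mul, map_sub, map_mul, ofQ_ofNat] at h1
  have h2 := dl_ofQ e4
  show dl (ofQ e4) = 8 * (ofQ e2 * ofQ e4 - ofQ e6)
  rw [h2]
  linear_combination 8 * h1

theorem dl_E6 (h : JobT1) : dl E6 = 12 * (E2 * E6 - E4 ^ 2) := by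
  have h1 := congrArg ofQ h.2.2.2
  rw [map_mul, map_sub, map_mul, map_pow, ofQ_ofNat] at h1
  have h2 := dl_ofQ e6
  show dl (ofQ e6) = 12 * (ofQ e2 * ofQ e6 - ofQ e4 ^ 2)
  rw [h2]
  linear_combination 12 * h1

theorem dl_xx : dl xx = xx := by
  ext n
  rw [dl_coeff, xx, coeff_single]
  split_ifs with h
  · subst h; simp
  · simp

theorem dl_eta (h : JobT1) : dl eta = E2 * eta := by
  have h1 := congrArg ofQ h.1
  rw [map_mul, map_mul, map_sub, map_one, ofQ_ofNat] at h1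
  have h2 := dl_ofQ (eulerProd ℂ)
  show dl (xx * ofQ (eulerProd ℂ)) = ofQ e2 * (xx * ofQ (eulerProd ℂ))
  rw [dl_mul, dl_xx, h2]
  linear_combination xx * h1

theorem dl_eq_zero {f : K} (h : dl f = 0) : f = C (f.coeff 0) := by
  ext n
  rw [C_apply, coeff_single]
  split_ifs with hn
  · rw [hn]
  · have h1 : (dl f).coeff n = 0 := by rw [h]; simp
    rw [dl_coeff] at h1
    rcases mul_eq_zero.1 h1 with h2 | h2
    · exact absurd (by exact_mod_cast h2) hn
    · exact h2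

/-! ### The functions `t`, `A`, `θ` -/

/-- `t = (η(7τ)/η(τ))^4` -/
def tt : K := (psi eta / eta) ^ 4

/-- `A = η(τ)^7/η(7τ)` -/
def AA : K := eta ^ 7 / psi eta

/-- `Θ₂` -/
def T2 : K := ofQ Th2

theorem T2_eq : 6 * T2 = 7 * psi E2 - E2 := by
  have h : ofQ Th2 = C (1 / 6) * (7 * psi (ofQ e2) - ofQ e2) := by
    rw [psi_ofQ, Th2, map_mul, map_sub, map_mul, ofQ_ofNat]
    congr 1
    show dil 24 (ofP (PowerSeries.C (1 / 6))) = _
    rw [ofP_C]
    exact embDomainRingHom_C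
  show 6 * ofQ Th2 = 7 * psi (ofQ e2) - ofQ e2
  rw [h, ofNat_eq 6, ← mul_assoc, ← map_mul]
  norm_num

theorem psi_E2 : psi E2 = (E2 + 6 * T2) / 7 := by
  have h := T2_eq
  field_simp
  linear_combination -h

theorem dl_psi_eta (h : JobT1) : dl (psi eta) = 7 * psi E2 * psi eta := by
  rw [dl_psi, dl_eta h, map_mul]; ring

/-- the constant term of the Euler product -/
theorem euler_coeff_zero : (eulerProd ℂ).coeff 0 = 1 := by
  rw [eulerProd, PowerSeries.coeff_mk]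
  simp

theorem euler_ne : eulerProd ℂ ≠ 0 := by
  intro h
  have := euler_coeff_zero
  rw [h] at this
  simp at this

theorem xx_ne : xx ≠ 0 := by
  rw [xx]
  exact single_ne_zero one_ne_zero

theorem ofQ_injective : Function.Injective ofQ := ofQ.injective' 
  where
  ofQ.injective' : Function.Injective ofQ := (dil_injective 24).comp ofP_injective

theorem ofQ_ne {p : PowerSeries ℂ} (h : p ≠ 0) : ofQ p ≠ 0 := fun h0 =>
  h (ofQ_injective (by rw [h0, map_zero]))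

theorem eta_ne : eta ≠ 0 := mul_ne_zero xx_ne (ofQ_ne euler_ne)

theorem psi_ne {f : K} (h : f ≠ 0) : psi f ≠ 0 := fun h0 => h (psi_injective (by rw [h0, map_zero]))

theorem psi_eta_ne : psi eta ≠ 0 := psi_ne eta_ne

theorem tt_ne : tt ≠ 0 := pow_ne_zero _ (div_ne_zero psi_eta_ne eta_ne)

theorem AA_ne : AA ≠ 0 := div_ne_zero (pow_ne_zero _ eta_ne) psi_eta_ne

theorem dl_tt (h : JobT1) : dl tt = 24 * tt * T2 := by
  have h1 := T2_eq
  have he := eta_ne
  have h3 : dl (psi eta / eta) = 6 * T2 * (psi eta / eta) := by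
    rw [div_eq_mul_inv, dl_mul, dl_inv, dl_psi_eta h, dl_eta h, h1]
    field_simp
    ring
  rw [tt, dl_pow, h3]
  push_cast
  ring

theorem dl_AA (h : JobT1) : dl AA = (6 * E2 - 6 * T2) * AA := by
  have h1 := T2_eq
  have he := eta_ne
  have he2 := psi_eta_ne
  rw [AA, div_eq_mul_inv, dl_mul, dl_inv, dl_psi_eta h, dl_pow, dl_eta h, h1]
  push_cast
  field_simp
  ring

theorem dl_T2 (h : JobT1) : dl T2 = 4 * E2 * T2 + 12 * T2 ^ 2 + (E4 - 49 * psi E4) / 3 := by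
  have h1 := T2_eq
  have h2 : dl (6 * T2) = dl (7 * psi E2 - E2) := by rw [h1]
  rw [dl_mul, dl_ofNat, dl_sub, dl_mul, dl_ofNat, dl_psi, dl_E2 h, map_mul, map_sub, map_pow,
    map_ofNat] at h2
  have h3 : psi E2 = (E2 + 6 * T2) / 7 := psi_E2
  rw [h3] at h2
  linear_combination h2 / 6

theorem dl_psi_E4 (h : JobT1) : dl (psi E4) = 8 * (E2 + 6 * T2) * psi E4 - 56 * psi E6 := by
  rw [dl_psi, dl_E4 h, map_mul, map_sub, map_mul, map_ofNat, psi_E2]
  ring

def Y0K : K := ofQ Y0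
def Y1K : K := ofQ Y1
def Y2K : K := ofQ Y2

theorem ofQ_C (c : ℂ) : ofQ (PowerSeries.C c) = C c := by
  show dil 24 (ofP (PowerSeries.C c)) = _
  rw [ofP_C]
  exact embDomainRingHom_C

theorem Y0K_eq : 960 * Y0K = 2401 * psi E4 + 29 * E4 - 1470 * T2 ^ 2 := by
  show 960 * ofQ Y0 = 2401 * psi (ofQ e4) + 29 * ofQ e4 - 1470 * ofQ Th2 ^ 2
  rw [psi_ofQ, Y0, map_mul, ofQ_C, map_sub, map_add, map_mul, map_mul, map_mul, map_pow, ofQ_ofNat,
    ofQ_ofNat, ofQ_ofNat, ofNat_eq 960, ← mul_assoc, ← map_mul]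
  norm_num

theorem Y1K_eq : 160 * Y1K = 50 * T2 ^ 2 - 49 * psi E4 - E4 := by
  show 160 * ofQ Y1 = 50 * ofQ Th2 ^ 2 - 49 * psi (ofQ e4) - ofQ e4
  rw [psi_ofQ, Y1, map_mul, ofQ_C, map_sub, map_sub, map_mul, map_mul, map_pow, ofQ_ofNat,
    ofQ_ofNat, ofNat_eq 160, ← mul_assoc, ← map_mul]
  norm_num

theorem Y2K_eq : 960 * Y2K = E4 + 29 * psi E4 - 30 * T2 ^ 2 := by
  show 960 * ofQ Y2 = ofQ e4 + 29 * psi (ofQ e4) - 30 * ofQ Th2 ^ 2
  rw [psi_ofQ, Y2, map_mul, ofQ_C, map_sub, map_add, map_mul, map_mul, map_pow, ofQ_ofNat,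
    ofQ_ofNat, ofNat_eq 960, ← mul_assoc, ← map_mul]
  norm_num

theorem rel1 (h : JobT2) : Y1K ^ 2 = Y0K * Y2K := by
  have := congrArg ofQ h.1
  rw [map_pow, map_mul] at this
  exact this

theorem rel2 (h : JobT2) : E6 * T2 = Y0K ^ 2 - 490 * (Y0K * Y1K) - 21609 * Y1K ^ 2
    - 235298 * (Y1K * Y2K) - 823543 * Y2K ^ 2 := by
  have := congrArg ofQ h.2.1
  simp only [map_sub, map_mul, map_pow, map_ofNat] at this
  exact this

theorem rel3 (h : JobT2) : psi E6 * T2 = Y0K ^ 2 + 14 * (Y0K * Y1K) + 63 * Y1K ^ 2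
    + 70 * (Y1K * Y2K) - 7 * Y2K ^ 2 := by
  have := congrArg ofQ h.2.2
  simp only [map_sub, map_add, map_mul, map_pow, map_ofNat] at this
  rw [show psi E6 = ofQ (subq 7 e6) from psi_ofQ e6]
  exact this

end

end Pool.Agent.V5helper40.FR
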