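import Pool.Agent.V5helper40.FR.Defs

/-!
# Operators on Laurent series
-/

set_option autoImplicit false

namespace Pool.Agent.V5helper40.FR

open HahnSeries

noncomputable section

theorem cm_coeff (c : ℤ → ℂ) (f : K) (n : ℤ) : (cm c f).coeff n = c n * f.coeff n := rfl

theorem dl_coeff (f : K) (n : ℤ) : (dl f).coeff n = n * f.coeff n := rfl

theorem U_coeff (f : K) (n : ℤ) : (U f).coeff n = f.coeff (7 * n) := rfl

theorem cm_support_subset (c : ℤ → ℂ) (f : K) : (cm c f).support ⊆ f.support := by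
  intro n hn h
  exact hn (by rw [cm_coeff, h, mul_zero])

theorem coeff_mul_big {f g : K} {s t : Set ℤ} (hs : s.IsPWO) (ht : t.IsPWO)
    (hf : f.support ⊆ s) (hg : g.support ⊆ t) (a : ℤ) :
    (f * g).coeff a = ∑ ij ∈ Finset.antidiagonal hs ht a, f.coeff ij.1 * g.coeff ij.2 := by
  rw [coeff_mul_left' hs hf]
  refine Finset.sum_subset ?_ ?_
  · intro ij hij
    rw [Finset.mem_antidiagonal] at hij ⊢
    exact ⟨hij.1, hg hij.2.1, hij.2.2⟩
  · intro ij hij hn
    rw [Finset.mem_antidiagonal] at hij hn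
    have : ij.2 ∉ g.support := fun h => hn ⟨hij.1, h, hij.2.2⟩
    rw [HahnSeries.mem_support, not_not] at this
    rw [this, mul_zero]

theorem coeff_C_mul (c : ℂ) (f : K) (n : ℤ) : ((C c : K) * f).coeff n = c * f.coeff n := by
  rw [C_mul_eq_smul, coeff_smul, smul_eq_mul]

theorem ofNat_eq (n : ℕ) [n.AtLeastTwo] : (OfNat.ofNat n : K) = C (OfNat.ofNat n : ℂ) :=
  (map_ofNat (C : ℂ →+* K) n).symm

theorem natCast_eq (n : ℕ) : (n : K) = C (n : ℂ) := (map_natCast (C : ℂ →+* K) n).symm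

theorem intCast_eq (n : ℤ) : (n : K) = C (n : ℂ) := (map_intCast (C : ℂ →+* K) n).symm

instance : CharZero K := charZero_of_injective_ringHom (f := (C : ℂ →+* K)) C_injective

theorem dl_add (f g : K) : dl (f + g) = dl f + dl g := by
  ext n; rw [coeff_add, dl_coeff, dl_coeff, dl_coeff, coeff_add]; ring

theorem dl_mul (f g : K) : dl (f * g) = dl f * g + f * dl g := by
  ext a
  rw [coeff_add, dl_coeff,
    coeff_mul_big f.isPWO_support g.isPWO_support subset_rfl subset_rfl,
    coeff_mul_big f.isPWO_support g.isPWO_support 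
      (show (dl f).support ⊆ f.support from cm_support_subset _ f) subset_rfl,
    coeff_mul_big f.isPWO_support g.isPWO_support subset_rfl
      (show (dl g).support ⊆ g.support from cm_support_subset _ g),
    Finset.mul_sum, ← Finset.sum_add_distrib]
  refine Finset.sum_congr rfl fun ij hij => ?_
  rw [Finset.mem_antidiagonal] at hij
  rw [dl_coeff, dl_coeff, ← hij.2.2]
  push_cast
  ring

theorem dl_C (c : ℂ) : dl (C c) = 0 := by
  ext n
  rw [dl_coeff, C_apply, coeff_single]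
  split_ifs with h
  · subst h; simp
  · simp

theorem dl_zero : dl 0 = 0 := by
  ext n; rw [dl_coeff]; simp

theorem dl_one : dl 1 = 0 := by
  rw [← (C : ℂ →+* K).map_one, dl_C]

/-- `x d/dx` as an additive map. -/
def dlA : K →+ K where
  toFun := dl
  map_zero' := dl_zero
  map_add' := dl_add

theorem dlA_apply (f : K) : dlA f = dl f := rfl

theorem dl_sub (f g : K) : dl (f - g) = dl f - dl g := dlA.map_sub f g
theorem dl_neg (f : K) : dl (-f) = -dl f := dlA.map_neg f
theorem dl_sum {ι : Type*} (s : Finset ι) (f : ι → K) : dl (∑ i ∈ s, f i) = ∑ i ∈ s, dl (f i) :=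
  map_sum dlA f s
theorem dl_natCast (n : ℕ) : dl (n : K) = 0 := by rw [natCast_eq, dl_C]
theorem dl_intCast (n : ℤ) : dl (n : K) = 0 := by rw [intCast_eq, dl_C]
theorem dl_ofNat (n : ℕ) [n.AtLeastTwo] : dl (OfNat.ofNat n : K) = 0 := by rw [ofNat_eq, dl_C]

theorem dl_pow (f : K) (n : ℕ) : dl (f ^ n) = n * f ^ (n - 1) * dl f := by
  induction n with
  | zero => simp [dl_one]
  | succ n ih =>
    rw [pow_succ, dl_mul, ih]
    rcases n with _ | n
    · simp
    · rw [show n + 1 + 1 - 1 = n + 1 by omega, show n + 1 - 1 = n by omega]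
      push_cast
      ring

theorem dl_inv (f : K) : dl f⁻¹ = -(f⁻¹) ^ 2 * dl f := by
  by_cases hf : f = 0
  · subst hf; simp [dl_zero]
  · have h : dl (f * f⁻¹) = 0 := by rw [mul_inv_cancel₀ hf, dl_one]
    rw [dl_mul] at h
    have : dl f⁻¹ = -(f⁻¹ * (dl f * f⁻¹)) := by
      have h2 : f⁻¹ * (dl f * f⁻¹ + f * dl f⁻¹) = 0 := by rw [h, mul_zero]
      rw [mul_add, ← mul_assoc f⁻¹ f, inv_mul_cancel₀ hf, one_mul] at h2
      linear_combination h2
    rw [this]; ring

theorem dl_C_mul (c : ℂ) (f : K) : dl (C c * f) = C c * dl f := by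
  rw [dl_mul, dl_C, zero_mul, zero_add]

/-! ### Dilations -/

theorem dil_coeff_mul (m : ℕ) [NeZero m] (f : K) (n : ℤ) : (dil m f).coeff (m * n) = f.coeff n := by
  exact embDomain_coeff (f := ⟨⟨(AddMonoidHom.mulLeft (m : ℤ)), _⟩, _⟩)

theorem dil_coeff_not_dvd (m : ℕ) [NeZero m] (f : K) (n : ℤ) (h : ¬ (m : ℤ) ∣ n) :
    (dil m f).coeff n = 0 := by
  refine embDomain_of_notMem_range ?_
  rintro ⟨a, rfl⟩
  exact h ⟨a, rfl⟩

theorem dl_dil (m : ℕ) [NeZero m] (f : K) : dl (dil m f) = m * dil m (dl f) := by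
  ext n
  rw [natCast_eq, coeff_C_mul]
  by_cases h : (m : ℤ) ∣ n
  · obtain ⟨a, rfl⟩ := h
    rw [dl_coeff, dil_coeff_mul, dil_coeff_mul, dl_coeff]
    push_cast
    ring
  · rw [dl_coeff, dil_coeff_not_dvd _ _ _ h, dil_coeff_not_dvd _ _ _ h]
    simp

theorem dil_injective (m : ℕ) [NeZero m] : Function.Injective (dil m) := (dil m).injective

theorem psi_coeff_mul (f : K) (n : ℤ) : (psi f).coeff (7 * n) = f.coeff n := dil_coeff_mul 7 f n

theorem psi_coeff_not_dvd (f : K) (n : ℤ) (h : ¬ (7 : ℤ) ∣ n) : (psi f).coeff n = 0 :=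
  dil_coeff_not_dvd 7 f n h

theorem dl_psi (f : K) : dl (psi f) = 7 * psi (dl f) := by
  have := dl_dil 7 f
  rw [show ((7 : ℕ) : K) = 7 from Nat.cast_ofNat] at this
  exact this

theorem psi_injective : Function.Injective psi := psi.injective

theorem U_psi (f : K) : U (psi f) = f := by
  ext n
  rw [U_coeff, psi_coeff_mul]

theorem U_add (f g : K) : U (f + g) = U f + U g := by
  ext n; rw [coeff_add, U_coeff, U_coeff, U_coeff, coeff_add]

theorem U_zero : U 0 = 0 := by
  ext n; rw [U_coeff]; simp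

theorem U_sub (f g : K) : U (f - g) = U f - U g := by
  ext n; rw [coeff_sub, U_coeff, U_coeff, U_coeff, coeff_sub]

theorem U_dl (f : K) : U (dl f) = 7 * dl (U f) := by
  ext n
  rw [ofNat_eq, coeff_C_mul, U_coeff, dl_coeff, dl_coeff, U_coeff]
  push_cast
  ring

theorem U_mul_psi (f g : K) : U (f * psi g) = U f * g := by
  ext n
  rw [U_coeff, coeff_mul_big f.isPWO_support (psi g).isPWO_support subset_rfl subset_rfl,
    coeff_mul_big (U f).isPWO_support g.isPWO_support subset_rfl subset_rfl]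
  symm
  refine Finset.sum_bij_ne_zero (fun ij _ _ => (7 * ij.1, 7 * ij.2)) ?_ ?_ ?_ ?_
  · intro ij hij hne
    rw [Finset.mem_antidiagonal] at hij ⊢
    refine ⟨?_, ?_, ?_⟩
    · exact hij.1
    · rw [HahnSeries.mem_support, psi_coeff_mul]
      exact hij.2.1
    · have := hij.2.2
      show 7 * ij.1 + 7 * ij.2 = 7 * n
      omega
  · intro a _ _ b _ _ h
    simp only [Prod.mk.injEq] at h
    ext
    · omega
    · omega
  · intro ij hij hne
    rw [Finset.mem_antidiagonal] at hij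
    have h2 : (7 : ℤ) ∣ ij.2 := by
      by_contra hcon
      exact hne (by rw [psi_coeff_not_dvd _ _ hcon, mul_zero])
    obtain ⟨b, hb⟩ := h2
    have h3 := hij.2.2
    have h1 : ij.1 = 7 * (n - b) := by omega
    refine ⟨(n - b, b), ?_, ?_, ?_⟩
    · rw [Finset.mem_antidiagonal]
      refine ⟨?_, ?_, by simp⟩
      · have := hij.1
        rw [HahnSeries.mem_support] at this ⊢
        rw [U_coeff, ← h1]; exact this
      · have := hij.2.1
        rw [HahnSeries.mem_support] at this ⊢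
        rw [hb, psi_coeff_mul] at this
        exact this
    · rw [U_coeff, ← h1]
      rw [hb, psi_coeff_mul] at hne
      exact hne
    · ext
      · exact h1.symm
      · exact hb.symm
  · intro ij _ _
    rw [U_coeff, psi_coeff_mul]

theorem U_C_mul (c : ℂ) (f : K) : U (C c * f) = C c * U f := by
  have : psi (C c) = C c := embDomainRingHom_C
  rw [mul_comm, ← this, U_mul_psi, this, mul_comm]

theorem psi_C (c : ℂ) : psi (C c) = C c := embDomainRingHom_C

theorem U_sum {ι : Type*} (s : Finset ι) (f : ι → K) : U (∑ i ∈ s, f i) = ∑ i ∈ s, U (f i) := by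
  classical
  induction s using Finset.induction_on with
  | empty => simp [U_zero]
  | insert a s ha ih => rw [Finset.sum_insert ha, Finset.sum_insert ha, U_add, ih]

theorem U_natCast_mul (n : ℕ) (f : K) : U ((n : K) * f) = n * U f := by
  have : (n : K) = psi (n : K) := by simp
  rw [mul_comm, this, U_mul_psi, ← this, mul_comm]

theorem U_intCast_mul (n : ℤ) (f : K) : U ((n : K) * f) = n * U f := by
  have : (n : K) = psi (n : K) := by simp
  rw [mul_comm, this, U_mul_psi, ← this, mul_comm]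

/-! ### Power series -/

theorem ofP_coeff (p : PowerSeries ℂ) (n : ℕ) : (ofP p).coeff (n : ℤ) = p.coeff n :=
  HahnSeries.ofPowerSeries_apply_coeff p n

theorem ofP_coeff_neg (p : PowerSeries ℂ) (n : ℤ) (hn : n < 0) : (ofP p).coeff n = 0 := by
  unfold ofP
  rw [ofPowerSeries_apply, embDomain_of_notMem_range]
  rintro ⟨a, ha⟩
  simp at ha
  omega

theorem ofP_injective : Function.Injective ofP := HahnSeries.ofPowerSeries_injective

open Pool.Agent.R322.QD in
theorem dl_ofP (p : PowerSeries ℂ) : dl (ofP p) = ofP (th p) := by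
  ext n
  rcases lt_or_ge n 0 with hn | hn
  · rw [dl_coeff, ofP_coeff_neg _ _ hn, ofP_coeff_neg _ _ hn, mul_zero]
  · obtain ⟨m, rfl⟩ := Int.eq_ofNat_of_zero_le hn
    rw [dl_coeff, ofP_coeff, ofP_coeff, coeff_th]
    push_cast
    rfl

theorem ofP_C (c : ℂ) : ofP (PowerSeries.C c) = C c := HahnSeries.ofPowerSeries_C c

open Pool.Agent.R322.QD in
theorem dl_ofQ (p : PowerSeries ℂ) : dl (ofQ p) = 24 * ofQ (th p) := by
  have := dl_dil 24 (ofP p)
  rw [dl_ofP, show ((24 : ℕ) : K) = 24 from Nat.cast_ofNat] at this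
  exact this

theorem dil_ofP (m : ℕ) [NeZero m] (p : PowerSeries ℂ) : dil m (ofP p) = ofP (subq m p) := by
  have hm0 : 0 < m := Nat.pos_of_ne_zero (NeZero.ne m)
  ext n
  rcases lt_or_ge n 0 with hn | hn
  · rw [ofP_coeff_neg _ _ hn]
    by_cases h : (m : ℤ) ∣ n
    · obtain ⟨a, rfl⟩ := h
      rw [dil_coeff_mul, ofP_coeff_neg]
      by_contra hcon
      push Not at hcon
      have : 0 ≤ (m : ℤ) * a := mul_nonneg (by positivity) hcon
      omega
    · rw [dil_coeff_not_dvd _ _ _ h]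
  · obtain ⟨a, rfl⟩ := Int.eq_ofNat_of_zero_le hn
    rw [ofP_coeff, subq, PowerSeries.coeff_mk]
    split_ifs with h
    · obtain ⟨b, rfl⟩ := h
      rw [Nat.mul_div_cancel_left _ hm0]
      push_cast
      rw [dil_coeff_mul, ofP_coeff]
    · rw [dil_coeff_not_dvd]
      intro hcon
      exact h (by exact_mod_cast hcon)

theorem ofQ_eq (p : PowerSeries ℂ) : ofQ p = ofP (subq 24 p) := dil_ofP 24 p

theorem psi_ofQ (p : PowerSeries ℂ) : psi (ofQ p) = ofQ (subq 7 p) := by
  have h1 : psi (ofQ p) = dil 24 (dil 7 (ofP p)) := by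
    show dil 7 (dil 24 (ofP p)) = dil 24 (dil 7 (ofP p))
    ext n
    by_cases h : (7 : ℤ) ∣ n
    · obtain ⟨a, rfl⟩ := h
      have e := dil_coeff_mul 7 (dil 24 (ofP p)) a
      rw [show ((7 : ℕ) : ℤ) = 7 by rfl] at e
      rw [e]
      by_cases h2 : (24 : ℤ) ∣ a
      · obtain ⟨b, rfl⟩ := h2
        have e1 := dil_coeff_mul 24 (ofP p) b
        have e2 := dil_coeff_mul 24 (dil 7 (ofP p)) (7 * b)
        have e3 := dil_coeff_mul 7 (ofP p) b
        push_cast at e1 e2 e3
        rw [e1, show (7 * (24 * b) : ℤ) = 24 * (7 * b) by ring, e2, e3]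
      · have e1 := dil_coeff_not_dvd 24 (ofP p) a (by exact_mod_cast h2)
        rw [e1]
        have : ¬ ((24 : ℕ) : ℤ) ∣ 7 * a := by push_cast; omega
        rw [dil_coeff_not_dvd 24 _ _ this]
    · rw [dil_coeff_not_dvd 7 _ _ (by exact_mod_cast h)]
      by_cases h2 : (24 : ℤ) ∣ n
      · obtain ⟨b, rfl⟩ := h2
        have e2 := dil_coeff_mul 24 (dil 7 (ofP p)) b
        push_cast at e2
        rw [e2, dil_coeff_not_dvd 7 _ _ (by push_cast; omega)]
      · rw [dil_coeff_not_dvd 24 _ _ (by exact_mod_cast h2)]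
  rw [h1, dil_ofP 7 p]
  rfl

/-! ### Rotations -/

/-- `f(x) ↦ f(z x)` -/
def rot (z : ℂ) (hz : z ≠ 0) : K →+* K where
  toFun f := cm (fun n => z ^ n) f
  map_zero' := by ext n; rw [cm_coeff]; simp
  map_one' := by
    ext n
    rw [cm_coeff]
    by_cases h : n = 0
    · subst h; simp
    · simp [coeff_one, h]
  map_add' f g := by ext n; rw [coeff_add, cm_coeff, cm_coeff, cm_coeff, coeff_add]; ring
  map_mul' f g := by
    ext a
    rw [cm_coeff,
      coeff_mul_big f.isPWO_support g.isPWO_support subset_rfl subset_rfl,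
      coeff_mul_big f.isPWO_support g.isPWO_support (cm_support_subset _ f) (cm_support_subset _ g),
      Finset.mul_sum]
    refine Finset.sum_congr rfl fun ij hij => ?_
    rw [Finset.mem_antidiagonal] at hij
    rw [cm_coeff, cm_coeff, ← hij.2.2, zpow_add₀ hz]
    ring

theorem rot_coeff (z : ℂ) (hz : z ≠ 0) (f : K) (n : ℤ) : (rot z hz f).coeff n = z ^ n * f.coeff n := rfl

theorem rot_psi (z : ℂ) (hz : z ≠ 0) (h7 : z ^ 7 = 1) (f : K) : rot z hz (psi f) = psi f := by
  ext n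
  rw [rot_coeff]
  by_cases h : (7 : ℤ) ∣ n
  · obtain ⟨a, rfl⟩ := h
    have : z ^ (7 * a : ℤ) = 1 := by
      rw [zpow_mul]
      have : z ^ (7 : ℤ) = 1 := by exact_mod_cast h7
      rw [this, one_zpow]
    rw [this, one_mul]
  · rw [psi_coeff_not_dvd _ _ h, mul_zero]

/-- a primitive 7th root of unity -/
def ze : ℂ := Complex.exp (2 * Real.pi * Complex.I / 7)

theorem ze_prim : IsPrimitiveRoot ze 7 := Complex.isPrimitiveRoot_exp 7 (by norm_num)

theorem ze_ne : ze ≠ 0 := Complex.exp_ne_zero _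

theorem zek_ne (k : ℕ) : ze ^ k ≠ 0 := pow_ne_zero _ ze_ne

theorem sum_ze (n : ℤ) : ∑ k ∈ Finset.range 7, (ze ^ k) ^ n = if (7 : ℤ) ∣ n then 7 else 0 := by
  have e : ∀ k : ℕ, (ze ^ k) ^ n = (ze ^ n) ^ k := by
    intro k
    rw [← zpow_natCast, ← zpow_mul, ← zpow_natCast (ze ^ n), ← zpow_mul, mul_comm]
  simp only [e]
  split_ifs with h
  · have : ze ^ n = 1 := (ze_prim.zpow_eq_one_iff_dvd n).2 (by exact_mod_cast h)
    rw [this]; simp
  · have h1 : ze ^ n ≠ 1 := fun hc => h (by exact_mod_cast (ze_prim.zpow_eq_one_iff_dvd n).1 hc)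
    have h2 : (ze ^ n) ^ 7 = 1 := by
      rw [← zpow_natCast, ← zpow_mul, mul_comm, zpow_mul]
      have : ze ^ ((7 : ℕ) : ℤ) = 1 := by rw [zpow_natCast]; exact ze_prim.pow_eq_one
      rw [this, one_zpow]
    have h3 := geom_sum_eq h1 7
    rw [h3, h2]; simp

theorem sum_rot (f : K) : ∑ k ∈ Finset.range 7, rot (ze ^ k) (zek_ne k) f = 7 * psi (U f) := by
  ext n
  rw [ofNat_eq, coeff_C_mul, coeff_sum]
  have e : ∀ k ∈ Finset.range 7, (rot (ze ^ k) (zek_ne k) f).coeff n = (ze ^ k) ^ n * f.coeff n :=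
    fun k _ => rot_coeff _ _ _ _
  rw [Finset.sum_congr rfl e, ← Finset.sum_mul, sum_ze]
  split_ifs with h
  · obtain ⟨a, rfl⟩ := h
    rw [psi_coeff_mul, U_coeff]
  · rw [psi_coeff_not_dvd _ _ h]; simp

end

end Pool.Agent.V5helper40.FR
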