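import Mathlib
import Pool.Agent.R322.QD

/-!
# MP_fad775_nt: definitions and jobs
-/

set_option autoImplicit false

namespace Pool.Agent.V5helper40.FR

open scoped LaurentPolynomial

noncomputable section

/-! ## The objects of the problem -/

/-- `∑_{m ∈ ℤ} q^{m(m+1)/2} ζ^{m+1/2}`, a power series in `q` whose coefficients are Laurent
polynomials in `T = ζ^{1/2}`. -/
def thetaNum : PowerSeries ℤ[T;T⁻¹] :=
  PowerSeries.mk fun n =>
    ∑ m ∈ (Finset.Icc (-(n : ℤ) - 1) (n : ℤ)).filter (fun m : ℤ => m * (m + 1) = 2 * (n : ℤ)),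
      LaurentPolynomial.T (2 * m + 1)

/-- `∏_{j ≥ 1} (1 - q^j)` (the coefficient of `q^n` only depends on the factors with `j ≤ n`). -/
def eulerProd (R : Type*) [CommRing R] : PowerSeries R :=
  PowerSeries.mk fun n =>
    PowerSeries.coeff n (∏ j ∈ Finset.range n, (1 - (PowerSeries.X : PowerSeries R) ^ (j + 1)))

/-- `F_k = (∑_m q^{m(m+1)/2} ζ^{m+1/2})^k / ∏_{j ≥ 1} (1 - q^j)^k`. -/
def F (k : ℕ) : PowerSeries ℤ[T;T⁻¹] :=
  thetaNum ^ k * PowerSeries.invOfUnit (eulerProd ℤ[T;T⁻¹] ^ k) 1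

/-- `cψ_{k,β}(n)`: the coefficient of `ζ^β q^n = T^{2β} q^n` in `F_k`, and `0` for `n < 0`. -/
def cpsi (k : ℕ) (β n : ℤ) : ℤ :=
  if n < 0 then 0 else (PowerSeries.coeff n.toNat (F k)).coeff (2 * β)

/-! ## Laurent series in `x = q^{1/24}` -/

/-- Laurent series in `x`. -/
abbrev K := LaurentSeries ℂ

/-- Multiplication of the coefficient of `x^n` by `c n`. -/
def cm (c : ℤ → ℂ) (f : K) : K where
  coeff n := c n * f.coeff n
  isPWO_support' := f.isPWO_support.mono (by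
    intro n hn
    rw [HahnSeries.mem_support]
    intro h
    exact hn (by show c n * f.coeff n = 0; rw [h, mul_zero]))

/-- The derivation `x d/dx`. -/
def dl (f : K) : K := cm (fun n => (n : ℂ)) f

/-- `f(x) ↦ f(x^m)`. -/
def dil (m : ℕ) [NeZero m] : K →+* K :=
  HahnSeries.embDomainRingHom (AddMonoidHom.mulLeft (m : ℤ))
    (fun a b h => by
      have hm : (m : ℤ) ≠ 0 := by exact_mod_cast NeZero.ne m
      exact mul_left_cancel₀ hm h)
    (fun a b => by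
      have hm : (0 : ℤ) < m := by exact_mod_cast Nat.pos_of_ne_zero (NeZero.ne m)
      exact mul_le_mul_iff_right₀ hm)

/-- `f(x) ↦ f(x^7)` -/
def psi : K →+* K := dil 7

/-- A power series in `x` as a Laurent series. -/
def ofP : PowerSeries ℂ →+* K := HahnSeries.ofPowerSeries ℤ ℂ

/-- A power series in `q = x^24` as a Laurent series in `x`. -/
def ofQ : PowerSeries ℂ →+* K := (dil 24).comp ofP

/-- `x` -/
def xx : K := HahnSeries.single 1 1

/-- The operator `U`: the coefficient of `x^n` in `U f` is that of `x^{7n}` in `f`. -/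
def U (f : K) : K :=
  HahnSeries.ofSuppBddBelow (fun n => f.coeff (7 * n)) (by
    by_cases hf : f = 0
    · subst hf
      simp
    · refine ⟨-|f.order|, ?_⟩
      intro n hn
      have h1 : f.order ≤ 7 * n := HahnSeries.order_le_of_coeff_ne_zero hn
      have h2 := abs_le.1 (le_refl |f.order|)
      have h3 := abs_nonneg f.order
      omega)

/-- `ϑ_j = ∑_{r ≡ j (mod 6)} x^{2 r²}` -/
def tht (j : ℤ) : PowerSeries ℂ :=
  PowerSeries.mk fun n =>
    (((Finset.Icc (-(n : ℤ)) (n : ℤ)).filter (fun r : ℤ => (6 : ℤ) ∣ r - j ∧ 2 * r ^ 2 = (n : ℤ))).card : ℂ)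

/-- `η = x ∏ (1 - x^{24 j})` -/
def eta : K := xx * ofQ (eulerProd ℂ)

open Pool.Agent.R322.QD in
/-- `E₂, E₄, E₆` in `q = x^24` -/
def E2 : K := ofQ e2
open Pool.Agent.R322.QD in
def E4 : K := ofQ e4
open Pool.Agent.R322.QD in
def E6 : K := ofQ e6

/-- `D_k f = x f' - k E₂ f`, the Serre derivative in weight `k / 2` (up to the factor `24`). -/
def DD (k : ℤ) (f : K) : K := dl f - (k : K) * E2 * f

/-- `G_β = ∑_n cψ_{6,β}(n) x^{24 n + 12 - 2 β²}` -/
def G (β : ℤ) : K :=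
  HahnSeries.ofSuppBddBelow
    (fun n => if (24 : ℤ) ∣ n - (12 - 2 * β ^ 2) then (cpsi 6 β ((n - (12 - 2 * β ^ 2)) / 24) : ℂ) else 0)
    (by
      refine ⟨12 - 2 * β ^ 2, ?_⟩
      intro n hn
      by_contra hlt
      apply hn
      show (if (24 : ℤ) ∣ n - (12 - 2 * β ^ 2) then (cpsi 6 β ((n - (12 - 2 * β ^ 2)) / 24) : ℂ)
        else 0) = 0
      split_ifs with h
      · have h1 : (n - (12 - 2 * β ^ 2)) / 24 < 0 := by omega
        rw [cpsi, if_pos h1]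
        simp
      · rfl)

/-! ## Jobs -/

/-- substitution `q ↦ q^m` in a power series -/
def subq (m : ℕ) (p : PowerSeries ℂ) : PowerSeries ℂ :=
  PowerSeries.mk fun n => if m ∣ n then p.coeff (n / m) else 0

/-- `(7 E₂(q^7) - E₂(q)) / 6` as a power series in `q` -/
def Th2 : PowerSeries ℂ :=
  PowerSeries.C (1 / 6 : ℂ) * (7 * subq 7 Pool.Agent.R322.QD.e2 - Pool.Agent.R322.QD.e2)

/-- the three basic forms of weight 4 on `Γ₀(7)` -/
def Y0 : PowerSeries ℂ := PowerSeries.C (1 / 960 : ℂ) *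
  (2401 * subq 7 Pool.Agent.R322.QD.e4 + 29 * Pool.Agent.R322.QD.e4 - 1470 * Th2 ^ 2)
def Y1 : PowerSeries ℂ := PowerSeries.C (1 / 160 : ℂ) *
  (50 * Th2 ^ 2 - 49 * subq 7 Pool.Agent.R322.QD.e4 - Pool.Agent.R322.QD.e4)
def Y2 : PowerSeries ℂ := PowerSeries.C (1 / 960 : ℂ) *
  (Pool.Agent.R322.QD.e4 + 29 * subq 7 Pool.Agent.R322.QD.e4 - 30 * Th2 ^ 2)

/-- T2: the identities of weight 8 on `Γ₀(7)`. -/
def JobT2 : Prop :=
  Y1 ^ 2 = Y0 * Y2 ∧
  Pool.Agent.R322.QD.e6 * Th2 = Y0 ^ 2 - 490 * (Y0 * Y1) - 21609 * Y1 ^ 2 - 235298 * (Y1 * Y2)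
    - 823543 * Y2 ^ 2 ∧
  subq 7 Pool.Agent.R322.QD.e6 * Th2 = Y0 ^ 2 + 14 * (Y0 * Y1) + 63 * Y1 ^ 2 + 70 * (Y1 * Y2)
    - 7 * Y2 ^ 2

/-- `x f' - k E₂(x^24) f` for a power series `f` in `x` -/
def DP (k : ℂ) (f : PowerSeries ℂ) : PowerSeries ℂ :=
  Pool.Agent.R322.QD.th f - PowerSeries.C k * (subq 24 Pool.Agent.R322.QD.e2 * f)

/-- T3: the modular differential equation of the theta functions. -/
def JobT3 : Prop := ∀ j : ℤ, 0 ≤ j → j ≤ 3 →
  DP 13 (DP 9 (DP 5 (DP 1 (tht j)))) =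
    58 * (subq 24 Pool.Agent.R322.QD.e4 * DP 5 (DP 1 (tht j)))
      - 176 * (subq 24 Pool.Agent.R322.QD.e6 * DP 1 (tht j))
      + 119 * (subq 24 Pool.Agent.R322.QD.e4 ^ 2 * tht j)

/-- `ϑ_j` as a Laurent series -/
def thK (j : ℤ) : K := ofP (tht j)

/-- the pairing -/
def pair (f h : ℤ → K) : K := f 0 * h 0 - 2 * (f 1 * h 1) + 2 * (f 2 * h 2) - f 3 * h 3

/-- T4: the pairing of `G` with the theta functions. -/
def JobT4 : Prop :=
  pair G thK = 0 ∧ pair G (fun j => dl (thK j)) = 0 ∧ pair G (fun j => dl (dl (thK j))) = 0 ∧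
  pair G (fun j => dl (dl (dl (thK j)))) = -5760 * eta ^ 12

/-- T1: `η` and Ramanujan's identities as power series in `q`. -/
def JobT1 : Prop :=
  24 * Pool.Agent.R322.QD.th (eulerProd ℂ) = (Pool.Agent.R322.QD.e2 - 1) * eulerProd ℂ ∧
  12 * Pool.Agent.R322.QD.th Pool.Agent.R322.QD.e2 =
    Pool.Agent.R322.QD.e2 ^ 2 - Pool.Agent.R322.QD.e4 ∧
  3 * Pool.Agent.R322.QD.th Pool.Agent.R322.QD.e4 =
    Pool.Agent.R322.QD.e2 * Pool.Agent.R322.QD.e4 - Pool.Agent.R322.QD.e6 ∧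
  2 * Pool.Agent.R322.QD.th Pool.Agent.R322.QD.e6 =
    Pool.Agent.R322.QD.e2 * Pool.Agent.R322.QD.e6 - Pool.Agent.R322.QD.e4 ^ 2

end

end Pool.Agent.V5helper40.FR
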