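import Pool.Agent.V5helper40.FR.Mat

/-!
# Jobs, second part
-/

set_option autoImplicit false

namespace Pool.Agent.V5helper40.FR

noncomputable section

/-- iterated Serre derivatives of a form of weight `k/2`, in the normalisation `x d/dx - k E₂` -/
def its (k : ℤ) (f : K) : ℕ → K
  | 0 => f
  | n + 1 => dl (its k f n) - (k + 4 * n : ℤ) * E2 * its k f n

/-- the permutation `0 ↔ 2, 1 ↔ 3` -/
def sg (β : ℤ) : ℤ := if β = 0 then 2 else if β = 1 then 3 else if β = 2 then 0 else 1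

/-- the constants -/
def cb (β : ℤ) : ℤ := if β = 0 then -2 else if β = 1 then -1 else if β = 2 then 1 else 2

/-- derivatives of `G_β` -/
def fG (β : ℤ) : ℕ → K := its (-1) (G β)

/-- derivatives of `η⁴ ϑ_j` -/
def fT (j : ℤ) : ℕ → K := its 5 (eta ^ 4 * thK j)

/-- L: the two differential equations, and the two linear relations with all constants. -/
def JobL : Prop := Rels → JobT1 → JobT3 → JobT4 →
  (∀ j : ℤ, 0 ≤ j → j ≤ 3 → Sol 5 119 (-176) 58 (fT j)) ∧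
  (∀ β : ℤ, 0 ≤ β → β ≤ 3 → Sol (-1) 3575 (-752) 58 (fG β)) ∧
  (∀ β : ℤ, 0 ≤ β → β ≤ 3 → ∀ i : ℕ, i < 4 →
    fG β i = cb β * RR pP 6 1920 (-1) (fT (sg β)) i) ∧
  (∀ β : ℤ, 0 ≤ β → β ≤ 3 → ∀ i : ℕ, i < 4 →
    cb β * fT (sg β) i = RR pQ 3 2880 1 (fG β) i)

/-- `w = η(τ)/η(49τ)` -/
def om : K := eta / psi (psi eta)

/-- `a_j(T)`: the modular equation is `t⁷ = ∑ a_j(T) t^j`, `T = t(7τ)`. -/
def aL : ℕ → List ℤ
  | 0 => [0, 1]
  | 1 => [0, 28, 49]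
  | 2 => [0, 322, 1372, 2401]
  | 3 => [0, 1904, 15778, 67228, 117649]
  | 4 => [0, 5915, 93296, 773122, 3294172, 5764801]
  | 5 => [0, 8624, 289835, 4571504, 37882978, 161414428, 282475249]
  | _ => [0, 4018, 422576, 14201915, 224003696, 1856265922, 7909306972, 13841287201]

/-- M: modular equations of degree 7 and the first values of `U(w^m)`. -/
def JobM : Prop := Rels →
  (tt ^ 7 = ev (psi tt) (aL 0) + ev (psi tt) (aL 1) * tt + ev (psi tt) (aL 2) * tt ^ 2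
    + ev (psi tt) (aL 3) * tt ^ 3 + ev (psi tt) (aL 4) * tt ^ 4 + ev (psi tt) (aL 5) * tt ^ 5
    + ev (psi tt) (aL 6) * tt ^ 6) ∧
  (om ^ 7 + 7 * om ^ 6 + 21 * om ^ 5 + 49 * om ^ 4 + (147 + 7 * (psi tt)⁻¹) * om ^ 3
    + (343 + 35 * (psi tt)⁻¹) * om ^ 2 + (343 + 49 * (psi tt)⁻¹) * om = ((psi tt)⁻¹) ^ 2) ∧
  (U 1 = 1 ∧ U om = -1 ∧ U (om ^ 2) = 1 ∧ U (om ^ 3) = -7 ∧ U (om ^ 4) = -4 * tt⁻¹ - 7 ∧
    U (om ^ 5) = 10 * tt⁻¹ + 49 ∧ U (om ^ 6) = 49)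

end

end Pool.Agent.V5helper40.FR
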