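import Pool.Agent.V5helper40.FR.XC

/-!
# The ring `ℤ₍₇₎[7 t]`
-/

set_option autoImplicit false

namespace Pool.Agent.V5helper40.FR

open HahnSeries

noncomputable section

/-- rational numbers with denominator prime to `7`, in `ℂ` -/
def R7 : Subring ℂ where
  carrier := {z | ∃ a : ℤ, ∃ b : ℤ, ¬ (7 : ℤ) ∣ b ∧ z * b = a}
  zero_mem' := ⟨0, 1, by norm_num, by simp⟩
  one_mem' := ⟨1, 1, by norm_num, by simp⟩
  add_mem' := by
    rintro x y ⟨a, b, hb, h1⟩ ⟨c, d, hd, h2⟩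
    refine ⟨a * d + c * b, b * d, ?_, ?_⟩
    · intro h
      rcases (Int.prime_iff_natAbs_prime.2 (by norm_num : Nat.Prime (7 : ℤ).natAbs)).dvd_or_dvd h with h | h
      · exact hb h
      · exact hd h
    · push_cast
      linear_combination d * h1 + b * h2
  mul_mem' := by
    rintro x y ⟨a, b, hb, h1⟩ ⟨c, d, hd, h2⟩
    refine ⟨a * c, b * d, ?_, ?_⟩
    · intro h
      rcases (Int.prime_iff_natAbs_prime.2 (by norm_num : Nat.Prime (7 : ℤ).natAbs)).dvd_or_dvd h with h | h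
      · exact hb h
      · exact hd h
    · push_cast
      linear_combination y * d * h1 + a * h2
  neg_mem' := by
    rintro x ⟨a, b, hb, h1⟩
    refine ⟨-a, b, hb, ?_⟩
    push_cast
    linear_combination -h1

theorem R7_int (n : ℤ) : (n : ℂ) ∈ R7 := ⟨n, 1, by norm_num, by simp⟩

theorem R7_inv {n : ℤ} (hn : ¬ (7 : ℤ) ∣ n) : ((n : ℂ))⁻¹ ∈ R7 := by
  refine ⟨1, n, hn, ?_⟩
  have : (n : ℂ) ≠ 0 := by
    intro h
    apply hn
    have : n = 0 := by exact_mod_cast h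
    rw [this]; exact dvd_zero _
  rw [inv_mul_cancel₀ this]; simp

/-- `s = 7 t` -/
def ss : K := 7 * tt

/-- evaluation of polynomials at `s` -/
def evS : Polynomial R7 →+* K := Polynomial.eval₂RingHom ((C : ℂ →+* K).comp R7.subtype) ss

/-- The ring `ℤ₍₇₎[s]`. -/
def SS : Subring K := evS.range

theorem SS_induct {P : K → Prop} (hadd : ∀ f g, P f → P g → P (f + g))
    (hmon : ∀ (n : ℕ) (r : ℂ), r ∈ R7 → P (C r * ss ^ n)) {f : K} (hf : f ∈ SS) : P f := by
  obtain ⟨p, rfl⟩ := hf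
  induction p using Polynomial.induction_on' with
  | add p q hp hq => rw [map_add]; exact hadd _ _ hp hq
  | monomial n a =>
    have : evS (Polynomial.monomial n a) = C (a : ℂ) * ss ^ n := by
      simp [evS, Polynomial.eval₂_monomial]
    rw [this]
    exact hmon n a a.2

theorem C_mem {r : ℂ} (hr : r ∈ R7) : (C r : K) ∈ SS := by
  refine ⟨Polynomial.C ⟨r, hr⟩, ?_⟩
  simp [evS]

theorem ss_mem : ss ∈ SS := ⟨Polynomial.X, by simp [evS]⟩

theorem int_mem (n : ℤ) : (n : K) ∈ SS := intCast_mem SS n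

theorem ofNat_mem (n : ℕ) [n.AtLeastTwo] : (OfNat.ofNat n : K) ∈ SS := by
  have := natCast_mem SS (OfNat.ofNat n)
  simpa using this

/-- divisibility check: `7^{m+k}` divides the coefficient of `t^k` -/
def dv : ℕ → List ℤ → Bool
  | _, [] => true
  | m, c :: l => (c % (7 ^ m : ℤ) == 0) && dv (m + 1) l

theorem dv_mem : ∀ (m : ℕ) (l : List ℤ), dv m l = true → ∃ y ∈ SS, ev tt l = 7 ^ m * y
  | m, [], _ => ⟨0, zero_mem _, by rw [ev_nil, mul_zero]⟩
  | m, c :: l, h => by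
    rw [dv, Bool.and_eq_true, beq_iff_eq] at h
    obtain ⟨y, hy, h2⟩ := dv_mem (m + 1) l h.2
    obtain ⟨d, hd⟩ := Int.dvd_of_emod_eq_zero h.1
    refine ⟨d + ss * y, add_mem (int_mem d) (mul_mem ss_mem hy), ?_⟩
    rw [ev_cons, h2, hd, ss]
    push_cast
    ring

/-- the constant term of an element of `SS`, given by a list -/
theorem dv_head (c : ℤ) (l : List ℤ) (h : dv 0 (c :: l) = true) :
    ∃ y ∈ SS, ev tt (c :: l) = c + ss * y := by
  rw [dv, Bool.and_eq_true] at h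
  obtain ⟨y, hy, h2⟩ := dv_mem 1 l h.2
  exact ⟨y, hy, by rw [ev_cons, h2, ss]; ring⟩

/-- multiples of `7` -/
def in7 (f : K) : Prop := ∃ a ∈ SS, f = 7 * a

/-- the ideal `(7, s)` -/
def inJ (f : K) : Prop := ∃ a ∈ SS, ∃ b ∈ SS, f = 7 * a + ss * b

/-- `SS + t SS` -/
def inM (f : K) : Prop := ∃ a ∈ SS, ∃ b ∈ SS, f = a + tt * b

theorem in7.add {f g : K} (hf : in7 f) (hg : in7 g) : in7 (f + g) := by
  obtain ⟨a, ha, rfl⟩ := hf
  obtain ⟨b, hb, rfl⟩ := hg
  exact ⟨a + b, add_mem ha hb, by ring⟩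

theorem in7.mulS {f g : K} (hf : in7 f) (hg : g ∈ SS) : in7 (g * f) := by
  obtain ⟨a, ha, rfl⟩ := hf
  exact ⟨g * a, mul_mem hg ha, by ring⟩

theorem in7.neg {f : K} (hf : in7 f) : in7 (-f) := by
  obtain ⟨a, ha, rfl⟩ := hf
  exact ⟨-a, neg_mem ha, by ring⟩

theorem in7_zero : in7 0 := ⟨0, zero_mem _, by ring⟩

theorem in7.mem {f : K} (hf : in7 f) : f ∈ SS := by
  obtain ⟨a, ha, rfl⟩ := hf
  exact mul_mem (ofNat_mem 7) ha

theorem in7.inJ {f : K} (hf : in7 f) : inJ f := by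
  obtain ⟨a, ha, rfl⟩ := hf
  exact ⟨a, ha, 0, zero_mem _, by ring⟩

theorem inJ.add {f g : K} (hf : inJ f) (hg : inJ g) : inJ (f + g) := by
  obtain ⟨a, ha, b, hb, rfl⟩ := hf
  obtain ⟨c, hc, d, hd, rfl⟩ := hg
  exact ⟨a + c, add_mem ha hc, b + d, add_mem hb hd, by ring⟩

theorem inJ.neg {f : K} (hf : inJ f) : inJ (-f) := by
  obtain ⟨a, ha, b, hb, rfl⟩ := hf
  exact ⟨-a, neg_mem ha, -b, neg_mem hb, by ring⟩

theorem inJ.sub {f g : K} (hf : inJ f) (hg : inJ g) : inJ (f - g) := by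
  rw [sub_eq_add_neg]; exact hf.add hg.neg

theorem inJ.mulS {f g : K} (hf : inJ f) (hg : g ∈ SS) : inJ (g * f) := by
  obtain ⟨a, ha, b, hb, rfl⟩ := hf
  exact ⟨g * a, mul_mem hg ha, g * b, mul_mem hg hb, by ring⟩

theorem inJ_zero : inJ 0 := ⟨0, zero_mem _, 0, zero_mem _, by ring⟩

theorem inJ.mem {f : K} (hf : inJ f) : f ∈ SS := by
  obtain ⟨a, ha, b, hb, rfl⟩ := hf
  exact add_mem (mul_mem (ofNat_mem 7) ha) (mul_mem ss_mem hb)

theorem inJ_ss {f : K} (hf : f ∈ SS) : inJ (ss * f) := ⟨0, zero_mem _, f, hf, by ring⟩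

theorem inM.add {f g : K} (hf : inM f) (hg : inM g) : inM (f + g) := by
  obtain ⟨a, ha, b, hb, rfl⟩ := hf
  obtain ⟨c, hc, d, hd, rfl⟩ := hg
  exact ⟨a + c, add_mem ha hc, b + d, add_mem hb hd, by ring⟩

theorem inM_of_mem {f : K} (hf : f ∈ SS) : inM f := ⟨f, hf, 0, zero_mem _, by ring⟩

theorem inM_zero : inM 0 := inM_of_mem (zero_mem _)

theorem inJ_iff {f : K} : inJ f ↔ ∃ g, inM g ∧ f = 7 * g := by
  constructor
  · rintro ⟨a, ha, b, hb, rfl⟩
    exact ⟨a + tt * b, ⟨a, ha, b, hb, rfl⟩, by rw [ss]; ring⟩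
  · rintro ⟨g, ⟨a, ha, b, hb, rfl⟩, rfl⟩
    exact ⟨a, ha, b, hb, by rw [ss]; ring⟩

/-- every element of `SS` is an integer modulo `(7, s)` -/
theorem exists_int {f : K} (hf : f ∈ SS) : ∃ a : ℤ, inJ (f - a) := by
  refine SS_induct (P := fun f => ∃ a : ℤ, inJ (f - a)) ?_ ?_ hf
  · rintro f g ⟨a, ha⟩ ⟨b, hb⟩
    refine ⟨a + b, ?_⟩
    have : f + g - ((a + b : ℤ) : K) = (f - a) + (g - b) := by push_cast; ring
    rw [this]; exact ha.add hb
  · intro n r hr
    rcases n with _ | n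
    · obtain ⟨a, b, hb, h⟩ := hr
      -- choose c with b c = 1 mod 7
      have hcop : IsCoprime b 7 := by
        rw [isCoprime_comm, Prime.coprime_iff_not_dvd (Int.prime_iff_natAbs_prime.2 (by norm_num))]
        exact hb
      obtain ⟨u, v, huv⟩ := hcop
      refine ⟨a * u, ?_⟩
      have hb0 : (b : ℂ) ≠ 0 := by
        intro h0
        apply hb
        have : b = 0 := by exact_mod_cast h0
        rw [this]; exact dvd_zero _
      have hr2 : r = a * (b : ℂ)⁻¹ := by rw [← h]; field_simp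
      have hr3 : r - a * u = 7 * (v * r) := by
        have h3 : ((u : ℂ) * b + v * 7) = 1 := by exact_mod_cast congrArg (Int.cast : ℤ → ℂ) huv
        rw [hr2]
        field_simp
        linear_combination (-1 : ℂ) * a * h3
      have hrm : r ∈ R7 := ⟨a, b, hb, h⟩
      refine ⟨C (v * r), C_mem (mul_mem (R7_int v) hrm), 0, zero_mem _, ?_⟩
      have h4 := congrArg (C : ℂ → K) hr3
      rw [map_sub, map_mul, map_mul, map_intCast, map_intCast, map_ofNat] at h4
      push_cast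
      rw [pow_zero, mul_one]
      linear_combination h4
    · refine ⟨0, ?_⟩
      have : C r * ss ^ (n + 1) - ((0 : ℤ) : K) = ss * (C r * ss ^ n) := by push_cast; ring
      rw [this]
      exact inJ_ss (mul_mem (C_mem hr) (pow_mem ss_mem n))

end

end Pool.Agent.V5helper40.FR
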