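import Pool.Agent.V5helper40.FR.LatA

/-!
# Divisibility of the values of `U`
-/

set_option autoImplicit false

namespace Pool.Agent.V5helper40.FR

open HahnSeries

noncomputable section

/-- the coefficients of `7 a_j` -/
theorem aL_mem (j : ℕ) (hj : j < 7) : ∃ b ∈ SS, 7 * ev tt (aL j) = ss * b := by
  have key : ∀ l : List ℤ, dv 0 l = true → ∃ b ∈ SS, 7 * ev tt (0 :: l) = ss * b := by
    intro l hl
    obtain ⟨y, hy, h⟩ := dv_mem 0 l hl
    refine ⟨y, hy, ?_⟩
    rw [ev_cons, h, ss]; push_cast; ring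
  interval_cases j <;> exact key _ (by decide +kernel)

/-- A class whose values of low index are in `SS`. -/
structure Cl (X : ℤ → K) : Prop where
  recu : ∀ n, X (n + 7) = ev tt (aL 0) * X n + ev tt (aL 1) * X (n + 1) + ev tt (aL 2) * X (n + 2)
      + ev tt (aL 3) * X (n + 3) + ev tt (aL 4) * X (n + 4) + ev tt (aL 5) * X (n + 5)
      + ev tt (aL 6) * X (n + 6)
  low : ∀ m : ℤ, -6 ≤ m → m ≤ 0 → X m ∈ SS

/-- `7^(m-e) X_m` is divisible by `s` for `m ≥ 1`. -/
def UpE (X : ℤ → K) (e : ℕ) : Prop := ∀ m : ℕ, 1 ≤ m → ∃ b ∈ SS, 7 ^ (m - e) * X m = ss * b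

theorem Cl.rec' {X : ℤ → K} (h : Cl X) (n : ℤ) :
    X n = ∑ j ∈ Finset.range 7, ev tt (aL j) * X (n - 7 + j) := by
  have := h.recu (n - 7)
  rw [show n - 7 + 7 = n by ring] at this
  rw [this]
  simp only [Finset.sum_range_succ, Finset.sum_range_zero]
  push_cast
  rw [add_zero]
  ring

theorem sum_ss {ι : Type*} (s : Finset ι) (f : ι → K) (h : ∀ i ∈ s, ∃ b ∈ SS, f i = ss * b) :
    ∃ b ∈ SS, ∑ i ∈ s, f i = ss * b := by
  classical
  induction s using Finset.induction_on with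
  | empty => exact ⟨0, zero_mem _, by simp⟩
  | insert a s ha ih =>
    obtain ⟨b, hb, h1⟩ := h a (Finset.mem_insert_self a s)
    obtain ⟨c, hc, h2⟩ := ih (fun i hi => h i (Finset.mem_insert_of_mem hi))
    exact ⟨b + c, add_mem hb hc, by rw [Finset.sum_insert ha, h1, h2]; ring⟩

/-- the upward recursion -/
theorem Cl.up_gen {X : ℤ → K} (h : Cl X) (e : ℕ) (he : e ≤ 1)
    (h1 : e = 1 → ∃ b ∈ SS, X 1 = ss * b) : UpE X e := by
  intro m
  induction m using Nat.strong_induction_on with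
  | _ m ih =>
    intro hm
    by_cases hc : e = 1 ∧ m = 1
    · obtain ⟨rfl, rfl⟩ := hc
      obtain ⟨b, hb, h2⟩ := h1 rfl
      exact ⟨b, hb, by rw [Nat.sub_self, pow_zero, one_mul]; exact_mod_cast h2⟩
    · have hme : 1 ≤ m - e := by omega
      rw [h.rec' (m : ℤ), Finset.mul_sum]
      refine sum_ss _ _ (fun j hj => ?_)
      rw [Finset.mem_range] at hj
      obtain ⟨b, hb, h2⟩ := aL_mem j hj
      rcases le_or_gt ((m : ℤ) - 7 + j) 0 with hle | hgt
      · have h3 := h.low ((m : ℤ) - 7 + j) (by omega) hle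
        obtain ⟨k, hk⟩ := Nat.exists_eq_add_of_le hme
        refine ⟨7 ^ k * b * X ((m : ℤ) - 7 + j), mul_mem (mul_mem (pow_mem (ofNat_mem 7) k) hb) h3, ?_⟩
        rw [hk, _root_.pow_add, pow_one]
        linear_combination 7 ^ k * X ((m : ℤ) - 7 + j) * h2
      · obtain ⟨i, hi⟩ : ∃ i : ℕ, (i : ℤ) = (m : ℤ) - 7 + j := ⟨((m : ℤ) - 7 + j).toNat, by omega⟩
        have hi1 : 1 ≤ i := by omega
        obtain ⟨c, hc2, h3⟩ := ih i (by omega) hi1
        rw [← hi]
        obtain ⟨k, hk⟩ := Nat.exists_eq_add_of_le (show (i - e) + 1 ≤ m - e by omega)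
        refine ⟨7 ^ k * b * (ss * c), mul_mem (mul_mem (pow_mem (ofNat_mem 7) k) hb)
          (mul_mem ss_mem hc2), ?_⟩
        rw [hk, _root_.pow_add, _root_.pow_add, pow_one]
        linear_combination 7 ^ k * (7 ^ (i - e) * X i) * h2 + 7 ^ k * ss * b * h3

/-- linear combination of values -/
def LX (X : ℤ → K) : List ℤ → ℤ → K
  | [], _ => 0
  | a :: l, m => a * X m + LX X l (m + 1)

/-- `7^(k+l)` divides the `l`-th entry -/
def dq : ℤ → List ℤ → Bool
  | _, [] => true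
  | k, a :: l => (a % (7 ^ k.toNat : ℤ) == 0) && dq (k + 1) l

/-- the constant term -/
def cst (cf : ℤ → ℤ) : List ℤ → ℤ → ℤ
  | [], _ => 0
  | a :: l, m => (if m ≤ 0 then a * cf m else 0) + cst cf l (m + 1)

theorem term_up {X : ℤ → K} {e : ℕ} (he : e ≤ 1) (hu : UpE X e) (n : ℕ) (m a : ℤ) (hm : 1 ≤ m)
    (ha : a % (7 ^ (m - n - e).toNat : ℤ) = 0) : ∃ b ∈ SS, 7 ^ n * (a * X m) = ss * b := by
  obtain ⟨i, rfl⟩ : ∃ i : ℕ, m = i := ⟨m.toNat, by omega⟩
  obtain ⟨b, hb, h1⟩ := hu i (by omega)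
  obtain ⟨a', ha'⟩ := Int.dvd_of_emod_eq_zero ha
  set kk := ((i : ℤ) - n - e).toNat with hkk
  obtain ⟨r, hr⟩ := Nat.exists_eq_add_of_le (show i - e ≤ n + kk by omega)
  refine ⟨7 ^ r * a' * b, mul_mem (mul_mem (pow_mem (ofNat_mem 7) r) (int_mem a')) hb, ?_⟩
  rw [ha']
  push_cast
  have : (7 : K) ^ n * (7 ^ kk * a' * X i) = 7 ^ (n + kk) * (a' * X i) := by rw [_root_.pow_add]; ring
  rw [this, hr, _root_.pow_add]
  linear_combination 7 ^ r * a' * h1

theorem LX_mem {X : ℤ → K} (h : Cl X) {e : ℕ} (he : e ≤ 1) (hu : UpE X e) (n : ℕ) :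
    ∀ (p : List ℤ) (m : ℤ), -6 ≤ m → dq (m - n - e) p = true → 7 ^ n * LX X p m ∈ SS
  | [], m, _, _ => by rw [LX, mul_zero]; exact zero_mem _
  | a :: l, m, hm, hd => by
    rw [dq, Bool.and_eq_true, beq_iff_eq] at hd
    have h2 := LX_mem h he hu n l (m + 1) (by omega) (by
      have := hd.2
      rw [show m - n - e + 1 = m + 1 - n - e by ring] at this
      exact this)
    rw [LX, mul_add]
    refine add_mem ?_ h2
    rcases le_or_gt m 0 with h0 | h0
    · exact mul_mem (pow_mem (ofNat_mem 7) n) (mul_mem (int_mem a) (h.low m hm h0))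
    · obtain ⟨b, hb, h3⟩ := term_up he hu n m a (by omega) hd.1
      rw [h3]; exact mul_mem ss_mem hb

theorem LX_J {X : ℤ → K} (h : Cl X) {e : ℕ} (he : e ≤ 1) (hu : UpE X e) (n : ℕ) (hn : 1 ≤ n) :
    ∀ (p : List ℤ) (m : ℤ), -6 ≤ m → dq (m - n - e) p = true → inJ (7 ^ n * LX X p m)
  | [], m, _, _ => by rw [LX, mul_zero]; exact inJ_zero
  | a :: l, m, hm, hd => by
    rw [dq, Bool.and_eq_true, beq_iff_eq] at hd
    have h2 := LX_J h he hu n hn l (m + 1) (by omega) (by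
      have := hd.2
      rw [show m - n - e + 1 = m + 1 - n - e by ring] at this
      exact this)
    rw [LX, mul_add]
    refine inJ.add ?_ h2
    rcases le_or_gt m 0 with h0 | h0
    · obtain ⟨k, rfl⟩ := Nat.exists_eq_add_of_le hn
      refine ⟨7 ^ k * (a * X m), mul_mem (pow_mem (ofNat_mem 7) k) (mul_mem (int_mem a) (h.low m hm h0)),
        0, zero_mem _, ?_⟩
      rw [_root_.pow_add, pow_one]; ring
    · obtain ⟨b, hb, h3⟩ := term_up he hu n m a (by omega) hd.1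
      rw [h3]; exact inJ_ss hb

theorem LX_cst {X : ℤ → K} {e : ℕ} (he : e ≤ 1) (hu : UpE X e) (cf : ℤ → ℤ)
    (hcf : ∀ m : ℤ, -6 ≤ m → m ≤ 0 → inJ (X m - cf m)) :
    ∀ (p : List ℤ) (m : ℤ), -6 ≤ m → dq (m - e) p = true → inJ (LX X p m - cst cf p m)
  | [], m, _, _ => by rw [LX, cst]; simpa using inJ_zero
  | a :: l, m, hm, hd => by
    rw [dq, Bool.and_eq_true, beq_iff_eq] at hd
    have h2 := LX_cst he hu cf hcf l (m + 1) (by omega) (by
      have := hd.2
      rw [show m - e + 1 = m + 1 - e by ring] at this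
      exact this)
    rw [LX, cst]
    have e1 : (a : K) * X m + LX X l (m + 1) - (((if m ≤ 0 then a * cf m else 0) + cst cf l (m + 1) : ℤ) : K)
        = (a * X m - ((if m ≤ 0 then a * cf m else 0 : ℤ) : K)) + (LX X l (m + 1) - cst cf l (m + 1)) := by
      push_cast; ring
    rw [e1]
    refine inJ.add ?_ h2
    split_ifs with h0
    · have := (hcf m hm h0).mulS (int_mem a)
      have e2 : (a : K) * X m - ((a * cf m : ℤ) : K) = a * (X m - cf m) := by push_cast; ring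
      rw [e2]; exact this
    · obtain ⟨b, hb, h3⟩ := term_up he hu 0 m a (by omega) (by simpa using hd.1)
      rw [pow_zero, one_mul] at h3
      rw [h3]
      simpa using inJ_ss hb

/-- check for divisibility by `7` -/
def chk7 (b7 : ℤ → Bool) : List ℤ → ℤ → Bool
  | [], _ => true
  | a :: l, m => (if m ≤ 0 then (a % 7 == 0 || b7 m) else (a % (7 ^ (m + 1).toNat : ℤ) == 0))
      && chk7 b7 l (m + 1)

theorem LX_7 {X : ℤ → K} (h : Cl X) (hu : UpE X 0) (b7 : ℤ → Bool)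
    (hb7 : ∀ m : ℤ, -6 ≤ m → m ≤ 0 → b7 m = true → in7 (X m)) :
    ∀ (p : List ℤ) (m : ℤ), -6 ≤ m → chk7 b7 p m = true → in7 (LX X p m)
  | [], m, _, _ => by rw [LX]; exact in7_zero
  | a :: l, m, hm, hd => by
    rw [chk7, Bool.and_eq_true] at hd
    have h2 := LX_7 h hu b7 hb7 l (m + 1) (by omega) hd.2
    rw [LX]
    refine in7.add ?_ h2
    have h1 := hd.1
    split_ifs at h1 with h0
    · rw [Bool.or_eq_true, beq_iff_eq] at h1
      rcases h1 with h1 | h1
      · obtain ⟨c, hc⟩ := Int.dvd_of_emod_eq_zero h1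
        refine ⟨c * X m, mul_mem (int_mem c) (h.low m hm h0), ?_⟩
        rw [hc]; push_cast; ring
      · exact (hb7 m hm h0 h1).mulS (int_mem a)
    · rw [beq_iff_eq] at h1
      obtain ⟨c, hc⟩ := Int.dvd_of_emod_eq_zero h1
      obtain ⟨i, hi⟩ : ∃ i : ℕ, m = i := ⟨m.toNat, by omega⟩
      subst hi
      obtain ⟨b, hb, h3⟩ := hu i (by omega)
      refine ⟨c * (ss * b), mul_mem (int_mem c) (mul_mem ss_mem hb), ?_⟩
      rw [hc, show ((i : ℤ) + 1).toNat = i + 1 by omega]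
      rw [Nat.sub_zero] at h3
      push_cast
      rw [pow_succ]
      linear_combination 7 * c * h3

end

end Pool.Agent.V5helper40.FR
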