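import Pool.Agent.V5helper40.FR.LatB

/-!
# The two operators in coordinates
-/

set_option autoImplicit false

namespace Pool.Agent.V5helper40.FR

open HahnSeries

noncomputable section

/-! ### the classes -/

theorem cg_ne (k : ℕ) : cg k ≠ 0 := by
  have h1 := AA_ne
  have h2 := thh_ne
  match k with
  | 0 => exact zpow_ne_zero _ h1
  | 1 => exact mul_ne_zero h2 (zpow_ne_zero _ h1)
  | 2 => exact mul_ne_zero (pow_ne_zero _ h2) (zpow_ne_zero _ h1)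
  | _ + 3 => exact zpow_ne_zero _ h1

theorem ch_ne (k : ℕ) : ch k ≠ 0 := by
  have h1 := AA_ne
  have h2 := thh_ne
  match k with
  | 0 => exact zpow_ne_zero _ h1
  | 1 => exact mul_ne_zero h2 (zpow_ne_zero _ h1)
  | 2 => exact mul_ne_zero (pow_ne_zero _ h2) (zpow_ne_zero _ h1)
  | _ + 3 => exact zpow_ne_zero _ h1

theorem ev_tail (T : List ℤ) (hT : T.headD 0 = 0) : ev tt T = tt * ev tt T.tail := by
  cases T with
  | nil => simp [ev_nil]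
  | cons a l =>
    simp only [List.headD_cons] at hT
    subst hT
    rw [ev_cons, List.tail_cons]; simp

theorem tab_ev {X : K} {T : List ℤ} (hT : T.headD 0 = 0) (h : tt * X = ev tt T) :
    X = ev tt T.tail := by
  rw [ev_tail T hT] at h
  exact mul_left_cancel₀ tt_ne h

theorem tab_J {X : K} {T : List ℤ} (hT : T.headD 0 = 0) (hd : dv 0 T.tail = true)
    (h : tt * X = ev tt T) : inJ (X - (T.tail.headD 0 : ℤ)) := by
  rw [tab_ev hT h]
  cases hl : T.tail with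
  | nil => simpa [ev_nil] using inJ_zero
  | cons a l =>
    rw [hl] at hd
    obtain ⟨y, hy, h2⟩ := dv_head a l hd
    rw [h2, List.headD_cons]
    simpa using inJ_ss hy

theorem tab_mem {X : K} {T : List ℤ} (hT : T.headD 0 = 0) (hd : dv 0 T.tail = true)
    (h : tt * X = ev tt T) : X ∈ SS := by
  rw [tab_ev hT h]
  obtain ⟨y, hy, h2⟩ := dv_mem 0 _ hd
  rw [h2]; simpa using hy

theorem tab_7 {X : K} {T : List ℤ} (hT : T.headD 0 = 0) (hd : dv 1 T.tail = true)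
    (h : tt * X = ev tt T) : in7 X := by
  rw [tab_ev hT h]
  obtain ⟨y, hy, h2⟩ := dv_mem 1 _ hd
  exact ⟨y, hy, by rw [h2, pow_one]⟩

theorem cTG : ∀ k : ℕ, k < 4 → ∀ i : ℕ, i < 7 → ((TG k i).headD 0 = 0 ∧ dv 0 (TG k i).tail = true) := by
  decide +kernel

theorem cTH : ∀ k : ℕ, k < 4 → ∀ i : ℕ, i < 7 → ((TH k i).headD 0 = 0 ∧ dv 0 (TH k i).tail = true) := by
  decide +kernel

/-- constants -/
def cfG (k : ℕ) (m : ℤ) : ℤ := (TG k (m + 6).toNat).tail.headD 0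
def cfH (k : ℕ) (m : ℤ) : ℤ := (TH k (m + 6).toNat).tail.headD 0
/-- divisibility by 7 -/
def b7H (k : ℕ) (m : ℤ) : Bool := dv 1 (TH k (m + 6).toNat).tail

theorem tabG' (h : Rels) (hM : MM) (k : ℕ) (m : ℤ) (hk : k < 4) (h1 : -6 ≤ m) (h2 : m ≤ 0) :
    tt * Xf (cg k) m = ev tt (TG k (m + 6).toNat) ∧ (m + 6).toNat < 7 := by
  have h3 : (m + 6).toNat < 7 := by omega
  have := tabG h hM k (m + 6).toNat hk h3
  rw [show -6 + (((m + 6).toNat : ℕ) : ℤ) = m by omega] at this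
  exact ⟨this, h3⟩

theorem tabH' (h : Rels) (hM : MM) (k : ℕ) (m : ℤ) (hk : k < 4) (h1 : -6 ≤ m) (h2 : m ≤ 0) :
    tt * Xf (ch k) m = ev tt (TH k (m + 6).toNat) ∧ (m + 6).toNat < 7 := by
  have h3 : (m + 6).toNat < 7 := by omega
  have := tabH h hM k (m + 6).toNat hk h3
  rw [show -6 + (((m + 6).toNat : ℕ) : ℤ) = m by omega] at this
  exact ⟨this, h3⟩

theorem clG (h : Rels) (hM : MM) (k : ℕ) (hk : k < 4) : Cl (Xf (cg k)) where
  recu n := Xf_rec hM _ n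
  low m h1 h2 := by
    obtain ⟨h3, h4⟩ := tabG' h hM k m hk h1 h2
    obtain ⟨c1, c2⟩ := cTG k hk _ h4
    exact tab_mem c1 c2 h3

theorem clH (h : Rels) (hM : MM) (k : ℕ) (hk : k < 4) : Cl (Xf (ch k)) where
  recu n := Xf_rec hM _ n
  low m h1 h2 := by
    obtain ⟨h3, h4⟩ := tabH' h hM k m hk h1 h2
    obtain ⟨c1, c2⟩ := cTH k hk _ h4
    exact tab_mem c1 c2 h3

theorem cfG_ok (h : Rels) (hM : MM) (k : ℕ) (hk : k < 4) (m : ℤ) (h1 : -6 ≤ m) (h2 : m ≤ 0) :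
    inJ (Xf (cg k) m - cfG k m) := by
  obtain ⟨h3, h4⟩ := tabG' h hM k m hk h1 h2
  obtain ⟨c1, c2⟩ := cTG k hk _ h4
  exact tab_J c1 c2 h3

theorem cfH_ok (h : Rels) (hM : MM) (k : ℕ) (hk : k < 4) (m : ℤ) (h1 : -6 ≤ m) (h2 : m ≤ 0) :
    inJ (Xf (ch k) m - cfH k m) := by
  obtain ⟨h3, h4⟩ := tabH' h hM k m hk h1 h2
  obtain ⟨c1, c2⟩ := cTH k hk _ h4
  exact tab_J c1 c2 h3

theorem b7H_ok (h : Rels) (hM : MM) (k : ℕ) (hk : k < 4) (m : ℤ) (h1 : -6 ≤ m) (h2 : m ≤ 0)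
    (hb : b7H k m = true) : in7 (Xf (ch k) m) := by
  obtain ⟨h3, h4⟩ := tabH' h hM k m hk h1 h2
  obtain ⟨c1, c2⟩ := cTH k hk _ h4
  exact tab_7 c1 hb h3

/-- the exponent `e` of the class `g_k` -/
def eg (k : ℕ) : ℕ := if k = 0 then 1 else 0

theorem eg_le (k : ℕ) : eg k ≤ 1 := by unfold eg; split_ifs <;> omega

theorem cX1 : ((Tg0 8).headD 0 = 0 ∧ (Tg0 8).tail.headD 0 = 0 ∧ dv 1 (Tg0 8).tail.tail = true) := by
  decide +kernel

theorem upG (h : Rels) (hM : MM) (k : ℕ) (hk : k < 4) : UpE (Xf (cg k)) (eg k) := by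
  refine (clG h hM k hk).up_gen (eg k) (eg_le k) ?_
  intro he
  have hk0 : k = 0 := by
    unfold eg at he
    by_contra hne
    rw [if_neg hne] at he
    omega
  subst hk0
  have h1 := tg0 hM 8 (by norm_num)
  rw [show (-7 + ((8 : ℕ) : ℤ)) = 1 by norm_num] at h1
  obtain ⟨c1, c2, c3⟩ := cX1
  have h2 := tab_ev c1 h1
  obtain ⟨y, hy, h3⟩ := dv_mem 1 _ c3
  refine ⟨y, hy, ?_⟩
  show Xf (AA ^ (0 : ℤ)) 1 = ss * y
  rw [h2, ev_tail _ c2, h3, ss]; ring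

theorem upH (h : Rels) (hM : MM) (k : ℕ) (hk : k < 4) : UpE (Xf (ch k)) 0 :=
  (clH h hM k hk).up_gen 0 (by norm_num) (by norm_num)

/-! ### checks of the matrices -/

theorem kQ1 : ∀ j : ℕ, j < 4 → ∀ k : ℕ, k < 4 → dq (-3 - eg k) (pQ j k) = true := by decide +kernel
theorem kQ2 : ∀ k : ℕ, k < 4 → dq (-2 - eg k) (pQ 0 k) = true := by decide +kernel
theorem kP1 : ∀ i : ℕ, i < 4 → ∀ j : ℕ, j < 4 → dq (-6) (pP i j) = true := by decide +kernel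
theorem kP2 : ∀ i : ℕ, i < 4 → ∀ j : ℕ, j < 4 → dq (-5) (pP i j) = true := by decide +kernel
theorem kP3 : ∀ i : ℕ, i < 4 → i ≠ 2 → ∀ j : ℕ, j < 4 → j ≠ 0 → chk7 (b7H j) (pP i j) (-6) = true := by
  decide +kernel
theorem kJ1 : ∀ j : ℕ, j < 4 → cst (cfG 2) (pQ j 2) (-3) % 7 = 0 := by decide +kernel
theorem kJ2 : cst (cfG 2) (pQ 0 2) (-2) % 7 = 0 := by decide +kernel

/-- the unit `x'` -/
def xu : ℤ := cst (cfG 0) (pQ 0 0) (-3) * cst (cfH 0) (pP 0 0) (-6)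
  + cst (cfG 1) (pQ 0 1) (-3) * cst (cfH 0) (pP 1 0) (-6)
  + cst (cfG 2) (pQ 0 2) (-3) * cst (cfH 0) (pP 2 0) (-6)
  + cst (cfG 3) (pQ 0 3) (-3) * cst (cfH 0) (pP 3 0) (-6)

theorem kx : xu % 7 ≠ 0 := by decide +kernel
theorem kc : cst (cfH 0) (pP 0 0) (-6) % 7 ≠ 0 := by decide +kernel

/-! ### the operators -/

/-- `U(f c)/c` -/
def Xc (c f : K) : K := U (f * c) / c

theorem Xc_add (c f g : K) : Xc c (f + g) = Xc c f + Xc c g := by
  rw [Xc, Xc, Xc, add_mul, U_add, add_div]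

theorem Xc_C (c : K) (r : ℂ) (f : K) : Xc c (C r * f) = C r * Xc c f := by
  rw [Xc, Xc, mul_assoc, U_C_mul, mul_div_assoc]

theorem Xc_int (c : K) (r : ℤ) (f : K) : Xc c (r * f) = r * Xc c f := by
  rw [Xc, Xc, mul_assoc, U_intCast_mul, mul_div_assoc]

theorem Xc_zero (c : K) : Xc c 0 = 0 := by rw [Xc, zero_mul, U_zero, zero_div]

theorem Xc_LX (c : K) : ∀ (p : List ℤ) (m : ℤ), Xc c (tt ^ m * ev tt p) = LX (Xf c) p m
  | [], m => by rw [ev_nil, mul_zero, Xc_zero, LX]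
  | a :: l, m => by
    have ht := tt_ne
    have e1 : tt ^ m * ev tt (a :: l) = a * tt ^ m + tt ^ (m + 1) * ev tt l := by
      rw [ev_cons, zpow_add₀ ht, zpow_one]; ring
    rw [e1, Xc_add, Xc_int, Xc_LX c l (m + 1), LX]
    rfl

/-- the entry with its denominators -/
def uu (s : ℕ) (N : ℤ) (p : List ℤ) : K := (tt ^ s * N)⁻¹ * ev tt p

theorem Xc_mono (c : K) (s d n : ℕ) (N : ℤ) (hN : N ≠ 0) (p : List ℤ) (r : ℂ) :
    Xc c (C r * ss ^ n * (tt ^ d * uu s N p)) =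
      C (r * (N : ℂ)⁻¹) * (7 ^ n * LX (Xf c) p ((n : ℤ) + (d - s))) := by
  have ht := tt_ne
  have hN' : (N : K) ≠ 0 := by exact_mod_cast hN
  have e1 : C r * ss ^ n * (tt ^ d * uu s N p) =
      C (r * (N : ℂ)⁻¹ * 7 ^ n) * (tt ^ ((n : ℤ) + (d - s)) * ev tt p) := by
    rw [uu, ss, map_mul, map_mul, map_pow, map_inv₀, map_intCast, map_ofNat, zpow_add₀ ht,
      zpow_sub₀ ht, zpow_natCast, zpow_natCast, zpow_natCast, mul_pow]
    field_simp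
  rw [e1, Xc_C, Xc_LX]
  rw [map_mul, map_pow, map_ofNat]
  ring

theorem Xc_SS {c : K} (hc : Cl (Xf c)) {e : ℕ} (he : e ≤ 1) (hu : UpE (Xf c) e) (s d : ℕ)
    (hs : s ≤ 6) (N : ℤ) (hN : ¬ (7 : ℤ) ∣ N) (p : List ℤ) (hd : dq ((d : ℤ) - s - e) p = true)
    {f : K} (hf : f ∈ SS) : Xc c (f * (tt ^ d * uu s N p)) ∈ SS := by
  have hN0 : N ≠ 0 := fun h => hN (h ▸ dvd_zero _)
  refine SS_induct (P := fun f => Xc c (f * (tt ^ d * uu s N p)) ∈ SS) ?_ ?_ hf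
  · intro f g h1 h2
    rw [add_mul, Xc_add]
    exact add_mem h1 h2
  · intro n r hr
    rw [Xc_mono c s d n N hN0 p r]
    refine mul_mem (C_mem (mul_mem hr (R7_inv hN))) ?_
    refine LX_mem hc he hu n p _ (by omega) ?_
    rw [show (n : ℤ) + (d - s) - n - e = (d : ℤ) - s - e by ring]
    exact hd

theorem Xc_J {c : K} (hc : Cl (Xf c)) {e : ℕ} (he : e ≤ 1) (hu : UpE (Xf c) e) (s d : ℕ)
    (hs : s ≤ 6) (N : ℤ) (hN : ¬ (7 : ℤ) ∣ N) (p : List ℤ) (hd : dq ((d : ℤ) - s - e) p = true)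
    (cf : ℤ → ℤ) (hcf : ∀ m : ℤ, -6 ≤ m → m ≤ 0 → inJ (Xf c m - cf m))
    (h7 : cst cf p ((d : ℤ) - s) % 7 = 0)
    {f : K} (hf : f ∈ SS) : inJ (Xc c (f * (tt ^ d * uu s N p))) := by
  have hN0 : N ≠ 0 := fun h => hN (h ▸ dvd_zero _)
  refine SS_induct (P := fun f => inJ (Xc c (f * (tt ^ d * uu s N p)))) ?_ ?_ hf
  · intro f g h1 h2
    rw [add_mul, Xc_add]
    exact inJ.add h1 h2
  · intro n r hr
    rw [Xc_mono c s d n N hN0 p r]
    refine inJ.mulS ?_ (C_mem (mul_mem hr (R7_inv hN)))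
    rcases Nat.eq_zero_or_pos n with rfl | hn
    · have h1 := LX_cst he hu cf hcf p ((d : ℤ) - s) (by omega) hd
      obtain ⟨b, hb⟩ := Int.dvd_of_emod_eq_zero h7
      have h2 : inJ (((cst cf p ((d : ℤ) - s) : ℤ)) : K) :=
        ⟨b, int_mem b, 0, zero_mem _, by rw [hb]; push_cast; ring⟩
      have h3 := h1.add h2
      rw [sub_add_cancel] at h3
      rw [pow_zero, one_mul]
      have e1 : (((0 : ℕ) : ℤ) + ((d : ℤ) - s)) = (d : ℤ) - s := by push_cast; ring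
      rw [e1]
      exact h3
    · refine LX_J hc he hu n hn p _ (by omega) ?_
      rw [show (n : ℤ) + (d - s) - n - e = (d : ℤ) - s - e by ring]
      exact hd

end

end Pool.Agent.V5helper40.FR
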