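import Pool.Agent.V5helper40.FR.LatC

/-!
# The lattice argument
-/

set_option autoImplicit false

namespace Pool.Agent.V5helper40.FR

open HahnSeries

noncomputable section

abbrev Q4 := Fin 4 → K

def V1 (q : Q4) : Q4 := fun k => ∑ j : Fin 4, Xc (cg k) (q j * uu 3 2880 (pQ j k))
def V2 (q : Q4) : Q4 := fun j => ∑ i : Fin 4, Xc (ch j) (q i * uu 6 1920 (pP i j))
def VV (q : Q4) : Q4 := V2 (V1 q)

theorem V1_add (p q : Q4) : V1 (p + q) = V1 p + V1 q := by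
  funext k
  simp only [V1, Pi.add_apply, add_mul, Xc_add, Finset.sum_add_distrib]

theorem V2_add (p q : Q4) : V2 (p + q) = V2 p + V2 q := by
  funext k
  simp only [V2, Pi.add_apply, add_mul, Xc_add, Finset.sum_add_distrib]

theorem V1_smul (a : ℤ) (q : Q4) : V1 ((a : K) • q) = (a : K) • V1 q := by
  funext k
  simp only [V1, Pi.smul_apply, smul_eq_mul, mul_assoc, Xc_int, Finset.mul_sum]

theorem V2_smul (a : ℤ) (q : Q4) : V2 ((a : K) • q) = (a : K) • V2 q := by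
  funext k
  simp only [V2, Pi.smul_apply, smul_eq_mul, mul_assoc, Xc_int, Finset.mul_sum]

theorem VV_add (p q : Q4) : VV (p + q) = VV p + VV q := by
  rw [VV, V1_add, V2_add]; rfl

theorem VV_smul (a : ℤ) (q : Q4) : VV ((a : K) • q) = (a : K) • VV q := by
  rw [VV, V1_smul, V2_smul]; rfl

/-- the lattices -/
def LN (q : Q4) : Prop := inM (q 0) ∧ ∀ j : Fin 4, j ≠ 0 → q j ∈ SS
def LW (q : Q4) : Prop := q 0 ∈ SS ∧ ∀ j : Fin 4, j ≠ 0 → in7 (q j)
def LT (q : Q4) : Prop := (∀ k : Fin 4, q k ∈ SS) ∧ inJ (q 2)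
def LM (q : Q4) : Prop := ∀ k : Fin 4, inM (q k)

theorem LW.mem {q : Q4} (h : LW q) (j : Fin 4) : q j ∈ SS := by
  by_cases hj : j = 0
  · subst hj; exact h.1
  · exact (h.2 j hj).mem

theorem n2880 : ¬ (7 : ℤ) ∣ 2880 := by norm_num
theorem n1920 : ¬ (7 : ℤ) ∣ 1920 := by norm_num

theorem Xg (h : Rels) (hM : MM) (j k : Fin 4) {f : K} (hf : f ∈ SS) :
    Xc (cg k) (f * uu 3 2880 (pQ j k)) ∈ SS := by
  have := Xc_SS (clG h hM k k.2) (eg_le k) (upG h hM k k.2) 3 0 (by norm_num) 2880 n2880 (pQ j k)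
    (by simpa using kQ1 j j.2 k k.2) hf
  simpa using this

theorem Xgt (h : Rels) (hM : MM) (k : Fin 4) {f : K} (hf : f ∈ SS) :
    Xc (cg k) (tt * f * uu 3 2880 (pQ 0 k)) ∈ SS := by
  have := Xc_SS (clG h hM k k.2) (eg_le k) (upG h hM k k.2) 3 1 (by norm_num) 2880 n2880 (pQ 0 k)
    (by
      have := kQ2 k k.2
      rw [show ((1 : ℕ) : ℤ) - ((3 : ℕ) : ℤ) = -2 by norm_num]
      exact this) hf
  rw [show tt * f * uu 3 2880 (pQ 0 k) = f * (tt ^ 1 * uu 3 2880 (pQ 0 k)) by ring]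
  exact this

theorem XgJ (h : Rels) (hM : MM) (j : Fin 4) {f : K} (hf : f ∈ SS) :
    inJ (Xc (cg 2) (f * uu 3 2880 (pQ j 2))) := by
  have := Xc_J (clG h hM 2 (by norm_num)) (eg_le 2) (upG h hM 2 (by norm_num)) 3 0 (by norm_num)
    2880 n2880 (pQ j 2) (by simpa using kQ1 j j.2 2 (by norm_num)) (cfG 2)
    (cfG_ok h hM 2 (by norm_num)) (by simpa using kJ1 j j.2) hf
  simpa using this

theorem XgtJ (h : Rels) (hM : MM) {f : K} (hf : f ∈ SS) :
    inJ (Xc (cg 2) (tt * f * uu 3 2880 (pQ 0 2))) := by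
  have := Xc_J (clG h hM 2 (by norm_num)) (eg_le 2) (upG h hM 2 (by norm_num)) 3 1 (by norm_num)
    2880 n2880 (pQ 0 2) (by
      have := kQ2 2 (by norm_num)
      rw [show ((1 : ℕ) : ℤ) - ((3 : ℕ) : ℤ) = -2 by norm_num]
      exact this) (cfG 2)
    (cfG_ok h hM 2 (by norm_num)) (by
      rw [show ((1 : ℕ) : ℤ) - ((3 : ℕ) : ℤ) = -2 by norm_num]; exact kJ2) hf
  rw [show tt * f * uu 3 2880 (pQ 0 2) = f * (tt ^ 1 * uu 3 2880 (pQ 0 2)) by ring]
  exact this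

theorem Xh (h : Rels) (hM : MM) (i j : Fin 4) {f : K} (hf : f ∈ SS) :
    Xc (ch j) (f * uu 6 1920 (pP i j)) ∈ SS := by
  have := Xc_SS (clH h hM j j.2) (by norm_num) (upH h hM j j.2) 6 0 (by norm_num) 1920 n1920
    (pP i j) (by simpa using kP1 i i.2 j j.2) hf
  simpa using this

theorem Xht (h : Rels) (hM : MM) (i j : Fin 4) {f : K} (hf : f ∈ SS) :
    Xc (ch j) (tt * f * uu 6 1920 (pP i j)) ∈ SS := by
  have := Xc_SS (clH h hM j j.2) (by norm_num) (upH h hM j j.2) 6 1 (by norm_num) 1920 n1920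
    (pP i j) (by
      rw [show ((1 : ℕ) : ℤ) - ((6 : ℕ) : ℤ) - ((0 : ℕ) : ℤ) = -5 by norm_num]
      exact kP2 i i.2 j j.2) hf
  rw [show tt * f * uu 6 1920 (pP i j) = f * (tt ^ 1 * uu 6 1920 (pP i j)) by ring]
  exact this

/-- `V1` maps the lattice `N` to `T`. -/
theorem V1_T (h : Rels) (hM : MM) {q : Q4} (hq : LN q) : LT (V1 q) := by
  obtain ⟨a, ha, b, hb, h0⟩ := hq.1
  constructor
  · intro k
    refine sum_mem (fun j _ => ?_)
    by_cases hj : j = 0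
    · subst hj
      rw [h0, add_mul, Xc_add]
      exact add_mem (Xg h hM 0 k ha) (Xgt h hM k hb)
    · exact Xg h hM j k (hq.2 j hj)
  · have key : ∀ j : Fin 4, inJ (Xc (cg 2) (q j * uu 3 2880 (pQ j 2))) := by
      intro j
      by_cases hj : j = 0
      · subst hj
        rw [h0, add_mul, Xc_add]
        exact inJ.add (XgJ h hM 0 ha) (XgtJ h hM hb)
      · exact XgJ h hM j (hq.2 j hj)
    show inJ (∑ j : Fin 4, Xc (cg 2) (q j * uu 3 2880 (pQ j 2)))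
    rw [Fin.sum_univ_four]
    exact (((key 0).add (key 1)).add (key 2)).add (key 3)

theorem V2_mem (h : Rels) (hM : MM) {q : Q4} (hq : LM q) (j : Fin 4) : V2 q j ∈ SS := by
  refine sum_mem (fun i _ => ?_)
  obtain ⟨a, ha, b, hb, h0⟩ := hq i
  rw [h0, add_mul, Xc_add]
  exact add_mem (Xh h hM i j ha) (Xht h hM i j hb)

/-- the normalised entry -/
theorem uu_zero (s : ℕ) (N : ℤ) (hN : N ≠ 0) (p : List ℤ) (c : K) :
    Xc c (uu s N p) = C ((N : ℂ)⁻¹) * LX (Xf c) p (-s) := by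
  have := Xc_mono c s 0 0 N hN p 1
  simp only [map_one, pow_zero, one_mul, mul_one] at this
  rw [this]
  congr 2
  push_cast; ring

theorem C_inv_mul (N : ℤ) (hN : N ≠ 0) (f : K) : (N : K) * (C ((N : ℂ)⁻¹) * f) = f := by
  have hN' : (N : K) ≠ 0 := by exact_mod_cast hN
  rw [map_inv₀, map_intCast]
  field_simp

theorem X7 (h : Rels) (hM : MM) (i j : Fin 4) (hi : i ≠ 2) (hj : j ≠ 0) :
    in7 (Xc (ch j) (uu 6 1920 (pP i j))) := by
  rw [uu_zero 6 1920 (by norm_num)]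
  refine in7.mulS ?_ (C_mem (R7_inv n1920))
  refine LX_7 (clH h hM j j.2) (upH h hM j j.2) (b7H j) (b7H_ok h hM j j.2) _ _ (by norm_num) ?_
  exact kP3 i i.2 (fun h => hi (Fin.ext h)) j j.2 (fun h => hj (Fin.ext h))

theorem inJ_split {f : K} (hf : f ∈ SS) : ∃ a : ℤ, ∃ g, inM g ∧ f = a + 7 * g := by
  obtain ⟨a, ha⟩ := exists_int hf
  obtain ⟨g, hg, h⟩ := inJ_iff.1 ha
  exact ⟨a, g, hg, by linear_combination h⟩

/-- the vector with all entries `0` except one -/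
def ev1 (i : Fin 4) : Q4 := fun k => if k = i then 1 else 0

theorem V2_ev1 (i j : Fin 4) : V2 (ev1 i) j = Xc (ch j) (uu 6 1920 (pP i j)) := by
  rw [V2, Finset.sum_eq_single i]
  · simp [ev1]
  · intro b _ hb
    rw [ev1, if_neg hb, zero_mul, Xc_zero]
  · simp

theorem V1_ev1 (j k : Fin 4) : V1 (ev1 j) k = Xc (cg k) (uu 3 2880 (pQ j k)) := by
  rw [V1, Finset.sum_eq_single j]
  · simp [ev1]
  · intro b _ hb
    rw [ev1, if_neg hb, zero_mul, Xc_zero]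
  · simp

theorem ext4 {p q : Q4} (h0 : p 0 = q 0) (h1 : p 1 = q 1) (h2 : p 2 = q 2) (h3 : p 3 = q 3) :
    p = q := by
  funext k
  fin_cases k
  · exact h0
  · exact h1
  · exact h2
  · exact h3

/-- `V2` maps `T` to `W`. -/
theorem V2_W (h : Rels) (hM : MM) {q : Q4} (hq : LT q) : LW (V2 q) := by
  have hLM : LM q := fun k => inM_of_mem (hq.1 k)
  refine ⟨V2_mem h hM hLM 0, ?_⟩
  intro j hj
  obtain ⟨a0, g0, hg0, e0⟩ := inJ_split (hq.1 0)
  obtain ⟨a1, g1, hg1, e1⟩ := inJ_split (hq.1 1)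
  obtain ⟨g2, hg2, e2⟩ := inJ_iff.1 hq.2
  obtain ⟨a3, g3, hg3, e3⟩ := inJ_split (hq.1 3)
  have hsplit : q = (a0 : K) • ev1 0 + ((a1 : K) • ev1 1 + ((a3 : K) • ev1 3
      + ((7 : ℤ) : K) • ![g0, g1, g2, g3])) := by
    apply ext4 <;> simp only [Pi.add_apply, Pi.smul_apply, smul_eq_mul, ev1] <;>
      simp [e0, e1, e2, e3]
  rw [hsplit, V2_add, V2_add, V2_add, V2_smul, V2_smul, V2_smul, V2_smul]
  simp only [Pi.add_apply, Pi.smul_apply, smul_eq_mul, V2_ev1]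
  refine in7.add ?_ (in7.add ?_ (in7.add ?_ ?_))
  · exact (X7 h hM 0 j (by decide) hj).mulS (int_mem a0)
  · exact (X7 h hM 1 j (by decide) hj).mulS (int_mem a1)
  · exact (X7 h hM 3 j (by decide) hj).mulS (int_mem a3)
  · refine ⟨V2 ![g0, g1, g2, g3] j, V2_mem h hM ?_ j, by push_cast; ring⟩
    intro k
    fin_cases k
    · exact hg0
    · exact hg1
    · exact hg2
    · exact hg3

theorem VV_W (h : Rels) (hM : MM) {q : Q4} (hq : LN q) : LW (VV q) := V2_W h hM (V1_T h hM hq)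

theorem LW.LN {q : Q4} (h : LW q) : LN q := ⟨inM_of_mem h.1, fun j hj => (h.2 j hj).mem⟩

/-! ### units -/

/-- units modulo `(7, s)` -/
def isU (f : K) : Prop := ∃ a : ℤ, ¬ (7 : ℤ) ∣ a ∧ inJ (f - a)

theorem prime7 : Prime (7 : ℤ) := Int.prime_iff_natAbs_prime.2 (by norm_num)

theorem inv7 {N : ℤ} (hN : ¬ (7 : ℤ) ∣ N) : ∃ u v : ℤ, u * N + v * 7 = 1 := by
  have hcop : IsCoprime N 7 := by
    rw [isCoprime_comm, Prime.coprime_iff_not_dvd prime7]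
    exact hN
  exact hcop

theorem isU_of {f : K} (hf : f ∈ SS) {N a : ℤ} (hN : ¬ (7 : ℤ) ∣ N) (ha : ¬ (7 : ℤ) ∣ a)
    (h : inJ (N * f - a)) : isU f := by
  obtain ⟨u, v, huv⟩ := inv7 hN
  refine ⟨u * a, ?_, ?_⟩
  · intro hd
    rcases prime7.dvd_or_dvd hd with hd | hd
    · have : (7 : ℤ) ∣ 1 := by
        rw [← huv]
        exact dvd_add (Dvd.dvd.mul_right hd N) (Dvd.intro_left v rfl)
      norm_num at this
    · exact ha hd
  · have e1 : f - ((u * a : ℤ) : K) = v * f * 7 + u * (N * f - a) := by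
      have : (u : K) * N + v * 7 = 1 := by exact_mod_cast congrArg (Int.cast : ℤ → K) huv
      push_cast
      linear_combination (-1 : K) * f * this
    rw [e1]
    refine inJ.add ⟨v * f, mul_mem (int_mem v) hf, 0, zero_mem _, by ring⟩ (h.mulS (int_mem u))

theorem isU.mul_int {f : K} (hf : isU f) {a : ℤ} (ha : ¬ (7 : ℤ) ∣ a) : isU (a * f) := by
  obtain ⟨b, hb, h⟩ := hf
  refine ⟨a * b, fun hd => (prime7.dvd_or_dvd hd).elim ha hb, ?_⟩
  have : (a : K) * f - ((a * b : ℤ) : K) = a * (f - b) := by push_cast; ring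
  rw [this]
  exact h.mulS (int_mem a)

theorem isU.add_J {f g : K} (hf : isU f) (hg : inJ g) : isU (f + g) := by
  obtain ⟨b, hb, h⟩ := hf
  refine ⟨b, hb, ?_⟩
  have : f + g - (b : K) = (f - b) + g := by ring
  rw [this]
  exact h.add hg

theorem Xh_cst (h : Rels) (hM : MM) (i : Fin 4) :
    inJ (1920 * Xc (ch 0) (uu 6 1920 (pP i 0)) - ((cst (cfH 0) (pP i 0) (-6) : ℤ) : K)) := by
  have e1 := uu_zero 6 1920 (by norm_num) (pP i 0) (ch 0)
  have e2 := C_inv_mul 1920 (by norm_num) (LX (Xf (ch 0)) (pP i 0) (-((6 : ℕ) : ℤ)))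
  rw [← e1] at e2
  push_cast at e2
  rw [e2]
  have := LX_cst (e := 0) (by norm_num) (upH h hM 0 (by norm_num)) (cfH 0)
    (cfH_ok h hM 0 (by norm_num)) (pP i 0) (-6) (by norm_num) (by simpa using kP1 i i.2 0 (by norm_num))
  exact this

theorem Xg_cst (h : Rels) (hM : MM) (k : Fin 4) :
    inJ (2880 * Xc (cg k) (uu 3 2880 (pQ 0 k)) - ((cst (cfG k) (pQ 0 k) (-3) : ℤ) : K)) := by
  have e1 := uu_zero 3 2880 (by norm_num) (pQ 0 k) (cg k)
  have e2 := C_inv_mul 2880 (by norm_num) (LX (Xf (cg k)) (pQ 0 k) (-((3 : ℕ) : ℤ)))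
  rw [← e1] at e2
  push_cast at e2
  rw [e2]
  have := LX_cst (e := eg k) (eg_le k) (upG h hM k k.2) (cfG k)
    (cfG_ok h hM k k.2) (pQ 0 k) (-3) (by norm_num) (by simpa using kQ1 0 (by norm_num) k k.2)
  exact this

theorem int_not_dvd {a : ℤ} (h : a % 7 ≠ 0) : ¬ (7 : ℤ) ∣ a := fun hd => h (Int.emod_eq_zero_of_dvd hd)

/-- the first vector -/
def u1 : Q4 := V2 (ev1 0)

theorem ev1_T : LT (ev1 0) := by
  constructor
  · intro k
    fin_cases k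
    · simp [ev1, one_mem]
    · simp [ev1, zero_mem]
    · simp [ev1, zero_mem]
    · simp [ev1, zero_mem]
  · simpa [ev1] using inJ_zero

theorem ev1_N : LN (ev1 0) := by
  refine ⟨inM_of_mem (ev1_T.1 0), fun j _ => ev1_T.1 j⟩

theorem u1_W (h : Rels) (hM : MM) : LW u1 := V2_W h hM ev1_T

theorem u1_U (h : Rels) (hM : MM) : isU (u1 0) := by
  refine isU_of ((u1_W h hM).mem 0) n1920 (int_not_dvd kc) ?_
  have := Xh_cst h hM 0
  rw [u1, V2_ev1]
  push_cast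
  exact this

theorem V_ev_U (h : Rels) (hM : MM) : isU (VV (ev1 0) 0) := by
  have hmem : VV (ev1 0) 0 ∈ SS := (VV_W h hM ev1_N).mem 0
  obtain ⟨g0, hg0, (e0 : 2880 * Xc (cg 0) (uu 3 2880 (pQ 0 0))
    - ((cst (cfG 0) (pQ 0 0) (-3) : ℤ) : K) = 7 * g0)⟩ := inJ_iff.1 (Xg_cst h hM 0)
  obtain ⟨g1, hg1, (e1 : 2880 * Xc (cg 1) (uu 3 2880 (pQ 0 1))
    - ((cst (cfG 1) (pQ 0 1) (-3) : ℤ) : K) = 7 * g1)⟩ := inJ_iff.1 (Xg_cst h hM 1)
  obtain ⟨g2, hg2, (e2 : 2880 * Xc (cg 2) (uu 3 2880 (pQ 0 2))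
    - ((cst (cfG 2) (pQ 0 2) (-3) : ℤ) : K) = 7 * g2)⟩ := inJ_iff.1 (Xg_cst h hM 2)
  obtain ⟨g3, hg3, (e3 : 2880 * Xc (cg 3) (uu 3 2880 (pQ 0 3))
    - ((cst (cfG 3) (pQ 0 3) (-3) : ℤ) : K) = 7 * g3)⟩ := inJ_iff.1 (Xg_cst h hM 3)
  generalize hc0 : cst (cfG 0) (pQ 0 0) (-3) = c0 at *
  generalize hc1 : cst (cfG 1) (pQ 0 1) (-3) = c1 at *
  generalize hc2 : cst (cfG 2) (pQ 0 2) (-3) = c2 at *
  generalize hc3 : cst (cfG 3) (pQ 0 3) (-3) = c3 at *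
  have hsplit : ((2880 : ℤ) : K) • V1 (ev1 0) = (c0 : K) • ev1 0 + ((c1 : K) • ev1 1
      + ((c2 : K) • ev1 2 + ((c3 : K) • ev1 3 + ((7 : ℤ) : K) • ![g0, g1, g2, g3]))) := by
    apply ext4 <;> simp only [Pi.add_apply, Pi.smul_apply, smul_eq_mul, ev1, V1_ev1]
    · simp
      linear_combination e0
    · simp
      linear_combination e1
    · simp
      linear_combination e2
    · simp
      linear_combination e3
  have hV : ((2880 : ℤ) : K) • VV (ev1 0) = (c0 : K) • V2 (ev1 0) + ((c1 : K) • V2 (ev1 1)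
      + ((c2 : K) • V2 (ev1 2) + ((c3 : K) • V2 (ev1 3) + ((7 : ℤ) : K) • V2 ![g0, g1, g2, g3]))) := by
    rw [VV, ← V2_smul, hsplit, V2_add, V2_add, V2_add, V2_add, V2_smul, V2_smul, V2_smul, V2_smul,
      V2_smul]
  have hV0 : ((2880 : ℤ) : K) * VV (ev1 0) 0 =
      c0 * Xc (ch 0) (uu 6 1920 (pP 0 0)) + (c1 * Xc (ch 0) (uu 6 1920 (pP 1 0))
      + (c2 * Xc (ch 0) (uu 6 1920 (pP 2 0)) + (c3 * Xc (ch 0) (uu 6 1920 (pP 3 0))
      + ((7 : ℤ) : K) * V2 ![g0, g1, g2, g3] 0))) := by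
    have := congrFun hV 0
    simp only [Pi.smul_apply, smul_eq_mul, V2_ev1, Pi.add_apply] at this
    exact this
  have hx : xu = c0 * cst (cfH 0) (pP 0 0) (-6) + c1 * cst (cfH 0) (pP 1 0) (-6)
      + c2 * cst (cfH 0) (pP 2 0) (-6) + c3 * cst (cfH 0) (pP 3 0) (-6) := by
    rw [← hc0, ← hc1, ← hc2, ← hc3]; rfl
  refine isU_of (N := 2880 * 1920) (a := xu) hmem (by norm_num) (int_not_dvd kx) ?_
  have hg : V2 ![g0, g1, g2, g3] 0 ∈ SS := by
    refine V2_mem h hM ?_ 0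
    intro k
    fin_cases k
    · exact hg0
    · exact hg1
    · exact hg2
    · exact hg3
  have f0 : inJ ((c0 : K) * (1920 * Xc (ch 0) (uu 6 1920 (pP 0 0))
      - ((cst (cfH 0) (pP 0 0) (-6) : ℤ) : K))) := (Xh_cst h hM 0).mulS (int_mem c0)
  have f1 : inJ ((c1 : K) * (1920 * Xc (ch 0) (uu 6 1920 (pP 1 0))
      - ((cst (cfH 0) (pP 1 0) (-6) : ℤ) : K))) := (Xh_cst h hM 1).mulS (int_mem c1)
  have f2 : inJ ((c2 : K) * (1920 * Xc (ch 0) (uu 6 1920 (pP 2 0))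
      - ((cst (cfH 0) (pP 2 0) (-6) : ℤ) : K))) := (Xh_cst h hM 2).mulS (int_mem c2)
  have f3 : inJ ((c3 : K) * (1920 * Xc (ch 0) (uu 6 1920 (pP 3 0))
      - ((cst (cfH 0) (pP 3 0) (-6) : ℤ) : K))) := (Xh_cst h hM 3).mulS (int_mem c3)
  have f4 : inJ (7 * (1920 * V2 ![g0, g1, g2, g3] 0)) :=
    ⟨_, mul_mem (ofNat_mem 1920) hg, 0, zero_mem _, by ring⟩
  have hs := (((f0.add f1).add f2).add f3).add f4
  have e5 : (((2880 * 1920 : ℤ)) : K) * VV (ev1 0) 0 - (xu : K)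
      = (c0 : K) * (1920 * Xc (ch 0) (uu 6 1920 (pP 0 0)) - ((cst (cfH 0) (pP 0 0) (-6) : ℤ) : K))
      + (c1 : K) * (1920 * Xc (ch 0) (uu 6 1920 (pP 1 0)) - ((cst (cfH 0) (pP 1 0) (-6) : ℤ) : K))
      + (c2 : K) * (1920 * Xc (ch 0) (uu 6 1920 (pP 2 0)) - ((cst (cfH 0) (pP 2 0) (-6) : ℤ) : K))
      + (c3 : K) * (1920 * Xc (ch 0) (uu 6 1920 (pP 3 0)) - ((cst (cfH 0) (pP 3 0) (-6) : ℤ) : K))
      + 7 * (1920 * V2 ![g0, g1, g2, g3] 0) := by
    rw [show (((2880 * 1920 : ℤ)) : K) * VV (ev1 0) 0 = 1920 * (((2880 : ℤ) : K) * VV (ev1 0) 0) by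
      push_cast; ring, hV0, hx]
    push_cast
    ring
  rw [e5]
  exact hs

/-- `V` preserves the vectors in `W` whose `0`-th coordinate is a unit. -/
theorem VV_U (h : Rels) (hM : MM) {q : Q4} (hq : LW q) (hu : isU (q 0)) : isU (VV q 0) := by
  obtain ⟨a, ha, hJ⟩ := hu
  obtain ⟨g0, hg0, e0⟩ := inJ_iff.1 hJ
  obtain ⟨g1, hg1, e1⟩ := hq.2 1 (by decide)
  obtain ⟨g2, hg2, e2⟩ := hq.2 2 (by decide)
  obtain ⟨g3, hg3, e3⟩ := hq.2 3 (by decide)
  have hsplit : q = (a : K) • ev1 0 + ((7 : ℤ) : K) • ![g0, g1, g2, g3] := by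
    apply ext4 <;> simp only [Pi.add_apply, Pi.smul_apply, smul_eq_mul, ev1]
    · simp
      linear_combination e0
    · simp [e1]
    · simp [e2]
    · simp [e3]
  rw [hsplit, VV_add, VV_smul, VV_smul]
  simp only [Pi.smul_apply, smul_eq_mul, Pi.add_apply]
  refine isU.add_J ((V_ev_U h hM).mul_int ha) ?_
  refine ⟨VV ![g0, g1, g2, g3] 0, ?_, 0, zero_mem _, by push_cast; ring⟩
  refine (VV_W h hM ?_).mem 0
  refine ⟨hg0, ?_⟩
  intro j hj
  fin_cases j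
  · exact absurd rfl hj
  · exact hg1
  · exact hg2
  · exact hg3

/-- Two vectors of `W` are proportional modulo `7 N`. -/
theorem comb {p q : Q4} (hp : LW p) (hq : LW q) (hu : isU (q 0)) :
    ∃ y : ℤ, ∃ g : Q4, LN g ∧ p = (y : K) • q + ((7 : ℤ) : K) • g := by
  obtain ⟨a, ha, hJ⟩ := hu
  obtain ⟨b, hb⟩ := exists_int hp.1
  obtain ⟨u, v, huv⟩ := inv7 ha
  -- y = u b
  have e1 : inJ (p 0 - ((u * b : ℤ) : K) * q 0) := by
    have : p 0 - ((u * b : ℤ) : K) * q 0 = (p 0 - b) - ((u * b : ℤ) : K) * (q 0 - a)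
        + 7 * ((v * b : ℤ) : K) := by
      have h1 : (u : K) * a + v * 7 = 1 := by exact_mod_cast congrArg (Int.cast : ℤ → K) huv
      push_cast
      linear_combination (-1 : K) * b * h1
    rw [this]
    exact (hb.sub (hJ.mulS (int_mem _))).add ⟨_, int_mem (v * b), 0, zero_mem _, by ring⟩
  obtain ⟨g0, hg0, e0⟩ := inJ_iff.1 e1
  have key : ∀ j : Fin 4, j ≠ 0 → ∃ g ∈ SS, p j - ((u * b : ℤ) : K) * q j = 7 * g := by
    intro j hj
    exact (hp.2 j hj).add (((hq.2 j hj).mulS (int_mem (u * b))).neg) |> fun ⟨a, ha, h⟩ =>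
      ⟨a, ha, by rw [← h]; ring⟩
  obtain ⟨g1, hg1, e1⟩ := key 1 (by decide)
  obtain ⟨g2, hg2, e2⟩ := key 2 (by decide)
  obtain ⟨g3, hg3, e3⟩ := key 3 (by decide)
  refine ⟨u * b, ![g0, g1, g2, g3], ⟨hg0, ?_⟩, ?_⟩
  · intro j hj
    fin_cases j
    · exact absurd rfl hj
    · exact hg1
    · exact hg2
    · exact hg3
  · funext k
    fin_cases k
    · show p 0 = ((u * b : ℤ) : K) * q 0 + ((7 : ℤ) : K) * g0
      push_cast at e0 ⊢
      linear_combination e0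
    · show p 1 = ((u * b : ℤ) : K) * q 1 + ((7 : ℤ) : K) * g1
      push_cast at e1 ⊢
      linear_combination e1
    · show p 2 = ((u * b : ℤ) : K) * q 2 + ((7 : ℤ) : K) * g2
      push_cast at e2 ⊢
      linear_combination e2
    · show p 3 = ((u * b : ℤ) : K) * q 3 + ((7 : ℤ) : K) * g3
      push_cast at e3 ⊢
      linear_combination e3

/-- the vectors `V^j u₁` -/
def uv : ℕ → Q4
  | 0 => u1
  | n + 1 => VV (uv n)

theorem uv_WU (h : Rels) (hM : MM) (n : ℕ) : LW (uv n) ∧ isU (uv n 0) := by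
  induction n with
  | zero => exact ⟨u1_W h hM, u1_U h hM⟩
  | succ n ih => exact ⟨VV_W h hM ih.1.LN, VV_U h hM ih.1 ih.2⟩

/-- **The congruence in coordinates.** -/
theorem uv_cong (h : Rels) (hM : MM) (n : ℕ) : ∃ x : ℤ, ∃ g : Q4, LN g ∧
    uv (n + 1) = (x : K) • uv n + ((7 ^ (n + 1) : ℤ) : K) • g := by
  induction n with
  | zero =>
    obtain ⟨y, g, hg, e⟩ := comb (uv_WU h hM 1).1 (uv_WU h hM 0).1 (uv_WU h hM 0).2
    refine ⟨y, g, hg, ?_⟩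
    rw [zero_add, pow_one]
    exact e
  | succ n ih =>
    obtain ⟨x, g, hg, e⟩ := ih
    have h1 : uv (n + 2) = (x : K) • uv (n + 1) + ((7 ^ (n + 1) : ℤ) : K) • VV g := by
      show VV (uv (n + 1)) = (x : K) • VV (uv n) + _
      conv_lhs => rw [e]
      rw [VV_add, VV_smul, VV_smul]
    obtain ⟨y, g', hg', e'⟩ := comb (VV_W h hM hg) (uv_WU h hM (n + 1)).1 (uv_WU h hM (n + 1)).2
    refine ⟨x + 7 ^ (n + 1) * y, g', hg', ?_⟩
    rw [h1, e']
    funext k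
    simp only [Pi.add_apply, Pi.smul_apply, smul_eq_mul]
    push_cast
    ring

end

end Pool.Agent.V5helper40.FR
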