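import Pool.Agent.V5helper40.FR.LatD

/-!
# From the coordinates to the series
-/

set_option autoImplicit false

namespace Pool.Agent.V5helper40.FR

open HahnSeries

noncomputable section

theorem cg_ee (h : Rels) (k : Fin 4) : cg k = ee k := by
  have h1 := dd_ne h
  have h2 := thh_ne
  have h3 := AA_dd h
  fin_cases k
  · show AA ^ (0 : ℤ) = 1
    simp
  · show thh * AA ^ (-1 : ℤ) = dd / thh ^ 2
    rw [zpow_neg_one, h3]; field_simp
  · show thh ^ 2 * AA ^ (-2 : ℤ) = dd ^ 2 / thh ^ 4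
    rw [zpow_neg, h3, show (2 : ℤ) = ((2 : ℕ) : ℤ) from rfl, zpow_natCast]; field_simp
  · show AA ^ (-2 : ℤ) = dd ^ 2 / thh ^ 6
    rw [zpow_neg, h3, show (2 : ℤ) = ((2 : ℕ) : ℤ) from rfl, zpow_natCast]; field_simp

theorem ch_ee (h : Rels) (k : Fin 4) : ch k = AA⁻¹ * ee k := by
  have hA := AA_ne
  rw [← cg_ee h k]
  fin_cases k
  · show AA ^ (-1 : ℤ) = AA⁻¹ * AA ^ (0 : ℤ)
    simp
  · show thh * AA ^ (-2 : ℤ) = AA⁻¹ * (thh * AA ^ (-1 : ℤ))
    rw [zpow_neg, zpow_neg_one, show (2 : ℤ) = ((2 : ℕ) : ℤ) from rfl, zpow_natCast]; field_simp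
  · show thh ^ 2 * AA ^ (-3 : ℤ) = AA⁻¹ * (thh ^ 2 * AA ^ (-2 : ℤ))
    rw [zpow_neg, zpow_neg, show (2 : ℤ) = ((2 : ℕ) : ℤ) from rfl, zpow_natCast,
      show (3 : ℤ) = ((3 : ℕ) : ℤ) from rfl, zpow_natCast]; field_simp
  · show AA ^ (-3 : ℤ) = AA⁻¹ * AA ^ (-2 : ℤ)
    rw [zpow_neg, zpow_neg, show (2 : ℤ) = ((2 : ℕ) : ℤ) from rfl, zpow_natCast,
      show (3 : ℤ) = ((3 : ℕ) : ℤ) from rfl, zpow_natCast]; field_simp

/-- the two families of series -/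
def PhH (β : ℤ) (q : Q4) : K := ∑ j : Fin 4, q j * (cb β * ch j * fT (sg β) j)
def PhG (β : ℤ) (q : Q4) : K := ∑ k : Fin 4, q k * (cg k * fG β k)

theorem PhH_add (β : ℤ) (p q : Q4) : PhH β (p + q) = PhH β p + PhH β q := by
  simp only [PhH, Pi.add_apply, add_mul, Finset.sum_add_distrib]

theorem PhH_smul (β : ℤ) (a : K) (q : Q4) : PhH β (a • q) = a * PhH β q := by
  simp only [PhH, Pi.smul_apply, smul_eq_mul, mul_assoc, Finset.mul_sum]

theorem U_Xc {c : K} (hc : c ≠ 0) (f : K) : U (f * c) = Xc c f * c := by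
  rw [Xc, div_mul_cancel₀ _ hc]

theorem RR_sum (p : ℕ → ℕ → List ℤ) (s : ℕ) (N ep : ℤ) (f : ℕ → K) (i : ℕ) :
    RR p s N ep f i = ww s N ep * (ee i)⁻¹ * ∑ j : Fin 4, ee j * ev tt (p i j) * psi (f j) := by
  rw [RR, Fin.sum_univ_four]; rfl

theorem U_PhG (h : Rels) (h1 : JobT1) (h3 : JobT3) (h4 : JobT4) (hL : JobL) (β : ℤ) (hβ : 0 ≤ β)
    (hβ3 : β ≤ 3) (q : Q4) : U (PhG β q) = PhH β (V2 q) := by
  obtain ⟨-, -, hc, -⟩ := hL h h1 h3 h4
  have key : ∀ i : Fin 4, U (q i * (cg i * fG β i)) =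
      ∑ j : Fin 4, Xc (ch j) (q i * uu 6 1920 (pP i j)) * (cb β * ch j * fT (sg β) j) := by
    intro i
    have e1 : q i * (cg i * fG β i) = ∑ j : Fin 4,
        ((cb β : K) * ((q i * uu 6 1920 (pP i j)) * ch j)) * psi (fT (sg β) j) := by
      rw [hc β hβ hβ3 i i.2, RR_sum, Finset.mul_sum, Finset.mul_sum, Finset.mul_sum, Finset.mul_sum]
      refine Finset.sum_congr rfl (fun j _ => ?_)
      have he := ee_ne h i i.2
      rw [cg_ee h i, ch_ee h j, ww, uu, zpow_neg_one]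
      field_simp
    rw [e1, U_sum]
    refine Finset.sum_congr rfl (fun j _ => ?_)
    rw [U_mul_psi, U_intCast_mul, U_Xc (ch_ne j)]
    ring
  rw [PhG, U_sum, Finset.sum_congr rfl (fun i _ => key i), Finset.sum_comm, PhH]
  refine Finset.sum_congr rfl (fun j _ => ?_)
  rw [V2, Finset.sum_mul]

theorem U_PhH (h : Rels) (h1 : JobT1) (h3 : JobT3) (h4 : JobT4) (hL : JobL) (β : ℤ) (hβ : 0 ≤ β)
    (hβ3 : β ≤ 3) (q : Q4) : U (PhH β q) = PhG β (V1 q) := by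
  obtain ⟨-, -, -, hd⟩ := hL h h1 h3 h4
  have key : ∀ j : Fin 4, U (q j * (cb β * ch j * fT (sg β) j)) =
      ∑ k : Fin 4, Xc (cg k) (q j * uu 3 2880 (pQ j k)) * (cg k * fG β k) := by
    intro j
    have e1 : q j * (cb β * ch j * fT (sg β) j) = ∑ k : Fin 4,
        ((q j * uu 3 2880 (pQ j k)) * cg k) * psi (fG β k) := by
      have e2 : q j * (cb β * ch j * fT (sg β) j) = q j * ch j * (cb β * fT (sg β) j) := by ring
      rw [e2, hd β hβ hβ3 j j.2, RR_sum, Finset.mul_sum, Finset.mul_sum]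
      refine Finset.sum_congr rfl (fun k _ => ?_)
      have he := ee_ne h j j.2
      have hA := AA_ne
      rw [ch_ee h j, cg_ee h k, ww, uu, zpow_one]
      field_simp
    rw [e1, U_sum]
    refine Finset.sum_congr rfl (fun k _ => ?_)
    rw [U_mul_psi, U_Xc (cg_ne k)]
    ring
  rw [PhH, U_sum, Finset.sum_congr rfl (fun i _ => key i), Finset.sum_comm, PhG]
  refine Finset.sum_congr rfl (fun j _ => ?_)
  rw [V1, Finset.sum_mul]

theorem PhG_ev (β : ℤ) : PhG β (ev1 0) = G β := by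
  rw [PhG, Finset.sum_eq_single 0]
  · show (if (0 : Fin 4) = 0 then (1 : K) else 0) * (AA ^ (0 : ℤ) * G β) = G β
    simp
  · intro b _ hb
    rw [ev1, if_neg hb, zero_mul]
  · simp

/-- iterates of `U` -/
def Ui : ℕ → K → K
  | 0, f => f
  | n + 1, f => U (Ui n f)

theorem Ui_coeff (k : ℕ) : ∀ (f : K) (m : ℤ), (Ui k f).coeff m = f.coeff (7 ^ k * m) := by
  induction k with
  | zero => intro f m; simp [Ui]
  | succ k ih =>
    intro f m
    show (U (Ui k f)).coeff m = _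
    rw [U_coeff, ih]
    congr 1
    ring

theorem Ui_G (h : Rels) (h1 : JobT1) (h3 : JobT3) (h4 : JobT4) (hL : JobL) (β : ℤ) (hβ : 0 ≤ β)
    (hβ3 : β ≤ 3) (n : ℕ) : Ui (2 * n + 1) (G β) = PhH β (uv n) := by
  induction n with
  | zero =>
    show U (G β) = PhH β u1
    rw [← PhG_ev β, U_PhG h h1 h3 h4 hL β hβ hβ3]
    rfl
  | succ n ih =>
    show U (U (Ui (2 * n + 1) (G β))) = PhH β (VV (uv n))
    rw [ih, U_PhH h h1 h3 h4 hL β hβ hβ3, U_PhG h h1 h3 h4 hL β hβ hβ3]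
    rfl

/-! ### integrality -/

/-- Laurent series with coefficients in `ℤ₍₇₎` -/
def IK : Subring K where
  carrier := {f | ∀ n, f.coeff n ∈ R7}
  zero_mem' := fun n => by rw [HahnSeries.coeff_zero]; exact zero_mem _
  one_mem' := fun n => by
    rw [HahnSeries.coeff_one]; split_ifs
    · exact one_mem _
    · exact zero_mem _
  add_mem' := fun {a b} ha hb n => by rw [HahnSeries.coeff_add]; exact add_mem (ha n) (hb n)
  mul_mem' := fun {a b} ha hb n => by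
    rw [HahnSeries.coeff_mul]
    exact sum_mem (fun i _ => mul_mem (ha _) (hb _))
  neg_mem' := fun {a} ha n => by rw [HahnSeries.coeff_neg]; exact neg_mem (ha n)

theorem IK_C {r : ℂ} (hr : r ∈ R7) : (C r : K) ∈ IK := by
  intro n
  rw [HahnSeries.C_apply, HahnSeries.coeff_single]
  split_ifs
  · exact hr
  · exact zero_mem _

theorem IK_dl {f : K} (hf : f ∈ IK) : dl f ∈ IK := by
  intro n
  rw [dl_coeff]
  exact mul_mem (R7_int n) (hf n)

/-- power series with coefficients in `ℤ₍₇₎` -/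
def IP : Subring (PowerSeries ℂ) := (PowerSeries.map R7.subtype).range

theorem IP_iff (p : PowerSeries ℂ) : p ∈ IP ↔ ∀ n, p.coeff n ∈ R7 := by
  constructor
  · rintro ⟨p', rfl⟩ n
    rw [PowerSeries.coeff_map]
    exact (p'.coeff n).2
  · intro h
    refine ⟨PowerSeries.mk fun n => ⟨p.coeff n, h n⟩, ?_⟩
    ext n
    rw [PowerSeries.coeff_map, PowerSeries.coeff_mk]
    rfl

theorem IP_inv {p : PowerSeries ℂ} (hp : p ∈ IP) (hc : PowerSeries.constantCoeff p = 1) :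
    p⁻¹ ∈ IP := by
  obtain ⟨p', rfl⟩ := hp
  have h1 : PowerSeries.constantCoeff p' = 1 := by
    have h2 : R7.subtype (PowerSeries.constantCoeff p') = 1 := by
      rw [← hc, ← PowerSeries.coeff_zero_eq_constantCoeff_apply,
        ← PowerSeries.coeff_zero_eq_constantCoeff_apply, PowerSeries.coeff_map]
    exact Subtype.ext h2
  have h2 : p' * PowerSeries.invOfUnit p' 1 = 1 :=
    PowerSeries.mul_invOfUnit p' 1 (by rw [h1]; rfl)
  refine ⟨PowerSeries.invOfUnit p' 1, ?_⟩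
  have h3 := congrArg (PowerSeries.map R7.subtype) h2
  rw [map_mul, map_one] at h3
  rw [PowerSeries.eq_inv_iff_mul_eq_one (by rw [hc]; exact one_ne_zero), mul_comm]
  exact h3

theorem IP_subq {p : PowerSeries ℂ} (m : ℕ) (hp : p ∈ IP) : subq m p ∈ IP := by
  rw [IP_iff] at hp ⊢
  intro n
  rw [subq, PowerSeries.coeff_mk]
  split_ifs
  · exact hp _
  · exact zero_mem _

theorem IP_C {r : ℂ} (hr : r ∈ R7) : (PowerSeries.C r) ∈ IP := by
  rw [IP_iff]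
  intro n
  rw [PowerSeries.coeff_C]
  split_ifs
  · exact hr
  · exact zero_mem _

theorem IK_ofP {p : PowerSeries ℂ} (hp : p ∈ IP) : ofP p ∈ IK := by
  rw [IP_iff] at hp
  intro n
  rcases lt_or_ge n 0 with hn | hn
  · rw [ofP_coeff_neg p n hn]; exact zero_mem _
  · obtain ⟨m, rfl⟩ := Int.eq_ofNat_of_zero_le hn
    rw [ofP_coeff]
    exact hp m

theorem IK_ofQ {p : PowerSeries ℂ} (hp : p ∈ IP) : ofQ p ∈ IK := by
  rw [ofQ_eq]
  exact IK_ofP (IP_subq 24 hp)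

theorem PE_IP : PE ∈ IP := by
  rw [IP_iff]
  intro n
  show (eulerProd ℂ).coeff n ∈ R7
  rw [eulerProd, PowerSeries.coeff_mk]
  have h : (∏ j ∈ Finset.range n, (1 - (PowerSeries.X : PowerSeries ℂ) ^ (j + 1))) ∈ IP := by
    refine prod_mem (fun j _ => sub_mem (one_mem _) (pow_mem ?_ _))
    exact ⟨PowerSeries.X, by rw [PowerSeries.map_X]⟩
  exact (IP_iff _).1 h n

theorem eta_IK : eta ∈ IK := by
  refine mul_mem ?_ (IK_ofQ PE_IP)
  intro n
  rw [xx, HahnSeries.coeff_single]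
  split_ifs
  · exact one_mem _
  · exact zero_mem _

theorem X_IP : (PowerSeries.X : PowerSeries ℂ) ∈ IP := ⟨PowerSeries.X, by rw [PowerSeries.map_X]⟩

theorem tt_IK : tt ∈ IK := by
  rw [tt_eq]
  refine IK_ofQ (mul_mem X_IP (pow_mem (mul_mem (IP_subq 7 PE_IP) (IP_inv PE_IP PE_const)) 4))

theorem aP_IP : aP ∈ IP := mul_mem (pow_mem PE_IP 7) (IP_inv (IP_subq 7 PE_IP) P7_const)

theorem AAinv_IK : AA⁻¹ ∈ IK := by
  rw [AA_eq, ← ofQ_inv (by rw [aP_const]; exact one_ne_zero)]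
  exact IK_ofQ (IP_inv aP_IP aP_const)

theorem AAz_IK (n : ℕ) : AA ^ (-(n : ℤ)) ∈ IK := by
  rw [zpow_neg, zpow_natCast, ← inv_pow]
  exact pow_mem AAinv_IK n

open Pool.Agent.R322.QD in
theorem e2_IP : e2 ∈ IP := by
  rw [IP_iff]
  intro n
  rw [coeff_e2]
  split_ifs
  · exact one_mem _
  · have h := R7_int (-24 * ((ArithmeticFunction.sigma 1 n : ℕ) : ℤ))
    push_cast at h
    exact h

open Pool.Agent.R322.QD in
theorem e4_IP : e4 ∈ IP := by
  rw [IP_iff]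
  intro n
  rw [coeff_e4]
  split_ifs
  · exact one_mem _
  · have h := R7_int (240 * ((ArithmeticFunction.sigma 3 n : ℕ) : ℤ))
    push_cast at h
    exact h

theorem E2_IK : E2 ∈ IK := IK_ofQ e2_IP

theorem ofNat_IP (n : ℕ) [n.AtLeastTwo] : (OfNat.ofNat n : PowerSeries ℂ) ∈ IP := by
  have := natCast_mem IP (OfNat.ofNat n)
  simpa using this

theorem R7_div (n : ℕ) [n.AtLeastTwo] (hn : ¬ (7 : ℤ) ∣ OfNat.ofNat n) :
    (1 / OfNat.ofNat n : ℂ) ∈ R7 := by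
  have := R7_inv hn
  simpa using this

theorem Th2_IP : Th2 ∈ IP :=
  mul_mem (IP_C (R7_div 6 (by norm_num)))
    (sub_mem (mul_mem (ofNat_IP 7) (IP_subq 7 e2_IP)) e2_IP)

theorem Y0_IP : Y0 ∈ IP := by
  refine mul_mem (IP_C (R7_div 960 (by norm_num))) (sub_mem (add_mem (mul_mem (ofNat_IP 2401)
    (IP_subq 7 e4_IP)) (mul_mem (ofNat_IP 29) e4_IP)) (mul_mem (ofNat_IP 1470) (pow_mem Th2_IP 2)))

theorem thh_IK : thh ∈ IK := by
  rw [thh, div_eq_mul_inv]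
  exact mul_mem (IK_ofQ Y0_IP) AAinv_IK

theorem thK_IK (j : ℤ) : thK j ∈ IK := by
  refine IK_ofP ?_
  rw [IP_iff]
  intro n
  rw [tht, PowerSeries.coeff_mk]
  exact natCast_mem _ _

theorem its_IK (k : ℤ) {f : K} (hf : f ∈ IK) : ∀ n, its k f n ∈ IK
  | 0 => hf
  | n + 1 => by
    have h := its_IK k hf n
    exact sub_mem (IK_dl h) (mul_mem (mul_mem (intCast_mem _ _) E2_IK) h)

theorem fT_IK (j : ℤ) (n : ℕ) : fT j n ∈ IK :=
  its_IK 5 (mul_mem (pow_mem eta_IK 4) (thK_IK j)) n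

theorem ch_IK (k : Fin 4) : ch k ∈ IK := by
  have h1 := AAz_IK 1
  have h2 := AAz_IK 2
  have h3 := AAz_IK 3
  fin_cases k
  · exact h1
  · exact mul_mem thh_IK h2
  · exact mul_mem (pow_mem thh_IK 2) h3
  · exact h3

theorem SS_IK {f : K} (hf : f ∈ SS) : f ∈ IK := by
  refine SS_induct (P := fun f => f ∈ IK) ?_ ?_ hf
  · intro f g h1 h2; exact add_mem h1 h2
  · intro n r hr
    refine mul_mem (IK_C hr) (pow_mem (mul_mem ?_ tt_IK) n)
    have := natCast_mem IK 7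
    simpa using this

theorem inM_IK {f : K} (hf : inM f) : f ∈ IK := by
  obtain ⟨a, ha, b, hb, rfl⟩ := hf
  exact add_mem (SS_IK ha) (mul_mem tt_IK (SS_IK hb))

theorem PhH_IK (β : ℤ) {q : Q4} (hq : LN q) : PhH β q ∈ IK := by
  refine sum_mem (fun j _ => mul_mem ?_ (mul_mem (mul_mem (intCast_mem _ _) (ch_IK j)) (fT_IK _ _)))
  by_cases hj : j = 0
  · subst hj; exact inM_IK hq.1
  · exact SS_IK (hq.2 j hj)

/-- the coefficients of `G` -/
theorem G_coeff (β n : ℤ) : (G β).coeff (24 * n + 12 - 2 * β ^ 2) = (cpsi 6 β n : ℂ) := by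
  show (if (24 : ℤ) ∣ (24 * n + 12 - 2 * β ^ 2) - (12 - 2 * β ^ 2) then
    (cpsi 6 β (((24 * n + 12 - 2 * β ^ 2) - (12 - 2 * β ^ 2)) / 24) : ℂ) else 0) = _
  have e : (24 * n + 12 - 2 * β ^ 2) - (12 - 2 * β ^ 2) = 24 * n := by ring
  rw [e, if_pos (Dvd.intro n rfl), Int.mul_ediv_cancel_left n (by norm_num)]

theorem dvd_of_R7 {k : ℕ} {a : ℤ} {z : ℂ} (hz : z ∈ R7) (h : (a : ℂ) = 7 ^ k * z) :
    (7 : ℤ) ^ k ∣ a := by
  obtain ⟨c, b, hb, hc⟩ := hz
  have h1 : (a * b : ℤ) = 7 ^ k * c := by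
    have : ((a * b : ℤ) : ℂ) = ((7 ^ k * c : ℤ) : ℂ) := by
      push_cast
      rw [h, ← hc]; ring
    exact_mod_cast this
  have hcop : IsCoprime ((7 : ℤ) ^ k) b := by
    apply IsCoprime.pow_left
    rw [Prime.coprime_iff_not_dvd prime7]
    exact hb
  exact hcop.dvd_of_dvd_mul_right (Dvd.intro c h1.symm)

/-- **The congruence**, from the five inputs. -/
theorem main_of (h1 : JobT1) (h2 : JobT2) (h3 : JobT3) (h4 : JobT4) (hL : JobL) (hM' : JobM)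
    (α : ℕ) (hα : 1 ≤ α) : ∃ x : ℤ, ∀ β : ℤ, 0 ≤ β → β ≤ 3 → ∀ n : ℤ,
      12 * n ≡ β ^ 2 - 6 [ZMOD 7 ^ (2 * α - 1)] →
      cpsi 6 β (49 * n + 24 - 4 * β ^ 2) ≡ x * cpsi 6 β n [ZMOD 7 ^ α] := by
  have h := rels h1 h2
  have hM := MM_of h hM'
  obtain ⟨a, rfl⟩ : ∃ a, α = a + 1 := ⟨α - 1, by omega⟩
  obtain ⟨x, g, hg, e⟩ := uv_cong h hM a
  refine ⟨x, ?_⟩
  intro β hβ hβ3 n hn
  have e1 := Ui_G h h1 h3 h4 hL β hβ hβ3 a
  have e2 := Ui_G h h1 h3 h4 hL β hβ hβ3 (a + 1)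
  rw [e, PhH_add, PhH_smul, PhH_smul, ← e1] at e2
  -- the exponent
  have hd : (7 : ℤ) ^ (2 * a + 1) ∣ 24 * n + 12 - 2 * β ^ 2 := by
    have h5 := hn.dvd
    rw [show 2 * (a + 1) - 1 = 2 * a + 1 by omega] at h5
    have h6 : 24 * n + 12 - 2 * β ^ 2 = -2 * (β ^ 2 - 6 - 12 * n) := by ring
    rw [h6]
    exact Dvd.dvd.mul_left h5 _
  obtain ⟨m, hm⟩ := hd
  have f1 : (Ui (2 * a + 1) (G β)).coeff m = (cpsi 6 β n : ℂ) := by
    rw [Ui_coeff, ← hm, G_coeff]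
  have f2 : (Ui (2 * (a + 1) + 1) (G β)).coeff m = (cpsi 6 β (49 * n + 24 - 4 * β ^ 2) : ℂ) := by
    rw [Ui_coeff, ← G_coeff]
    congr 1
    have : (7 : ℤ) ^ (2 * (a + 1) + 1) * m = 49 * (7 ^ (2 * a + 1) * m) := by ring
    rw [this, ← hm]
    ring
  have f3 := congrArg (fun f : K => f.coeff m) e2
  simp only [HahnSeries.coeff_add] at f3
  rw [f2, intCast_eq, coeff_C_mul, f1, intCast_eq, coeff_C_mul] at f3
  have hz := PhH_IK β hg m
  rw [Int.modEq_iff_dvd]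
  rw [← dvd_neg, neg_sub]
  refine dvd_of_R7 hz ?_
  push_cast
  push_cast at f3
  linear_combination f3

end

end Pool.Agent.V5helper40.FR
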