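import Mathlib

/-!
# Polynomials as lists of integers
-/

set_option autoImplicit false

namespace Pool.Agent.V5helper40.FR

/-- the value at `t` of the polynomial with coefficients `l` -/
def ev {R : Type*} [CommRing R] (t : R) : List ℤ → R
  | [] => 0
  | c :: l => (c : R) + t * ev t l

/-- sum -/
def addL : List ℤ → List ℤ → List ℤ
  | [], m => m
  | a :: l, [] => a :: l
  | a :: l, b :: m => (a + b) :: addL l m

/-- scalar multiple -/
def smulL (c : ℤ) : List ℤ → List ℤ
  | [] => []
  | a :: l => (c * a) :: smulL c l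

/-- product -/
def mulL : List ℤ → List ℤ → List ℤ
  | [], _ => []
  | a :: l, m => addL (smulL a m) (0 :: mulL l m)

/-- `t d/dt`, shifted by `k` -/
def eulA (k : ℤ) : List ℤ → List ℤ
  | [] => []
  | c :: l => (k * c) :: eulA (k + 1) l

/-- all coefficients vanish -/
def zeroL : List ℤ → Bool
  | [] => true
  | c :: l => c == 0 && zeroL l

/-- multiplication by `t^n` -/
def shL : ℕ → List ℤ → List ℤ
  | 0, l => l
  | n + 1, l => 0 :: shL n l

section
variable {R : Type*} [CommRing R] (t : R)

theorem ev_nil : ev t [] = 0 := rfl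
theorem ev_cons (c : ℤ) (l : List ℤ) : ev t (c :: l) = (c : R) + t * ev t l := rfl

theorem ev_add : ∀ l m : List ℤ, ev t (addL l m) = ev t l + ev t m
  | [], m => by rw [addL, ev_nil, zero_add]
  | a :: l, [] => by rw [addL, ev_nil, add_zero]
  | a :: l, b :: m => by
    rw [addL, ev_cons, ev_cons, ev_cons, ev_add l m]; push_cast; ring

theorem ev_smul (c : ℤ) : ∀ l : List ℤ, ev t (smulL c l) = c * ev t l
  | [] => by rw [smulL, ev_nil, mul_zero]
  | a :: l => by rw [smulL, ev_cons, ev_cons, ev_smul c l]; push_cast; ring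

theorem ev_mul : ∀ l m : List ℤ, ev t (mulL l m) = ev t l * ev t m
  | [], m => by rw [mulL, ev_nil, zero_mul]
  | a :: l, m => by
    rw [mulL, ev_add, ev_smul, ev_cons, ev_cons, ev_mul l m]; push_cast; ring

theorem ev_zero : ∀ l : List ℤ, zeroL l = true → ev t l = 0
  | [], _ => rfl
  | c :: l, h => by
    rw [zeroL, Bool.and_eq_true, beq_iff_eq] at h
    rw [ev_cons, h.1, ev_zero l h.2]; simp

theorem ev_eulA (k : ℤ) : ∀ l : List ℤ, ev t (eulA (k + 1) l) = ev t (eulA k l) + ev t l
  | [] => by simp [eulA, ev_nil]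
  | c :: l => by
    rw [eulA, eulA, ev_cons, ev_cons, ev_cons, ev_eulA (k + 1) l]; push_cast; ring

theorem ev_sh (n : ℕ) (l : List ℤ) : ev t (shL n l) = t ^ n * ev t l := by
  induction n with
  | zero => simp [shL]
  | succ n ih => rw [shL, ev_cons, ih]; push_cast; ring

end

theorem map_ev {R S : Type*} [CommRing R] [CommRing S] (g : R →+* S) (t : R) :
    ∀ l : List ℤ, g (ev t l) = ev (g t) l
  | [] => by rw [ev_nil, ev_nil, map_zero]
  | c :: l => by rw [ev_cons, ev_cons, map_add, map_mul, map_intCast, map_ev g t l]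

end Pool.Agent.V5helper40.FR
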