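import Pool.Agent.V5helper40.FR.RowsB

/-!
# The two matrices
-/

set_option autoImplicit false

namespace Pool.Agent.V5helper40.FR

/-- matrix expressing the derivatives of `G` by those of `ψ(η⁴ϑ)` -/
def pP : ℕ → ℕ → List ℤ
  | 0, 0 => [-35, -959, -10486, -55607, -134470, -65807, 204085]
  | 0, 1 => [65, 1196, 7605, 15196, -4655]
  | 0, 2 => [-25, -235, -385]
  | 0, 3 => [-5, -67, -245]
  | 1, 0 => [-385, -21910, -484120, -5607260, -37126025, -138642140, -248867080, -48572230, 350005775]
  | 1, 1 => [715, 34255, 578630, 4629495, 17772790, 24594815, -7983325]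
  | 1, 2 => [-275, -10700, -121575, -524300, -660275]
  | 1, 3 => [-55, -2360, -32655, -192080, -420175]
  | 2, 0 => [-2695, -490945, -21112665, -440519550, -5382481035, -41180181375, -198555806435, -570296348510, -788143004145, 48510800415, 1080467827425]
  | 2, 1 => [5005, 866710, 31323760, 521479660, 4778740765, 24916804780, 68635370160, 71397648630, -24644524275]
  | 2, 2 => [-1925, -316025, -9170650, -112825825, -687011850, -1992890025, -2038268925]
  | 2, 3 => [-385, -64745, -2085410, -29636425, -218899170, -831190185, -1297080225]
  | 3, 0 => [-8085, -11412135, -750415155, -20289080850, -299127073425, -2651120750265, -14428709335425, -46079534585490, -71262365809635, -3611849594535, 98322572295675]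
  | 3, 1 => [15015, 21058830, 1203843420, 26486989620, 296873621835, 1813324153620, 5696755171380, 6680259634230, -2242651709025]
  | 3, 2 => [-5775, -8047575, -390490350, -6536814375, -49258795950, -166211565975, -185482472175]
  | 3, 3 => [-1155, -1614135, -84531510, -1613261055, -14728478310, -66002853735, -118034300475]
  | _, _ => []

/-- matrix expressing the derivatives of `η⁴ϑ` by those of `ψ(G)` -/
def pQ : ℕ → ℕ → List ℤ
  | 0, 0 => [-275, -3750, -15785, -12870, 5005]
  | 0, 1 => [53, 249, 37]
  | 0, 2 => [-1]
  | 0, 3 => [-1]
  | 1, 0 => [-1925, -50275, -529990, -2729455, -6473830, -4239235, 1716715]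
  | 1, 1 => [371, 6406, 39273, 83174, 12691]
  | 1, 2 => [-7, -131, -343]
  | 1, 3 => [-7, -91, -343]
  | 2, 0 => [-5775, -686300, -18980150, -244151760, -1706790045, -6559763280, -12323334870, -6681454780, 2944166225]
  | 2, 1 => [1113, 122975, 2563358, 22500731, 92046206, 148206527, 21765065]
  | 2, 2 => [-21, -3082, -51919, -309386, -588245]
  | 2, 3 => [-21, -2282, -39151, -254506, -588245]
  | 3, 0 => [5775, -14492700, -593696850, -9636000000, -79922524875, -351822791040, -738354103410, -435063649020, 185482472175]
  | 3, 1 => [-1113, 2809665, 89784162, 1018378725, 5016673410, 9257951073, 1371199095]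
  | 3, 2 => [21, -61758, -1896153, -15976254, -37059435]
  | 3, 3 => [21, -53718, -1478673, -12806934, -37059435]
  | _, _ => []

theorem chkP : chk pP 6 (-1) 5 119 (-176) 58 3575 (-752) 58 = true := by decide +kernel

theorem chkQ : chk pQ 3 1 (-1) 3575 (-752) 58 119 (-176) 58 = true := by decide +kernel

end Pool.Agent.V5helper40.FR
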