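import Pool.Agent.V5helper40.FR.B1

/-!
# The level 7 relations: `t`, `A`, `θ`
-/

set_option autoImplicit false

namespace Pool.Agent.V5helper40.FR

open HahnSeries
open Pool.Agent.R322.QD (e2 e4 e6 th)

noncomputable section

theorem psi_xx : psi xx = xx ^ 7 := by
  rw [xx, single_pow]
  show embDomain _ (single 1 1) = _
  rw [embDomain_single]
  simp

theorem ofQ_X : ofQ PowerSeries.X = xx ^ 24 := by
  rw [xx, single_pow]
  show dil 24 (HahnSeries.ofPowerSeries ℤ ℂ PowerSeries.X) = _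
  rw [HahnSeries.ofPowerSeries_X]
  show embDomain _ (single 1 1) = _
  rw [embDomain_single]
  simp

/-- the Euler product -/
abbrev PE : PowerSeries ℂ := eulerProd ℂ

theorem PE_const : PowerSeries.constantCoeff PE = 1 := by
  rw [← PowerSeries.coeff_zero_eq_constantCoeff_apply]; exact euler_coeff_zero

theorem subq_coeff_zero (m : ℕ) (p : PowerSeries ℂ) : (subq m p).coeff 0 = p.coeff 0 := by
  rw [subq, PowerSeries.coeff_mk]; simp

theorem subq7_coeff_one (p : PowerSeries ℂ) : (subq 7 p).coeff 1 = 0 := by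
  rw [subq, PowerSeries.coeff_mk, if_neg (by norm_num)]

theorem P7_const : PowerSeries.constantCoeff (subq 7 PE) = 1 := by
  rw [← PowerSeries.coeff_zero_eq_constantCoeff_apply, subq_coeff_zero]; exact euler_coeff_zero

theorem ofQ_inv {p : PowerSeries ℂ} (h : PowerSeries.constantCoeff p ≠ 0) : ofQ p⁻¹ = (ofQ p)⁻¹ := by
  have h1 := congrArg ofQ (PowerSeries.mul_inv_cancel p h)
  rw [map_mul, map_one] at h1
  exact eq_inv_of_mul_eq_one_right h1

theorem eta_eq : eta = xx * ofQ PE := rfl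

theorem psi_eta_eq : psi eta = xx ^ 7 * ofQ (subq 7 PE) := by
  rw [eta_eq, map_mul, psi_xx, psi_ofQ]

/-- `t` as a power series in `q` -/
def tP : PowerSeries ℂ := PowerSeries.X * (subq 7 PE * PE⁻¹) ^ 4

theorem tt_eq : tt = ofQ tP := by
  have h1 := xx_ne
  have h2 : ofQ PE ≠ 0 := ofQ_ne euler_ne
  rw [tt, tP, map_mul, map_pow, map_mul, ofQ_inv (by rw [PE_const]; exact one_ne_zero), ofQ_X,
    psi_eta_eq, eta_eq]
  field_simp

/-- `A` as a power series in `q` -/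
def aP : PowerSeries ℂ := PE ^ 7 * (subq 7 PE)⁻¹

theorem AA_eq : AA = ofQ aP := by
  have h1 := xx_ne
  have h2 : ofQ PE ≠ 0 := ofQ_ne euler_ne
  have h3 : ofQ (subq 7 PE) ≠ 0 := fun h => psi_eta_ne (by rw [psi_eta_eq, h, mul_zero])
  rw [AA, aP, map_mul, map_pow, ofQ_inv (by rw [P7_const]; exact one_ne_zero), psi_eta_eq, eta_eq]
  field_simp

theorem aP_const : PowerSeries.constantCoeff aP = 1 := by
  rw [aP, map_mul, map_pow, PE_const, PowerSeries.constantCoeff_inv, P7_const]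
  simp

theorem tP_const : PowerSeries.constantCoeff tP = 0 := by
  rw [tP, map_mul, PowerSeries.constantCoeff_X, zero_mul]

theorem tP_coeff_one : tP.coeff 1 = 1 := by
  rw [tP, show (1 : ℕ) = 0 + 1 by rfl, PowerSeries.coeff_succ_X_mul,
    PowerSeries.coeff_zero_eq_constantCoeff_apply, map_pow, map_mul, P7_const,
    PowerSeries.constantCoeff_inv, PE_const]
  simp

/-! ### coefficients of the forms of weight 4 -/

open Pool.Agent.R322.QD in
theorem e2c0 : e2.coeff 0 = 1 := by rw [coeff_e2]; simp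
open Pool.Agent.R322.QD in
theorem e2c1 : e2.coeff 1 = -24 := by rw [coeff_e2]; simp
open Pool.Agent.R322.QD in
theorem e4c0 : e4.coeff 0 = 1 := by rw [coeff_e4]; simp
open Pool.Agent.R322.QD in
theorem e4c1 : e4.coeff 1 = 240 := by rw [coeff_e4]; simp

theorem coeff_ofNat_mul (n : ℕ) [n.AtLeastTwo] (p : PowerSeries ℂ) (k : ℕ) :
    ((OfNat.ofNat n : PowerSeries ℂ) * p).coeff k = OfNat.ofNat n * p.coeff k := by
  have : (OfNat.ofNat n : PowerSeries ℂ) = PowerSeries.C (OfNat.ofNat n : ℂ) :=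
    (map_ofNat (PowerSeries.C : ℂ →+* PowerSeries ℂ) n).symm
  rw [this, PowerSeries.coeff_C_mul]

theorem Th2c0 : Th2.coeff 0 = 1 := by
  rw [Th2, PowerSeries.coeff_C_mul, map_sub, coeff_ofNat_mul, subq_coeff_zero, e2c0]; norm_num

theorem Th2c1 : Th2.coeff 1 = 4 := by
  rw [Th2, PowerSeries.coeff_C_mul, map_sub, coeff_ofNat_mul, subq7_coeff_one, e2c1]; norm_num

theorem sq_c0 (p : PowerSeries ℂ) : (p ^ 2).coeff 0 = p.coeff 0 ^ 2 := by
  simp [PowerSeries.coeff_zero_eq_constantCoeff_apply]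

theorem mul_c1 (p q : PowerSeries ℂ) : (p * q).coeff 1 = p.coeff 0 * q.coeff 1 + p.coeff 1 * q.coeff 0 := by
  rw [PowerSeries.coeff_mul, Finset.Nat.antidiagonal_succ]
  simp

theorem mul_c0 (p q : PowerSeries ℂ) : (p * q).coeff 0 = p.coeff 0 * q.coeff 0 := by
  simp [PowerSeries.coeff_zero_eq_constantCoeff_apply]

theorem sq_c1 (p : PowerSeries ℂ) : (p ^ 2).coeff 1 = 2 * p.coeff 0 * p.coeff 1 := by
  rw [sq, mul_c1]; ring

theorem Y0c0 : Y0.coeff 0 = 1 := by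
  rw [Y0, PowerSeries.coeff_C_mul, map_sub, map_add, coeff_ofNat_mul, coeff_ofNat_mul,
    coeff_ofNat_mul, subq_coeff_zero, sq_c0, e4c0, Th2c0]; norm_num

theorem Y1c0 : Y1.coeff 0 = 0 := by
  rw [Y1, PowerSeries.coeff_C_mul, map_sub, map_sub, coeff_ofNat_mul, coeff_ofNat_mul,
    subq_coeff_zero, sq_c0, e4c0, Th2c0]; norm_num

theorem Y1c1 : Y1.coeff 1 = 1 := by
  rw [Y1, PowerSeries.coeff_C_mul, map_sub, map_sub, coeff_ofNat_mul, coeff_ofNat_mul,
    subq7_coeff_one, sq_c1, e4c1, Th2c0, Th2c1]; norm_num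

theorem Y0K_ne : Y0K ≠ 0 := by
  apply ofQ_ne
  intro h
  have := Y0c0
  rw [h] at this
  simp at this

theorem T2_ne : T2 ≠ 0 := by
  apply ofQ_ne
  intro h
  have := Th2c0
  rw [h] at this
  simp at this

/-! ### `τ = Y₁/Y₀` -/

def tau : K := Y1K / Y0K

theorem Y1_tau : Y1K = tau * Y0K := by
  rw [tau, div_mul_cancel₀ _ Y0K_ne]

theorem Y2_tau (h2 : JobT2) : Y2K = tau ^ 2 * Y0K := by
  have h := rel1 h2
  rw [Y1_tau] at h
  have := Y0K_ne
  apply mul_left_cancel₀ this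
  linear_combination -h

theorem T2_sq (h2 : JobT2) : T2 ^ 2 = Y0K * (1 + 13 * tau + 49 * tau ^ 2) := by
  have a := Y0K_eq
  have b := Y1K_eq
  have c := Y2K_eq
  rw [Y1_tau] at b
  rw [Y2_tau h2] at c
  linear_combination (-1 / 960) * a - (13 / 160) * b - (49 / 960) * c

theorem E4_tau (h2 : JobT2) : E4 = Y0K * (1 + 245 * tau + 2401 * tau ^ 2) := by
  have a := Y0K_eq
  have b := Y1K_eq
  have c := Y2K_eq
  rw [Y1_tau] at b
  rw [Y2_tau h2] at c
  linear_combination (-1 / 960) * a - (245 / 160) * b - (2401 / 960) * c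

theorem pE4_tau (h2 : JobT2) : psi E4 = Y0K * (1 + 5 * tau + tau ^ 2) := by
  have a := Y0K_eq
  have b := Y1K_eq
  have c := Y2K_eq
  rw [Y1_tau] at b
  rw [Y2_tau h2] at c
  linear_combination (-1 / 960) * a - (5 / 160) * b - (1 / 960) * c

theorem E6_tau (h2 : JobT2) : E6 * T2 = Y0K ^ 2 * (1 - 490 * tau - 21609 * tau ^ 2
    - 235298 * tau ^ 3 - 823543 * tau ^ 4) := by
  rw [rel2 h2, Y1_tau, Y2_tau h2]; ring

theorem pE6_tau (h2 : JobT2) : psi E6 * T2 = Y0K ^ 2 * (1 + 14 * tau + 63 * tau ^ 2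
    + 70 * tau ^ 3 - 7 * tau ^ 4) := by
  rw [rel3 h2, Y1_tau, Y2_tau h2]; ring

theorem DY0 (h1 : JobT1) (h2 : JobT2) :
    T2 * (dl Y0K - 8 * E2 * Y0K) = Y0K ^ 2 * (-8 + 392 * tau ^ 2) := by
  have a : dl (960 * Y0K) = dl (2401 * psi E4 + 29 * E4 - 1470 * T2 ^ 2) := by rw [Y0K_eq]
  rw [dl_mul, dl_ofNat, dl_sub, dl_add, dl_mul, dl_ofNat, dl_mul, dl_ofNat, dl_mul, dl_ofNat,
    dl_pow, dl_psi_E4 h1, dl_E4 h1, dl_T2 h1] at a
  push_cast at a
  have a0 := Y0K_eq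
  have e1 := T2_sq h2
  have e2 := E4_tau h2
  have e3 := pE4_tau h2
  have e4 := E6_tau h2
  have e5 := pE6_tau h2
  generalize psi E4 = x4 at *
  generalize psi E6 = x6 at *
  generalize E4 = y4 at *
  generalize E6 = y6 at *
  subst e2 e3
  simp only [pow_one] at a
  linear_combination (T2 / 960) * a - (8 * E2 * T2 / 960) * a0 + (-16807 / 120) * e5
    + (-29 / 120) * e4 + (Y0K * (3381 / 20 + 2401 / 4 * tau - 45619 / 20 * tau ^ 2)
    - 147 / 4 * (T2 ^ 2 + Y0K * (1 + 13 * tau + 49 * tau ^ 2))) * e1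

theorem DY1 (h1 : JobT1) (h2 : JobT2) :
    T2 * (dl Y1K - 8 * E2 * Y1K) = Y0K ^ 2 * (tau * (-8 + 392 * tau ^ 2)
      + 24 * tau * (1 + 13 * tau + 49 * tau ^ 2)) := by
  have a : dl (160 * Y1K) = dl (50 * T2 ^ 2 - 49 * psi E4 - E4) := by rw [Y1K_eq]
  rw [dl_mul, dl_ofNat, dl_sub, dl_sub, dl_mul, dl_ofNat, dl_mul, dl_ofNat,
    dl_pow, dl_psi_E4 h1, dl_E4 h1, dl_T2 h1] at a
  push_cast at a
  have a0 := Y1K_eq
  have e1 := T2_sq h2
  have e2 := E4_tau h2
  have e3 := pE4_tau h2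
  have e4 := E6_tau h2
  have e5 := pE6_tau h2
  generalize psi E4 = x4 at *
  generalize psi E6 = x6 at *
  generalize E4 = y4 at *
  generalize E6 = y6 at *
  subst e2 e3
  simp only [pow_one] at a
  linear_combination (T2 / 160) * a - (8 * E2 * T2 / 160) * a0 + (343 / 20) * e5
    + (1 / 20) * e4 + (Y0K * (-247 / 10 - 147 / 2 * tau + 4753 / 10 * tau ^ 2)
    + 15 / 2 * (T2 ^ 2 + Y0K * (1 + 13 * tau + 49 * tau ^ 2))) * e1

theorem dl_tau (h1 : JobT1) (h2 : JobT2) : dl tau = 24 * tau * T2 := by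
  have a := DY0 h1 h2
  have b := DY1 h1 h2
  have c := T2_sq h2
  rw [Y1_tau, dl_mul] at b
  apply mul_left_cancel₀ T2_ne
  apply mul_left_cancel₀ Y0K_ne
  linear_combination b - tau * a - 24 * tau * Y0K * c

/-- two series with the same logarithmic derivative and the same leading coefficient -/
theorem quot_const {f g : K} (hg : g ≠ 0) (h : dl f * g = f * dl g) : ∃ c : ℂ, f = C c * g := by
  have h1 : dl (f / g) = 0 := by
    rw [div_eq_mul_inv, dl_mul, dl_inv]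
    field_simp
    linear_combination h
  refine ⟨(f / g).coeff 0, ?_⟩
  rw [← dl_eq_zero h1, div_mul_cancel₀ _ hg]

theorem tau_eq (h1 : JobT1) (h2 : JobT2) : tau = tt := by
  obtain ⟨c, hc⟩ := quot_const (f := tau) tt_ne (by rw [dl_tau h1 h2, dl_tt h1]; ring)
  have e : ofQ Y1 = ofQ (PowerSeries.C c * (tP * Y0)) := by
    rw [map_mul, map_mul, ofQ_C, ← tt_eq]
    show Y1K = C c * (tt * Y0K)
    rw [Y1_tau, hc]; ring
  have e2 := congrArg (PowerSeries.coeff 1) (ofQ_injective e)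
  rw [Y1c1, PowerSeries.coeff_C_mul, mul_c1, tP_coeff_one, Y0c0,
    PowerSeries.coeff_zero_eq_constantCoeff_apply, tP_const] at e2
  have : c = 1 := by linear_combination -e2
  rw [hc, this, map_one, one_mul]

theorem AA_sq (h1 : JobT1) (h2 : JobT2) : AA ^ 2 * T2 = Y0K ^ 2 := by
  obtain ⟨c, hc⟩ := quot_const (f := AA ^ 2 * T2) (pow_ne_zero 2 Y0K_ne) (by
    rw [dl_mul, dl_pow, dl_pow, dl_AA h1, dl_T2 h1]
    have a := DY0 h1 h2
    have b := E4_tau h2
    have c := pE4_tau h2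
    apply mul_left_cancel₀ T2_ne
    rw [c, b]
    push_cast
    linear_combination (-2 * AA ^ 2 * T2 * Y0K) * a)
  have e : ofQ (aP ^ 2 * Th2) = ofQ (PowerSeries.C c * Y0 ^ 2) := by
    rw [map_mul, map_mul, map_pow, map_pow, ofQ_C, ← AA_eq]
    exact hc
  have e2 := congrArg (PowerSeries.coeff 0) (ofQ_injective e)
  rw [mul_c0, sq_c0, PowerSeries.coeff_C_mul, sq_c0, Y0c0, Th2c0,
    PowerSeries.coeff_zero_eq_constantCoeff_apply, aP_const] at e2
  have : c = 1 := by linear_combination -e2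
  rw [hc, this, map_one, one_mul]

/-- `θ = Y₀/A` -/
def thh : K := Y0K / AA

theorem thh_ne : thh ≠ 0 := div_ne_zero Y0K_ne AA_ne

theorem Y0_thh : Y0K = thh * AA := by rw [thh, div_mul_cancel₀ _ AA_ne]

/-- The relations used from now on. -/
structure Rels : Prop where
  T2e : T2 = thh ^ 2
  th3 : thh ^ 3 = AA * (1 + 13 * tt + 49 * tt ^ 2)
  E4e : E4 = thh * AA * (1 + 245 * tt + 2401 * tt ^ 2)
  pE4e : psi E4 = thh * AA * (1 + 5 * tt + tt ^ 2)
  E6e : E6 = AA ^ 2 * (1 - 490 * tt - 21609 * tt ^ 2 - 235298 * tt ^ 3 - 823543 * tt ^ 4)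
  pE6e : psi E6 = AA ^ 2 * (1 + 14 * tt + 63 * tt ^ 2 + 70 * tt ^ 3 - 7 * tt ^ 4)
  dtt : dl tt = 24 * tt * thh ^ 2
  dAA : dl AA = (6 * E2 - 6 * thh ^ 2) * AA
  dth : dl thh = 2 * E2 * thh + AA * (-2 + 78 * tt + 686 * tt ^ 2)
  pE2 : psi E2 = (E2 + 6 * thh ^ 2) / 7
  deta : dl eta = E2 * eta
  dE4 : dl E4 = 8 * (E2 * E4 - E6)
  dE6 : dl E6 = 12 * (E2 * E6 - E4 ^ 2)

theorem rels (h1 : JobT1) (h2 : JobT2) : Rels := by
  have hA := AA_ne
  have hth := thh_ne
  have k1 : T2 = thh ^ 2 := by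
    have := AA_sq h1 h2
    rw [Y0_thh] at this
    apply mul_left_cancel₀ (pow_ne_zero 2 hA)
    linear_combination this
  have k2 : thh ^ 3 = AA * (1 + 13 * tt + 49 * tt ^ 2) := by
    have := T2_sq h2
    rw [tau_eq h1 h2, Y0_thh, k1] at this
    apply mul_left_cancel₀ hth
    linear_combination this
  have k3 : E4 = thh * AA * (1 + 245 * tt + 2401 * tt ^ 2) := by
    rw [E4_tau h2, tau_eq h1 h2, Y0_thh]
  have k4 : psi E4 = thh * AA * (1 + 5 * tt + tt ^ 2) := by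
    rw [pE4_tau h2, tau_eq h1 h2, Y0_thh]
  refine ⟨k1, k2, k3, k4, ?_, ?_, ?_, ?_, ?_, ?_, dl_eta h1, dl_E4 h1, dl_E6 h1⟩
  · have := E6_tau h2
    rw [tau_eq h1 h2, Y0_thh, k1] at this
    apply mul_left_cancel₀ (pow_ne_zero 2 hth)
    linear_combination this
  · have := pE6_tau h2
    rw [tau_eq h1 h2, Y0_thh, k1] at this
    apply mul_left_cancel₀ (pow_ne_zero 2 hth)
    linear_combination this
  · rw [dl_tt h1, k1]
  · rw [dl_AA h1, k1]
  · have a := dl_T2 h1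
    rw [k1, dl_pow, k4, k3] at a
    push_cast at a
    apply mul_left_cancel₀ hth
    linear_combination a / 2 + 6 * thh * k2
  · rw [psi_E2, k1]

end

end Pool.Agent.V5helper40.FR
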