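import Pool.Agent.V5helper40.FR.Rel
import Pool.Agent.V5helper40.FR.Lst

/-!
# Solutions of one modular differential equation from solutions of another
-/

set_option autoImplicit false

namespace Pool.Agent.V5helper40.FR

open HahnSeries

/-- the list of `δ = 1 + 13 t + 49 t²` -/
def dL : List ℤ := [1, 13, 49]
def e4L : List ℤ := [1, 245, 2401]
def p4L : List ℤ := [1, 5, 1]
def e6L : List ℤ := [1, -490, -21609, -235298, -823543]
def p6L : List ℤ := [1, 14, 63, 70, -7]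
/-- `λ_j` -/
def lamL : ℕ → List ℤ
  | 0 => []
  | 1 => [4, 156, 980]
  | 2 => [8, 312, 1960]
  | _ => [12, 156, 588]

/-- The identity for the entry `(i, j)`. -/
def entry (p : ℕ → ℕ → List ℤ) (s : ℕ) (ep k : ℤ) (c0 c1 c2 d0 d1 d2 : ℤ) (i j : ℕ) : List ℤ :=
  let q := p i j
  let a := mulL dL (addL (smulL 24 (eulA 0 q)) (smulL (-24 * s - 6 * ep + 6 * (k + 4 * j)) q))
  let b := mulL (addL (lamL j) (smulL (-1) (lamL i))) q
  let prev := match j with
    | 0 => []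
    | 1 => smulL 7 (p i 0)
    | 2 => smulL 7 (p i 1)
    | _ => smulL 7 (mulL dL (p i 2))
  let clos := match j with
    | 0 => smulL (7 * c0) (mulL (mulL dL (mulL p4L p4L)) (p i 3))
    | 1 => smulL (7 * c1) (mulL p6L (p i 3))
    | 2 => smulL (7 * c2) (mulL p4L (p i 3))
    | _ => []
  let next := match i with
    | 0 => p 1 j
    | 1 => p 2 j
    | 2 => mulL dL (p 3 j)
    | _ => addL (smulL d2 (mulL e4L (p 2 j))) (addL (smulL d1 (mulL e6L (p 1 j)))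
        (smulL d0 (mulL (mulL dL (mulL e4L e4L)) (p 0 j))))
  addL a (addL b (addL prev (addL clos (smulL (-1) next))))

/-- the check -/
def chk (p : ℕ → ℕ → List ℤ) (s : ℕ) (ep k : ℤ) (c0 c1 c2 d0 d1 d2 : ℤ) : Bool :=
  (zeroL (entry p s ep k c0 c1 c2 d0 d1 d2 0 0) && zeroL (entry p s ep k c0 c1 c2 d0 d1 d2 0 1)
  && zeroL (entry p s ep k c0 c1 c2 d0 d1 d2 0 2) && zeroL (entry p s ep k c0 c1 c2 d0 d1 d2 0 3))
  && (zeroL (entry p s ep k c0 c1 c2 d0 d1 d2 1 0) && zeroL (entry p s ep k c0 c1 c2 d0 d1 d2 1 1)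
  && zeroL (entry p s ep k c0 c1 c2 d0 d1 d2 1 2) && zeroL (entry p s ep k c0 c1 c2 d0 d1 d2 1 3))
  && (zeroL (entry p s ep k c0 c1 c2 d0 d1 d2 2 0) && zeroL (entry p s ep k c0 c1 c2 d0 d1 d2 2 1)
  && zeroL (entry p s ep k c0 c1 c2 d0 d1 d2 2 2) && zeroL (entry p s ep k c0 c1 c2 d0 d1 d2 2 3))
  && (zeroL (entry p s ep k c0 c1 c2 d0 d1 d2 3 0) && zeroL (entry p s ep k c0 c1 c2 d0 d1 d2 3 1)
  && zeroL (entry p s ep k c0 c1 c2 d0 d1 d2 3 2) && zeroL (entry p s ep k c0 c1 c2 d0 d1 d2 3 3))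

noncomputable section

/-- `δ` -/
def dd : K := ev tt dL

theorem dd_eq : dd = 1 + 13 * tt + 49 * tt ^ 2 := by
  simp only [dd, dL, ev_cons, ev_nil]; push_cast; ring

/-- the factors `e_j` -/
def ee : ℕ → K
  | 0 => 1
  | 1 => dd / thh ^ 2
  | 2 => dd ^ 2 / thh ^ 4
  | _ => dd ^ 2 / thh ^ 6

/-- A solution of the fourth order modular differential equation, with its derivatives. -/
structure Sol (k c0 c1 c2 : ℤ) (f : ℕ → K) : Prop where
  h0 : dl (f 0) = k * E2 * f 0 + f 1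
  h1 : dl (f 1) = (k + 4) * E2 * f 1 + f 2
  h2 : dl (f 2) = (k + 8) * E2 * f 2 + f 3
  h3 : dl (f 3) = (k + 12) * E2 * f 3 + c2 * E4 * f 2 + c1 * E6 * f 1 + c0 * E4 ^ 2 * f 0

theorem dl_ev (h : Rels) : ∀ l : List ℤ, dl (ev tt l) = 24 * thh ^ 2 * ev tt (eulA 0 l)
  | [] => by simp [ev_nil, eulA, dl_zero]
  | c :: l => by
    rw [ev_cons, dl_add, dl_intCast, dl_mul, dl_ev h l, h.dtt, eulA, ev_cons, ev_eulA]
    push_cast
    ring

theorem dd_ne (h : Rels) : dd ≠ 0 := by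
  intro h0
  have := h.th3
  rw [← dd_eq, h0, mul_zero] at this
  exact pow_ne_zero 3 thh_ne this

theorem AA_dd (h : Rels) : AA = thh ^ 3 / dd := by
  rw [eq_div_iff (dd_ne h), h.th3, dd_eq]

theorem dl_thh (h : Rels) : dl thh = 2 * E2 * thh + thh ^ 3 * (-2 + 78 * tt + 686 * tt ^ 2) / dd := by
  rw [h.dth, AA_dd h]; ring

theorem dl_dd (h : Rels) : dl dd = 24 * thh ^ 2 * (13 * tt + 98 * tt ^ 2) := by
  rw [dd, dl_ev h]
  simp only [dL, eulA, ev_cons, ev_nil]; push_cast; ring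

theorem ee_ne (h : Rels) (j : ℕ) (hj : j < 4) : ee j ≠ 0 := by
  have h1 := dd_ne h
  have h2 := thh_ne
  interval_cases j
  · exact one_ne_zero
  · exact div_ne_zero h1 (pow_ne_zero 2 h2)
  · exact div_ne_zero (pow_ne_zero 2 h1) (pow_ne_zero 4 h2)
  · exact div_ne_zero (pow_ne_zero 2 h1) (pow_ne_zero 6 h2)

theorem dl_ee (h : Rels) (j : ℕ) (hj : j < 4) :
    dl (ee j) = ee j * (-4 * j * E2 + thh ^ 2 * ev tt (lamL j) / dd) := by
  have h1 := dd_ne h
  have h2 := thh_ne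
  have h3 := dl_thh h
  have h4 := dl_dd h
  have h5 := dd_eq
  interval_cases j
  · simp only [ee, lamL, ev_nil]; rw [dl_one]; push_cast; ring
  · simp only [ee, lamL, ev_cons, ev_nil]
    rw [div_eq_mul_inv, dl_mul, dl_inv, dl_pow, h3, h4]
    push_cast
    field_simp
    rw [h5]; ring
  · simp only [ee, lamL, ev_cons, ev_nil]
    rw [div_eq_mul_inv, dl_mul, dl_inv, dl_pow, dl_pow, h3, h4]
    push_cast
    field_simp
    rw [h5]; ring
  · simp only [ee, lamL, ev_cons, ev_nil]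
    rw [div_eq_mul_inv, dl_mul, dl_inv, dl_pow, dl_pow, h3, h4]
    push_cast
    field_simp
    rw [h5]; ring

/-- the common factor -/
def ww (s : ℕ) (N ep : ℤ) : K := (tt ^ s * N)⁻¹ * AA ^ ep

theorem dl_AAz (h : Rels) (n : ℤ) : dl (AA ^ n) = n * (6 * E2 - 6 * thh ^ 2) * AA ^ n := by
  have hA := AA_ne
  have key : ∀ m : ℕ, dl (AA ^ m) = m * (6 * E2 - 6 * thh ^ 2) * AA ^ m := by
    intro m
    induction m with
    | zero => simp [dl_one]
    | succ m ih => rw [pow_succ, dl_mul, ih, h.dAA]; push_cast; ring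
  obtain ⟨m, rfl | rfl⟩ := n.eq_nat_or_neg
  · rw [zpow_natCast, key]; push_cast; ring
  · rw [zpow_neg, zpow_natCast, dl_inv, key]
    push_cast
    have : AA ^ m ≠ 0 := pow_ne_zero _ hA
    field_simp

theorem dl_ww (h : Rels) (s : ℕ) (N ep : ℤ) (hN : N ≠ 0) :
    dl (ww s N ep) = ww s N ep * (-24 * s * thh ^ 2 + ep * (6 * E2 - 6 * thh ^ 2)) := by
  have hN' : (N : K) ≠ 0 := by exact_mod_cast hN
  have ht := tt_ne
  have key : ∀ m : ℕ, dl (tt ^ m) = 24 * m * thh ^ 2 * tt ^ m := by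
    intro m
    induction m with
    | zero => simp [dl_one]
    | succ m ih => rw [pow_succ, dl_mul, ih, h.dtt]; push_cast; ring
  rw [ww, dl_mul, dl_inv, dl_mul, dl_intCast, dl_AAz h, key]
  have : tt ^ s ≠ 0 := pow_ne_zero _ ht
  field_simp
  ring

/-- the rows -/
def RR (p : ℕ → ℕ → List ℤ) (s : ℕ) (N ep : ℤ) (f : ℕ → K) (i : ℕ) : K :=
  ww s N ep * (ee i)⁻¹ * (ee 0 * ev tt (p i 0) * psi (f 0) + ee 1 * ev tt (p i 1) * psi (f 1)
    + ee 2 * ev tt (p i 2) * psi (f 2) + ee 3 * ev tt (p i 3) * psi (f 3))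

theorem dl_term (h : Rels) (j : ℕ) (hj : j < 4) (l : List ℤ) (f : K) :
    dl (ee j * ev tt l * psi f) = ee j * ((-4 * j * E2 + thh ^ 2 * ev tt (lamL j) / dd) * ev tt l
      + 24 * thh ^ 2 * ev tt (eulA 0 l)) * psi f + 7 * ee j * ev tt l * psi (dl f) := by
  rw [dl_mul, dl_mul, dl_ee h j hj, dl_ev h, dl_psi]
  ring

end

end Pool.Agent.V5helper40.FR
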