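import Pool.Agent.V5helper40.FR.Rows

/-!
# The main algebraic lemma
-/

set_option autoImplicit false

namespace Pool.Agent.V5helper40.FR

theorem main_row {F : Type*} [Field F] [CharZero F]
    (θ D E s ep k k' i li l0 l1 l2 l3 P0 P1 P2 P3 Q0 Q1 Q2 Q3 F0 F1 F2 F3 c0 c1 c2 x4 x6
      n0 n1 n2 n3 : F) (hθ : θ ≠ 0) (hD : D ≠ 0) (hk : 6 * ep + k = k')
    (h0 : D * (24 * Q0 + (-24 * s - 6 * ep + 6 * k) * P0) + (l0 - li) * P0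
      + 7 * c0 * (D * x4 ^ 2) * P3 - n0 = 0)
    (h1 : D * (24 * Q1 + (-24 * s - 6 * ep + 6 * (k + 4)) * P1) + (l1 - li) * P1
      + 7 * P0 + 7 * c1 * x6 * P3 - n1 = 0)
    (h2 : D * (24 * Q2 + (-24 * s - 6 * ep + 6 * (k + 8)) * P2) + (l2 - li) * P2
      + 7 * P1 + 7 * c2 * x4 * P3 - n2 = 0)
    (h3 : D * (24 * Q3 + (-24 * s - 6 * ep + 6 * (k + 12)) * P3) + (l3 - li) * P3
      + 7 * (D * P2) - n3 = 0) :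
    (-24 * s * θ ^ 2 + ep * (6 * E - 6 * θ ^ 2) + 4 * i * E - θ ^ 2 * li / D)
      * (1 * P0 * F0 + D / θ ^ 2 * P1 * F1 + D ^ 2 / θ ^ 4 * P2 * F2 + D ^ 2 / θ ^ 6 * P3 * F3)
    + (1 * ((-4 * 0 * E + θ ^ 2 * l0 / D) * P0 + 24 * θ ^ 2 * Q0) * F0
      + 7 * 1 * P0 * (k * ((E + 6 * θ ^ 2) / 7) * F0 + F1))
    + (D / θ ^ 2 * ((-4 * 1 * E + θ ^ 2 * l1 / D) * P1 + 24 * θ ^ 2 * Q1) * F1
      + 7 * (D / θ ^ 2) * P1 * ((k + 4) * ((E + 6 * θ ^ 2) / 7) * F1 + F2))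
    + (D ^ 2 / θ ^ 4 * ((-4 * 2 * E + θ ^ 2 * l2 / D) * P2 + 24 * θ ^ 2 * Q2) * F2
      + 7 * (D ^ 2 / θ ^ 4) * P2 * ((k + 8) * ((E + 6 * θ ^ 2) / 7) * F2 + F3))
    + (D ^ 2 / θ ^ 6 * ((-4 * 3 * E + θ ^ 2 * l3 / D) * P3 + 24 * θ ^ 2 * Q3) * F3
      + 7 * (D ^ 2 / θ ^ 6) * P3 * ((k + 12) * ((E + 6 * θ ^ 2) / 7) * F3
        + c2 * (θ ^ 4 * x4 / D) * F2 + c1 * (θ ^ 6 * x6 / D ^ 2) * F1
        + c0 * (θ ^ 4 * x4 / D) ^ 2 * F0))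
    = (k' + 4 * i) * E * (1 * P0 * F0 + D / θ ^ 2 * P1 * F1 + D ^ 2 / θ ^ 4 * P2 * F2
        + D ^ 2 / θ ^ 6 * P3 * F3)
      + θ ^ 2 / D * (1 * n0 * F0 + D / θ ^ 2 * n1 * F1 + D ^ 2 / θ ^ 4 * n2 * F2
        + D ^ 2 / θ ^ 6 * n3 * F3) := by
  subst hk
  rw [← sub_eq_zero] 
  have key : ∀ a b : F, a - b = 0 → a = b := fun a b h => sub_eq_zero.1 h
  have e0 : n0 = D * (24 * Q0 + (-24 * s - 6 * ep + 6 * k) * P0) + (l0 - li) * P0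
      + 7 * c0 * (D * x4 ^ 2) * P3 := (key _ _ h0).symm
  have e1 : n1 = D * (24 * Q1 + (-24 * s - 6 * ep + 6 * (k + 4)) * P1) + (l1 - li) * P1
      + 7 * P0 + 7 * c1 * x6 * P3 := (key _ _ h1).symm
  have e2 : n2 = D * (24 * Q2 + (-24 * s - 6 * ep + 6 * (k + 8)) * P2) + (l2 - li) * P2
      + 7 * P1 + 7 * c2 * x4 * P3 := (key _ _ h2).symm
  have e3 : n3 = D * (24 * Q3 + (-24 * s - 6 * ep + 6 * (k + 12)) * P3) + (l3 - li) * P3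
      + 7 * (D * P2) := (key _ _ h3).symm
  rw [e0, e1, e2, e3]
  field_simp
  ring

end Pool.Agent.V5helper40.FR
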