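import Pool.Agent.V5helper40.FR.RowsA

/-!
# The rows give solutions
-/

set_option autoImplicit false

namespace Pool.Agent.V5helper40.FR

open HahnSeries

noncomputable section

theorem ev_e4 : ev tt e4L = 1 + 245 * tt + 2401 * tt ^ 2 := by
  simp only [e4L, ev_cons, ev_nil]; push_cast; ring
theorem ev_p4 : ev tt p4L = 1 + 5 * tt + tt ^ 2 := by
  simp only [p4L, ev_cons, ev_nil]; push_cast; ring
theorem ev_e6 : ev tt e6L = 1 - 490 * tt - 21609 * tt ^ 2 - 235298 * tt ^ 3 - 823543 * tt ^ 4 := by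
  simp only [e6L, ev_cons, ev_nil]; push_cast; ring
theorem ev_p6 : ev tt p6L = 1 + 14 * tt + 63 * tt ^ 2 + 70 * tt ^ 3 - 7 * tt ^ 4 := by
  simp only [p6L, ev_cons, ev_nil]; push_cast; ring

theorem E4_dd (h : Rels) : E4 = thh ^ 4 * ev tt e4L / dd := by
  rw [ev_e4, h.E4e, AA_dd h]; ring
theorem pE4_dd (h : Rels) : psi E4 = thh ^ 4 * ev tt p4L / dd := by
  rw [ev_p4, h.pE4e, AA_dd h]; ring
theorem E6_dd (h : Rels) : E6 = thh ^ 6 * ev tt e6L / dd ^ 2 := by
  rw [ev_e6, h.E6e, AA_dd h]; ring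
theorem pE6_dd (h : Rels) : psi E6 = thh ^ 6 * ev tt p6L / dd ^ 2 := by
  rw [ev_p6, h.pE6e, AA_dd h]; ring

theorem ee_0 : ee 0 = 1 := rfl
theorem ee_1 : ee 1 = dd / thh ^ 2 := rfl
theorem ee_2 : ee 2 = dd ^ 2 / thh ^ 4 := rfl
theorem ee_3 : ee 3 = dd ^ 2 / thh ^ 6 := rfl

/-- The derivative of a row in terms of the general formula. -/
theorem dl_RR (h : Rels) (p : ℕ → ℕ → List ℤ) (s : ℕ) (N ep k k' c0 c1 c2 : ℤ) (hN : N ≠ 0)
    (hk : 6 * ep + k = k') (f : ℕ → K) (hf : Sol k c0 c1 c2 f) (i : ℕ) (hi : i < 4)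
    (n0 n1 n2 n3 : List ℤ)
    (h0 : ev tt (addL (mulL dL (addL (smulL 24 (eulA 0 (p i 0))) (smulL (-24 * s - 6 * ep + 6 * k) (p i 0))))
      (addL (mulL (addL (lamL 0) (smulL (-1) (lamL i))) (p i 0))
      (addL (smulL (7 * c0) (mulL (mulL dL (mulL p4L p4L)) (p i 3))) (smulL (-1) n0)))) = 0)
    (h1 : ev tt (addL (mulL dL (addL (smulL 24 (eulA 0 (p i 1))) (smulL (-24 * s - 6 * ep + 6 * (k + 4)) (p i 1))))
      (addL (mulL (addL (lamL 1) (smulL (-1) (lamL i))) (p i 1))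
      (addL (smulL 7 (p i 0)) (addL (smulL (7 * c1) (mulL p6L (p i 3))) (smulL (-1) n1))))) = 0)
    (h2 : ev tt (addL (mulL dL (addL (smulL 24 (eulA 0 (p i 2))) (smulL (-24 * s - 6 * ep + 6 * (k + 8)) (p i 2))))
      (addL (mulL (addL (lamL 2) (smulL (-1) (lamL i))) (p i 2))
      (addL (smulL 7 (p i 1)) (addL (smulL (7 * c2) (mulL p4L (p i 3))) (smulL (-1) n2))))) = 0)
    (h3 : ev tt (addL (mulL dL (addL (smulL 24 (eulA 0 (p i 3))) (smulL (-24 * s - 6 * ep + 6 * (k + 12)) (p i 3))))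
      (addL (mulL (addL (lamL 3) (smulL (-1) (lamL i))) (p i 3))
      (addL (smulL 7 (mulL dL (p i 2))) (smulL (-1) n3)))) = 0) :
    dl (RR p s N ep f i) = (k' + 4 * i) * E2 * RR p s N ep f i
      + ww s N ep * (ee i)⁻¹ * (thh ^ 2 / dd * (ee 0 * ev tt n0 * psi (f 0)
        + ee 1 * ev tt n1 * psi (f 1) + ee 2 * ev tt n2 * psi (f 2)
        + ee 3 * ev tt n3 * psi (f 3))) := by
  have hθ := thh_ne
  have hD := dd_ne h
  have hei := ee_ne h i hi
  simp only [ev_add, ev_mul, ev_smul] at h0 h1 h2 h3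
  have g0 : psi (dl (f 0)) = k * ((E2 + 6 * thh ^ 2) / 7) * psi (f 0) + psi (f 1) := by
    rw [hf.h0, map_add, map_mul, map_mul, map_intCast, h.pE2]
  have g1 : psi (dl (f 1)) = (k + 4) * ((E2 + 6 * thh ^ 2) / 7) * psi (f 1) + psi (f 2) := by
    rw [hf.h1, map_add, map_mul, map_mul, map_add, map_intCast, map_ofNat, h.pE2]
  have g2 : psi (dl (f 2)) = (k + 8) * ((E2 + 6 * thh ^ 2) / 7) * psi (f 2) + psi (f 3) := by
    rw [hf.h2, map_add, map_mul, map_mul, map_add, map_intCast, map_ofNat, h.pE2]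
  have g3 : psi (dl (f 3)) = (k + 12) * ((E2 + 6 * thh ^ 2) / 7) * psi (f 3)
      + c2 * (thh ^ 4 * ev tt p4L / dd) * psi (f 2) + c1 * (thh ^ 6 * ev tt p6L / dd ^ 2) * psi (f 1)
      + c0 * (thh ^ 4 * ev tt p4L / dd) ^ 2 * psi (f 0) := by
    rw [hf.h3]
    simp only [map_add, map_mul, map_pow, map_intCast, map_ofNat]
    rw [h.pE2, pE4_dd h, pE6_dd h]
  have key := main_row thh dd E2 (s : K) ep k k' i (ev tt (lamL i)) (ev tt (lamL 0)) (ev tt (lamL 1))
    (ev tt (lamL 2)) (ev tt (lamL 3)) (ev tt (p i 0)) (ev tt (p i 1)) (ev tt (p i 2)) (ev tt (p i 3))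
    (ev tt (eulA 0 (p i 0))) (ev tt (eulA 0 (p i 1))) (ev tt (eulA 0 (p i 2))) (ev tt (eulA 0 (p i 3)))
    (psi (f 0)) (psi (f 1)) (psi (f 2)) (psi (f 3)) c0 c1 c2 (ev tt p4L) (ev tt p6L)
    (ev tt n0) (ev tt n1) (ev tt n2) (ev tt n3) hθ hD (by exact_mod_cast hk)
    (by rw [← h0]; rw [dd]; push_cast; ring)
    (by rw [← h1]; rw [dd]; push_cast; ring)
    (by rw [← h2]; rw [dd]; push_cast; ring)
    (by rw [← h3]; rw [dd]; push_cast; ring)
  have t0 := dl_term h 0 (by norm_num) (p i 0) (f 0)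
  have t1 := dl_term h 1 (by norm_num) (p i 1) (f 1)
  have t2 := dl_term h 2 (by norm_num) (p i 2) (f 2)
  have t3 := dl_term h 3 (by norm_num) (p i 3) (f 3)
  have hw := dl_ww h s N ep hN
  have hee : dl (ee i)⁻¹ = (ee i)⁻¹ * (4 * i * E2 - thh ^ 2 * ev tt (lamL i) / dd) := by
    rw [dl_inv, dl_ee h i hi]
    field_simp
    ring
  rw [RR, dl_mul, dl_mul, dl_add, dl_add, dl_add, t0, t1, t2, t3, hw, hee, g0, g1, g2, g3]
  generalize (ee i)⁻¹ = v
  rw [ee_0, ee_1, ee_2, ee_3]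
  push_cast at key ⊢
  linear_combination (ww s N ep * v) * key

theorem rows_sol (h : Rels) (p : ℕ → ℕ → List ℤ) (s : ℕ) (N ep k k' c0 c1 c2 d0 d1 d2 : ℤ)
    (hN : N ≠ 0) (hk : 6 * ep + k = k') (hc : chk p s ep k c0 c1 c2 d0 d1 d2 = true)
    (f : ℕ → K) (hf : Sol k c0 c1 c2 f) : Sol k' d0 d1 d2 (RR p s N ep f) := by
  simp only [chk, Bool.and_eq_true] at hc
  obtain ⟨⟨⟨⟨⟨⟨h00, h01⟩, h02⟩, h03⟩, ⟨⟨⟨h10, h11⟩, h12⟩, h13⟩⟩, ⟨⟨⟨h20, h21⟩, h22⟩, h23⟩⟩,
    ⟨⟨⟨h30, h31⟩, h32⟩, h33⟩⟩ := hc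
  have hθ := thh_ne
  have hD := dd_ne h
  have z : ∀ l : List ℤ, zeroL l = true → ev tt l = 0 := ev_zero tt
  replace h00 := z _ h00
  replace h01 := z _ h01
  replace h02 := z _ h02
  replace h03 := z _ h03
  replace h10 := z _ h10
  replace h11 := z _ h11
  replace h12 := z _ h12
  replace h13 := z _ h13
  replace h20 := z _ h20
  replace h21 := z _ h21
  replace h22 := z _ h22
  replace h23 := z _ h23
  replace h30 := z _ h30
  replace h31 := z _ h31
  replace h32 := z _ h32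
  replace h33 := z _ h33
  simp only [entry, ev_add, ev_mul, ev_smul, ev_nil] at h00 h01 h02 h03 h10 h11 h12 h13 h20 h21 h22 h23 h30 h31 h32 h33
  refine ⟨?_, ?_, ?_, ?_⟩
  · rw [dl_RR h p s N ep k k' c0 c1 c2 hN hk f hf 0 (by norm_num) (p 1 0) (p 1 1) (p 1 2) (p 1 3)
      (by simp only [ev_add, ev_mul, ev_smul]; push_cast at h00 ⊢; linear_combination h00)
      (by simp only [ev_add, ev_mul, ev_smul]; push_cast at h01 ⊢; linear_combination h01)
      (by simp only [ev_add, ev_mul, ev_smul]; push_cast at h02 ⊢; linear_combination h02)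
      (by simp only [ev_add, ev_mul, ev_smul]; push_cast at h03 ⊢; linear_combination h03)]
    rw [RR, RR, ee_0, ee_1, ee_2, ee_3]
    push_cast
    field_simp
    ring
  · rw [dl_RR h p s N ep k k' c0 c1 c2 hN hk f hf 1 (by norm_num) (p 2 0) (p 2 1) (p 2 2) (p 2 3)
      (by simp only [ev_add, ev_mul, ev_smul]; push_cast at h10 ⊢; linear_combination h10)
      (by simp only [ev_add, ev_mul, ev_smul]; push_cast at h11 ⊢; linear_combination h11)
      (by simp only [ev_add, ev_mul, ev_smul]; push_cast at h12 ⊢; linear_combination h12)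
      (by simp only [ev_add, ev_mul, ev_smul]; push_cast at h13 ⊢; linear_combination h13)]
    rw [RR, RR, ee_0, ee_1, ee_2, ee_3]
    push_cast
    field_simp
  · rw [dl_RR h p s N ep k k' c0 c1 c2 hN hk f hf 2 (by norm_num) (mulL dL (p 3 0))
      (mulL dL (p 3 1)) (mulL dL (p 3 2)) (mulL dL (p 3 3))
      (by simp only [ev_add, ev_mul, ev_smul]; push_cast at h20 ⊢; linear_combination h20)
      (by simp only [ev_add, ev_mul, ev_smul]; push_cast at h21 ⊢; linear_combination h21)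
      (by simp only [ev_add, ev_mul, ev_smul]; push_cast at h22 ⊢; linear_combination h22)
      (by simp only [ev_add, ev_mul, ev_smul]; push_cast at h23 ⊢; linear_combination h23)]
    rw [RR, RR, ee_0, ee_1, ee_2, ee_3]
    simp only [ev_mul]
    rw [show ev tt dL = dd from rfl]
    push_cast
    field_simp
    ring
  · rw [dl_RR h p s N ep k k' c0 c1 c2 hN hk f hf 3 (by norm_num)
      (addL (smulL d2 (mulL e4L (p 2 0))) (addL (smulL d1 (mulL e6L (p 1 0)))
        (smulL d0 (mulL (mulL dL (mulL e4L e4L)) (p 0 0)))))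
      (addL (smulL d2 (mulL e4L (p 2 1))) (addL (smulL d1 (mulL e6L (p 1 1)))
        (smulL d0 (mulL (mulL dL (mulL e4L e4L)) (p 0 1)))))
      (addL (smulL d2 (mulL e4L (p 2 2))) (addL (smulL d1 (mulL e6L (p 1 2)))
        (smulL d0 (mulL (mulL dL (mulL e4L e4L)) (p 0 2)))))
      (addL (smulL d2 (mulL e4L (p 2 3))) (addL (smulL d1 (mulL e6L (p 1 3)))
        (smulL d0 (mulL (mulL dL (mulL e4L e4L)) (p 0 3)))))
      (by simp only [ev_add, ev_mul, ev_smul]; push_cast at h30 ⊢; linear_combination h30)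
      (by simp only [ev_add, ev_mul, ev_smul]; push_cast at h31 ⊢; linear_combination h31)
      (by simp only [ev_add, ev_mul, ev_smul]; push_cast at h32 ⊢; linear_combination h32)
      (by simp only [ev_add, ev_mul, ev_smul]; push_cast at h33 ⊢; linear_combination h33)]
    rw [RR, RR, RR, RR, ee_0, ee_1, ee_2, ee_3, E4_dd h, E6_dd h]
    simp only [ev_mul, ev_add, ev_smul]
    rw [show ev tt dL = dd from rfl]
    generalize ev tt e4L = x4
    generalize ev tt e6L = x6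
    push_cast
    field_simp
    ring

end

end Pool.Agent.V5helper40.FR
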