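import Pool.Agent.V5helper40.FR.Jobs2

/-!
# `U` on monomials
-/

set_option autoImplicit false

namespace Pool.Agent.V5helper40.FR

open HahnSeries

noncomputable section

/-- The content of job M. -/
structure MM : Prop where
  phi : tt ^ 7 = ev (psi tt) (aL 0) + ev (psi tt) (aL 1) * tt + ev (psi tt) (aL 2) * tt ^ 2
    + ev (psi tt) (aL 3) * tt ^ 3 + ev (psi tt) (aL 4) * tt ^ 4 + ev (psi tt) (aL 5) * tt ^ 5
    + ev (psi tt) (aL 6) * tt ^ 6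
  wat : om ^ 7 + 7 * om ^ 6 + 21 * om ^ 5 + 49 * om ^ 4 + (147 + 7 * (psi tt)⁻¹) * om ^ 3
    + (343 + 35 * (psi tt)⁻¹) * om ^ 2 + (343 + 49 * (psi tt)⁻¹) * om = ((psi tt)⁻¹) ^ 2
  u0 : U 1 = 1
  u1 : U om = -1
  u2 : U (om ^ 2) = 1
  u3 : U (om ^ 3) = -7
  u4 : U (om ^ 4) = -4 * tt⁻¹ - 7
  u5 : U (om ^ 5) = 10 * tt⁻¹ + 49
  u6 : U (om ^ 6) = 49

theorem MM_of (h : Rels) (hM : JobM) : MM := by
  obtain ⟨a, b, c0, c1, c2, c3, c4, c5, c6⟩ := hM h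
  exact ⟨a, b, c0, c1, c2, c3, c4, c5, c6⟩

theorem om_ne : om ≠ 0 := div_ne_zero eta_ne (psi_ne psi_eta_ne)

/-- `U(w^m)` -/
def YY (m : ℤ) : K := U (om ^ m)

theorem YY_rec (hM : MM) (m : ℤ) :
    YY (m + 7) + 7 * YY (m + 6) + 21 * YY (m + 5) + 49 * YY (m + 4) + (147 + 7 * tt⁻¹) * YY (m + 3)
    + (343 + 35 * tt⁻¹) * YY (m + 2) + (343 + 49 * tt⁻¹) * YY (m + 1) = (tt⁻¹) ^ 2 * YY m := by
  have ho := om_ne
  have e : ∀ k : ℕ, om ^ (m + k) = om ^ m * om ^ k := fun k => by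
    rw [zpow_add₀ ho, zpow_natCast]
  have e7 := e 7
  have e6 := e 6
  have e5 := e 5
  have e4 := e 4
  have e3 := e 3
  have e2 := e 2
  have e1 := e 1
  push_cast at e7 e6 e5 e4 e3 e2 e1
  have key : om ^ (m + 7) + om ^ (m + 6) * psi 7 + om ^ (m + 5) * psi 21 + om ^ (m + 4) * psi 49
      + om ^ (m + 3) * psi (147 + 7 * tt⁻¹) + om ^ (m + 2) * psi (343 + 35 * tt⁻¹)
      + om ^ (m + 1) * psi (343 + 49 * tt⁻¹) = om ^ m * psi ((tt⁻¹) ^ 2) := by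
    simp only [map_add, map_mul, map_ofNat, map_pow, map_inv₀]
    rw [e7, e6, e5, e4, e3, e2, e1]
    linear_combination om ^ m * hM.wat
  have k2 := congrArg U key
  simp only [U_add, U_mul_psi] at k2
  unfold YY
  linear_combination k2

theorem tA_eq (n a : ℤ) : tt ^ n * AA ^ a =
    om ^ (7 * a - 4 * n) * psi (psi eta ^ (7 * a - 4 * n) * eta ^ (4 * n - a)) := by
  have h1 := eta_ne
  have h2 := psi_eta_ne
  have h3 := psi_ne psi_eta_ne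
  rw [tt, AA, om, map_mul, map_zpow₀, map_zpow₀, ← zpow_natCast (psi eta / eta) 4, ← zpow_mul,
    div_zpow, div_zpow, div_zpow, ← zpow_natCast eta 7, ← zpow_mul]
  have e1 : psi eta ^ (((4 : ℕ) : ℤ) * n) = psi eta ^ (4 * n - a) * psi eta ^ a := by
    rw [← zpow_add₀ h2]; congr 1; push_cast; ring
  have e2 : eta ^ (((7 : ℕ) : ℤ) * a) = eta ^ (7 * a - 4 * n) * eta ^ (((4 : ℕ) : ℤ) * n) := by
    rw [← zpow_add₀ h1]; congr 1; push_cast; ring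
  rw [e1, e2]
  have z1 : psi eta ^ a ≠ 0 := zpow_ne_zero _ h2
  have z2 : eta ^ (((4 : ℕ) : ℤ) * n) ≠ 0 := zpow_ne_zero _ h1
  have z3 : psi (psi eta) ^ (7 * a - 4 * n) ≠ 0 := zpow_ne_zero _ h3
  field_simp

theorem U_tA (n a : ℤ) : U (tt ^ n * AA ^ a) = AA ^ a * (tt ^ (2 * a - n) * YY (7 * a - 4 * n)) := by
  have h1 := eta_ne
  have h2 := psi_eta_ne
  rw [tA_eq, U_mul_psi]
  show YY (7 * a - 4 * n) * _ = _
  have e : psi eta ^ (7 * a - 4 * n) * eta ^ (4 * n - a) = AA ^ a * tt ^ (2 * a - n) := by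
    rw [tt, AA, ← zpow_natCast (psi eta / eta) 4, ← zpow_mul, div_zpow, div_zpow,
      ← zpow_natCast eta 7, ← zpow_mul]
    have e1 : psi eta ^ (((4 : ℕ) : ℤ) * (2 * a - n)) = psi eta ^ (7 * a - 4 * n) * psi eta ^ a := by
      rw [← zpow_add₀ h2]; congr 1; push_cast; ring
    have e2 : eta ^ (((7 : ℕ) : ℤ) * a) = eta ^ (4 * n - a) * eta ^ (((4 : ℕ) : ℤ) * (2 * a - n)) := by
      rw [← zpow_add₀ h1]; congr 1; push_cast; ring
    rw [e1, e2]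
    have z1 : psi eta ^ a ≠ 0 := zpow_ne_zero _ h2
    have z2 : eta ^ (((4 : ℕ) : ℤ) * (2 * a - n)) ≠ 0 := zpow_ne_zero _ h1
    field_simp
  rw [e]
  ring

/-- `U(t^n c)/c` -/
def Xf (c : K) (n : ℤ) : K := U (tt ^ n * c) / c

theorem U_tc {c : K} (hc : c ≠ 0) (n : ℤ) : U (tt ^ n * c) = Xf c n * c := by
  rw [Xf, div_mul_cancel₀ _ hc]

theorem Xf_A (a n : ℤ) : Xf (AA ^ a) n = tt ^ (2 * a - n) * YY (7 * a - 4 * n) := by
  have := zpow_ne_zero a AA_ne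
  rw [Xf, U_tA]
  field_simp

theorem Xf_rec (hM : MM) (c : K) (n : ℤ) :
    Xf c (n + 7) = ev tt (aL 0) * Xf c n + ev tt (aL 1) * Xf c (n + 1) + ev tt (aL 2) * Xf c (n + 2)
      + ev tt (aL 3) * Xf c (n + 3) + ev tt (aL 4) * Xf c (n + 4) + ev tt (aL 5) * Xf c (n + 5)
      + ev tt (aL 6) * Xf c (n + 6) := by
  have ht := tt_ne
  have e : ∀ k : ℕ, tt ^ (n + k) = tt ^ n * tt ^ k := fun k => by
    rw [zpow_add₀ ht, zpow_natCast]
  have e7 := e 7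
  have e6 := e 6
  have e5 := e 5
  have e4 := e 4
  have e3 := e 3
  have e2 := e 2
  have e1 := e 1
  push_cast at e7 e6 e5 e4 e3 e2 e1
  have key : tt ^ (n + 7) * c = tt ^ n * c * psi (ev tt (aL 0)) + tt ^ (n + 1) * c * psi (ev tt (aL 1))
      + tt ^ (n + 2) * c * psi (ev tt (aL 2)) + tt ^ (n + 3) * c * psi (ev tt (aL 3))
      + tt ^ (n + 4) * c * psi (ev tt (aL 4)) + tt ^ (n + 5) * c * psi (ev tt (aL 5))
      + tt ^ (n + 6) * c * psi (ev tt (aL 6)) := by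
    simp only [map_ev]
    rw [e7, e6, e5, e4, e3, e2, e1]
    linear_combination tt ^ n * c * hM.phi
  have k2 := congrArg U key
  simp only [U_add, U_mul_psi] at k2
  unfold Xf
  rw [k2]
  ring

/-- the derivative formula -/
theorem Xf_thsq (h : Rels) (a n : ℤ) :
    (4 * n - 7 * a : ℤ) * Xf (thh ^ 2 * AA ^ a) n =
      7 * (4 * (dl (Xf (AA ^ a) n) / (24 * thh ^ 2)) - a * Xf (AA ^ a) n) := by
  have hA : AA ^ a ≠ 0 := zpow_ne_zero a AA_ne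
  have hth := thh_ne
  have ht := tt_ne
  have hdt : dl (tt ^ n) = 24 * n * thh ^ 2 * tt ^ n := by
    have key : ∀ m : ℕ, dl (tt ^ m) = 24 * m * thh ^ 2 * tt ^ m := by
      intro m
      induction m with
      | zero => simp [dl_one]
      | succ m ih => rw [pow_succ, dl_mul, ih, h.dtt]; push_cast; ring
    obtain ⟨m, rfl | rfl⟩ := n.eq_nat_or_neg
    · rw [zpow_natCast, key]; push_cast; ring
    · rw [zpow_neg, zpow_natCast, dl_inv, key]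
      push_cast
      have : tt ^ m ≠ 0 := pow_ne_zero _ ht
      field_simp
  have e1 : dl (tt ^ n * AA ^ a) = ((24 * n - 42 * a : ℤ) : K) * (tt ^ n * (thh ^ 2 * AA ^ a))
      + tt ^ n * AA ^ a * psi (42 * a * E2) := by
    rw [dl_mul, hdt, dl_AAz h, map_mul, map_mul, map_ofNat, map_intCast, h.pE2]
    push_cast
    ring
  have e2 := congrArg U e1
  rw [U_dl, U_add, U_intCast_mul, U_mul_psi, U_tc hA, U_tc (mul_ne_zero (pow_ne_zero 2 hth) hA),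
    dl_mul, dl_AAz h] at e2
  generalize Xf (thh ^ 2 * AA ^ a) n = Z at *
  generalize Xf (AA ^ a) n = X at *
  generalize AA ^ a = c at *
  push_cast at e2 ⊢
  obtain ⟨D, hD⟩ : ∃ D : K, dl X = 24 * thh ^ 2 * D :=
    ⟨dl X / (24 * thh ^ 2), by field_simp⟩
  have hc2 : 6 * (c * thh ^ 2) ≠ 0 :=
    mul_ne_zero (by norm_num) (mul_ne_zero hA (pow_ne_zero 2 hth))
  have hD2 : dl X / (24 * thh ^ 2) = D := by rw [hD]; field_simp
  rw [hD2]
  rw [hD] at e2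
  apply mul_left_cancel₀ hc2
  linear_combination -e2

/-- the trick with `E₄` -/
theorem Xf_th (h : Rels) (a n : ℤ) :
    ev tt e4L * Xf (thh * AA ^ a) n = Xf (thh ^ 2 * AA ^ (a + 1)) n
      + 5 * Xf (thh ^ 2 * AA ^ (a + 1)) (n + 1) + Xf (thh ^ 2 * AA ^ (a + 1)) (n + 2) := by
  have hA : AA ^ a ≠ 0 := zpow_ne_zero a AA_ne
  have hA1 := AA_ne
  have hth := thh_ne
  have ht := tt_ne
  have hc : thh * AA ^ a ≠ 0 := mul_ne_zero hth hA
  have hc2 : thh ^ 2 * AA ^ (a + 1) ≠ 0 := mul_ne_zero (pow_ne_zero 2 hth) (zpow_ne_zero _ hA1)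
  have ea : AA ^ (a + 1) = AA ^ a * AA := by rw [zpow_add₀ hA1, zpow_one]
  have e1 : tt ^ n * (thh * AA ^ a) * psi E4 = tt ^ n * (thh ^ 2 * AA ^ (a + 1))
      + (5 : ℤ) * (tt ^ (n + 1) * (thh ^ 2 * AA ^ (a + 1))) + tt ^ (n + 2) * (thh ^ 2 * AA ^ (a + 1)) := by
    rw [h.pE4e, ea, zpow_add₀ ht, zpow_add₀ ht]
    have : tt ^ (2 : ℤ) = tt ^ 2 := by norm_cast
    rw [this, zpow_one]
    push_cast
    ring
  have e2 := congrArg U e1
  rw [U_mul_psi, U_add, U_add, U_intCast_mul, U_tc hc, U_tc hc2, U_tc hc2, U_tc hc2, h.E4e,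
    ← ev_e4, ea] at e2
  rw [ea]
  apply mul_left_cancel₀ (mul_ne_zero (pow_ne_zero 2 hth) (mul_ne_zero hA hA1))
  push_cast at e2
  linear_combination e2

end

end Pool.Agent.V5helper40.FR
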