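import Pool.Agent.V5helper40.FR.XA
import Pool.Agent.V5helper40.FR.XD

/-!
# The values of `U` on the eight classes
-/

set_option autoImplicit false

namespace Pool.Agent.V5helper40.FR

open HahnSeries

noncomputable section

/-! ### `U(w^m)` -/

/-- the recursion check for `Zl` -/
def chkZ (i : ℕ) : Bool :=
  zeroL (addL (shL 2 (Zl (i + 7))) (addL (shL 2 (smulL 7 (Zl (i + 6))))
    (addL (shL 2 (smulL 21 (Zl (i + 5)))) (addL (shL 2 (smulL 49 (Zl (i + 4))))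
    (addL (mulL [0, 7, 147] (Zl (i + 3))) (addL (mulL [0, 35, 343] (Zl (i + 2)))
    (addL (mulL [0, 49, 343] (Zl (i + 1))) (smulL (-1) (Zl i)))))))))

theorem chkZ_all : ∀ i < 25, chkZ i = true := by decide +kernel

/-- the statement for `Zl i` -/
def PZ (i : ℕ) : Prop := tt ^ 8 * YY ((i : ℤ) - 3) = ev tt (Zl i)

theorem Z_rel (hM : MM) (i : ℕ) (hi : i < 25) :
    (tt ^ 8 * YY (((i + 7 : ℕ) : ℤ) - 3) - ev tt (Zl (i + 7))) * tt ^ 2
    + 7 * tt ^ 2 * (tt ^ 8 * YY (((i + 6 : ℕ) : ℤ) - 3) - ev tt (Zl (i + 6)))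
    + 21 * tt ^ 2 * (tt ^ 8 * YY (((i + 5 : ℕ) : ℤ) - 3) - ev tt (Zl (i + 5)))
    + 49 * tt ^ 2 * (tt ^ 8 * YY (((i + 4 : ℕ) : ℤ) - 3) - ev tt (Zl (i + 4)))
    + (147 * tt ^ 2 + 7 * tt) * (tt ^ 8 * YY (((i + 3 : ℕ) : ℤ) - 3) - ev tt (Zl (i + 3)))
    + (343 * tt ^ 2 + 35 * tt) * (tt ^ 8 * YY (((i + 2 : ℕ) : ℤ) - 3) - ev tt (Zl (i + 2)))
    + (343 * tt ^ 2 + 49 * tt) * (tt ^ 8 * YY (((i + 1 : ℕ) : ℤ) - 3) - ev tt (Zl (i + 1)))
    = tt ^ 8 * YY ((i : ℤ) - 3) - ev tt (Zl i) := by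
  have h1 := YY_rec hM ((i : ℤ) - 3)
  have h2 := ev_zero tt _ (chkZ_all i hi)
  simp only [ev_add, ev_sh, ev_smul, ev_mul] at h2
  simp only [ev_cons, ev_nil] at h2
  have ht := tt_ne
  have hti : tt * tt⁻¹ = 1 := mul_inv_cancel₀ ht
  have a7 : ((i + 7 : ℕ) : ℤ) - 3 = (i : ℤ) - 3 + 7 := by push_cast; ring
  have a6 : ((i + 6 : ℕ) : ℤ) - 3 = (i : ℤ) - 3 + 6 := by push_cast; ring
  have a5 : ((i + 5 : ℕ) : ℤ) - 3 = (i : ℤ) - 3 + 5 := by push_cast; ring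
  have a4 : ((i + 4 : ℕ) : ℤ) - 3 = (i : ℤ) - 3 + 4 := by push_cast; ring
  have a3 : ((i + 3 : ℕ) : ℤ) - 3 = (i : ℤ) - 3 + 3 := by push_cast; ring
  have a2 : ((i + 2 : ℕ) : ℤ) - 3 = (i : ℤ) - 3 + 2 := by push_cast; ring
  have a1 : ((i + 1 : ℕ) : ℤ) - 3 = (i : ℤ) - 3 + 1 := by push_cast; ring
  rw [a7, a6, a5, a4, a3, a2, a1]
  generalize YY ((i : ℤ) - 3 + 7) = y7 at *
  generalize YY ((i : ℤ) - 3 + 6) = y6 at *
  generalize YY ((i : ℤ) - 3 + 5) = y5 at *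
  generalize YY ((i : ℤ) - 3 + 4) = y4 at *
  generalize YY ((i : ℤ) - 3 + 3) = y3 at *
  generalize YY ((i : ℤ) - 3 + 2) = y2 at *
  generalize YY ((i : ℤ) - 3 + 1) = y1 at *
  generalize YY ((i : ℤ) - 3) = y0 at *
  generalize tt⁻¹ = v at *
  push_cast at h2
  linear_combination tt ^ 10 * h1 - h2 - tt ^ 9 * (7 * y3 + 35 * y2 + 49 * y1) * hti
    + tt ^ 8 * (tt * v + 1) * y0 * hti

theorem PZ_all (hM : MM) : ∀ i < 32, PZ i := by
  have ht := tt_ne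
  have h3 : PZ 3 := by
    unfold PZ
    have : YY (((3 : ℕ) : ℤ) - 3) = 1 := by rw [YY]; norm_num; exact hM.u0
    rw [this]; simp only [Zl, ev_cons, ev_nil]; push_cast; ring
  have h4 : PZ 4 := by
    unfold PZ
    have : YY (((4 : ℕ) : ℤ) - 3) = -1 := by rw [YY]; norm_num; exact hM.u1
    rw [this]; simp only [Zl, ev_cons, ev_nil]; push_cast; ring
  have h5 : PZ 5 := by
    unfold PZ
    have : YY (((5 : ℕ) : ℤ) - 3) = 1 := by
      rw [YY, show (((5 : ℕ) : ℤ) - 3) = ((2 : ℕ) : ℤ) by norm_num, zpow_natCast]; exact hM.u2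
    rw [this]; simp only [Zl, ev_cons, ev_nil]; push_cast; ring
  have h6 : PZ 6 := by
    unfold PZ
    have : YY (((6 : ℕ) : ℤ) - 3) = -7 := by
      rw [YY, show (((6 : ℕ) : ℤ) - 3) = ((3 : ℕ) : ℤ) by norm_num, zpow_natCast]; exact hM.u3
    rw [this]; simp only [Zl, ev_cons, ev_nil]; push_cast; ring
  have h7 : PZ 7 := by
    unfold PZ
    have : YY (((7 : ℕ) : ℤ) - 3) = -4 * tt⁻¹ - 7 := by
      rw [YY, show (((7 : ℕ) : ℤ) - 3) = ((4 : ℕ) : ℤ) by norm_num, zpow_natCast]; exact hM.u4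
    rw [this]; simp only [Zl, ev_cons, ev_nil]; push_cast; field_simp; ring
  have h8 : PZ 8 := by
    unfold PZ
    have : YY (((8 : ℕ) : ℤ) - 3) = 10 * tt⁻¹ + 49 := by
      rw [YY, show (((8 : ℕ) : ℤ) - 3) = ((5 : ℕ) : ℤ) by norm_num, zpow_natCast]; exact hM.u5
    rw [this]; simp only [Zl, ev_cons, ev_nil]; push_cast; field_simp; ring
  have h9 : PZ 9 := by
    unfold PZ
    have : YY (((9 : ℕ) : ℤ) - 3) = 49 := by
      rw [YY, show (((9 : ℕ) : ℤ) - 3) = ((6 : ℕ) : ℤ) by norm_num, zpow_natCast]; exact hM.u6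
    rw [this]; simp only [Zl, ev_cons, ev_nil]; push_cast; ring
  have fwd : ∀ i < 25, PZ i → PZ (i + 1) → PZ (i + 2) → PZ (i + 3) → PZ (i + 4) → PZ (i + 5) →
      PZ (i + 6) → PZ (i + 7) := by
    intro i hi k0 k1 k2 k3 k4 k5 k6
    have h := Z_rel hM i hi
    unfold PZ at k0 k1 k2 k3 k4 k5 k6 ⊢
    rw [k0, k1, k2, k3, k4, k5, k6] at h
    have h2 : (tt ^ 8 * YY (((i + 7 : ℕ) : ℤ) - 3) - ev tt (Zl (i + 7))) * tt ^ 2 = 0 := by
      linear_combination h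
    rcases mul_eq_zero.1 h2 with h3 | h3
    · exact sub_eq_zero.1 h3
    · exact absurd h3 (pow_ne_zero 2 ht)
  have bwd : ∀ i < 25, PZ (i + 1) → PZ (i + 2) → PZ (i + 3) → PZ (i + 4) → PZ (i + 5) →
      PZ (i + 6) → PZ (i + 7) → PZ i := by
    intro i hi k1 k2 k3 k4 k5 k6 k7
    have h := Z_rel hM i hi
    unfold PZ at k1 k2 k3 k4 k5 k6 k7 ⊢
    rw [k1, k2, k3, k4, k5, k6, k7] at h
    linear_combination -h
  have h2 := bwd 2 (by norm_num) h3 h4 h5 h6 h7 h8 h9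
  have h1 := bwd 1 (by norm_num) h2 h3 h4 h5 h6 h7 h8
  have h0 := bwd 0 (by norm_num) h1 h2 h3 h4 h5 h6 h7
  intro i hi
  induction i using Nat.strong_induction_on with
  | _ i ih =>
    rcases lt_or_ge i 10 with h10 | h10
    · interval_cases i
      exacts [h0, h1, h2, h3, h4, h5, h6, h7, h8, h9]
    · obtain ⟨k, rfl⟩ := Nat.exists_eq_add_of_le h10
      have e : ∀ j : ℕ, j < 10 + k → PZ j := fun j hj => ih j hj (by omega)
      have := fwd (3 + k) (by omega) (e _ (by omega)) (e _ (by omega)) (e _ (by omega))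
        (e _ (by omega)) (e _ (by omega)) (e _ (by omega)) (e _ (by omega))
      rw [show 3 + k + 7 = 10 + k by ring] at this
      exact this

/-! ### From `Z` to the pure classes -/

theorem pureT (hM : MM) (a n : ℤ) (T : List ℤ) (iz e : ℕ) (hi : iz < 32) (he : (e : ℤ) = 2 * a - n + 1)
    (hz : (iz : ℤ) - 3 = 7 * a - 4 * n)
    (hc : zeroL (addL (shL 8 T) (smulL (-1) (shL e (Zl iz)))) = true) :
    tt * Xf (AA ^ a) n = ev tt T := by
  have ht := tt_ne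
  have h1 := PZ_all hM iz hi
  unfold PZ at h1
  have h2 := ev_zero tt _ hc
  simp only [ev_add, ev_sh, ev_smul] at h2
  rw [Xf_A, ← hz, ← mul_assoc]
  have e1 : tt * tt ^ (2 * a - n) = tt ^ e := by
    rw [← zpow_natCast, he, zpow_add₀ ht, zpow_one]; ring
  rw [e1]
  apply mul_left_cancel₀ (pow_ne_zero 8 ht)
  push_cast at h2
  linear_combination tt ^ e * h1 - h2

/-- The recursion check. -/
def chkT (T : ℕ → List ℤ) (i : ℕ) : Bool :=
  zeroL (addL (T (i + 7)) (smulL (-1) (addL (mulL (aL 0) (T i)) (addL (mulL (aL 1) (T (i + 1)))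
    (addL (mulL (aL 2) (T (i + 2))) (addL (mulL (aL 3) (T (i + 3))) (addL (mulL (aL 4) (T (i + 4)))
    (addL (mulL (aL 5) (T (i + 5))) (mulL (aL 6) (T (i + 6)))))))))))

theorem recT (hM : MM) (c : K) (n0 : ℤ) (T : ℕ → List ℤ) (i : ℕ) (hc : chkT T i = true)
    (h : ∀ j < 7, tt * Xf c (n0 + (i + j : ℕ)) = ev tt (T (i + j))) :
    tt * Xf c (n0 + (i + 7 : ℕ)) = ev tt (T (i + 7)) := by
  have h0 := h 0 (by norm_num)
  have h1 := h 1 (by norm_num)
  have h2 := h 2 (by norm_num)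
  have h3 := h 3 (by norm_num)
  have h4 := h 4 (by norm_num)
  have h5 := h 5 (by norm_num)
  have h6 := h 6 (by norm_num)
  have r := Xf_rec hM c (n0 + i)
  have z := ev_zero tt _ hc
  simp only [ev_add, ev_mul, ev_smul] at z
  push_cast at h0 h1 h2 h3 h4 h5 h6 z ⊢
  rw [add_zero] at h0
  simp only [← add_assoc] at h0 h1 h2 h3 h4 h5 h6 ⊢
  rw [r]
  simp only [Nat.add_zero] at h0
  linear_combination ev tt (aL 0) * h0 + ev tt (aL 1) * h1 + ev tt (aL 2) * h2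
    + ev tt (aL 3) * h3 + ev tt (aL 4) * h4 + ev tt (aL 5) * h5 + ev tt (aL 6) * h6 - z

/-- extension of a table by the recursion -/
theorem extT (hM : MM) (c : K) (n0 : ℤ) (T : ℕ → List ℤ) (m : ℕ)
    (hc : ∀ i, i + 7 < m → chkT T i = true)
    (h : ∀ j < 7, tt * Xf c (n0 + (j : ℕ)) = ev tt (T j)) :
    ∀ j < m, tt * Xf c (n0 + (j : ℕ)) = ev tt (T j) := by
  intro j hj
  induction j using Nat.strong_induction_on with
  | _ j ih =>
    rcases lt_or_ge j 7 with h7 | h7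
    · exact h j h7
    · obtain ⟨k, rfl⟩ := Nat.exists_eq_add_of_le h7
      have := recT hM c n0 T k (hc k (by omega)) (fun j hj2 => ih (k + j) (by omega) (by omega))
      rw [show k + 7 = 7 + k by ring] at this
      exact this

theorem thsqT (h : Rels) (a n : ℤ) (T T' : List ℤ) (hT : tt * Xf (AA ^ a) n = ev tt T)
    (hn : 4 * n - 7 * a ≠ 0)
    (hc : zeroL (addL (smulL (4 * n - 7 * a) T') (smulL (-7) (addL (smulL 4 (eulA (-1) T))
      (smulL (-a) T)))) = true) :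
    tt * Xf (thh ^ 2 * AA ^ a) n = ev tt T' := by
  have ht := tt_ne
  have hth := thh_ne
  have h1 := Xf_thsq h a n
  have h2 := congrArg dl hT
  rw [dl_mul, h.dtt, dl_ev h] at h2
  have h3 := ev_eulA tt (-1) T
  rw [show (-1 : ℤ) + 1 = 0 by norm_num] at h3
  have z := ev_zero tt _ hc
  simp only [ev_add, ev_smul] at z
  obtain ⟨D, hD⟩ : ∃ D : K, dl (Xf (AA ^ a) n) = 24 * thh ^ 2 * D :=
    ⟨dl (Xf (AA ^ a) n) / (24 * thh ^ 2), by field_simp⟩
  have hD2 : dl (Xf (AA ^ a) n) / (24 * thh ^ 2) = D := by rw [hD]; field_simp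
  rw [hD2] at h1
  rw [hD] at h2
  have h4 : tt * D = ev tt (eulA (-1) T) := by
    apply mul_left_cancel₀ (show (24 * thh ^ 2 : K) ≠ 0 from
      mul_ne_zero (by norm_num) (pow_ne_zero 2 hth))
    linear_combination h2 + 24 * thh ^ 2 * h3 - 24 * thh ^ 2 * hT
  have hn' : ((4 * n - 7 * a : ℤ) : K) ≠ 0 := by exact_mod_cast hn
  apply mul_left_cancel₀ hn'
  push_cast at h1 z ⊢
  linear_combination tt * h1 - z + 28 * h4 - 7 * a * hT

theorem e4_ne (h : Rels) : ev tt e4L ≠ 0 := by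
  intro h0
  have h1 := E4_dd h
  rw [h0, mul_zero, zero_div] at h1
  have h2 : ofQ Pool.Agent.R322.QD.e4 = 0 := h1
  have h3 : Pool.Agent.R322.QD.e4 = 0 := ofQ_injective (by rw [h2, map_zero])
  have := e4c0
  rw [h3] at this
  simp at this

theorem thT (h : Rels) (a n : ℤ) (T0 T1 T2 T' : List ℤ)
    (h0 : tt * Xf (thh ^ 2 * AA ^ (a + 1)) n = ev tt T0)
    (h1 : tt * Xf (thh ^ 2 * AA ^ (a + 1)) (n + 1) = ev tt T1)
    (h2 : tt * Xf (thh ^ 2 * AA ^ (a + 1)) (n + 2) = ev tt T2)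
    (hc : zeroL (addL (mulL e4L T') (smulL (-1) (addL T0 (addL (smulL 5 T1) T2)))) = true) :
    tt * Xf (thh * AA ^ a) n = ev tt T' := by
  have r := Xf_th h a n
  have z := ev_zero tt _ hc
  simp only [ev_add, ev_smul, ev_mul] at z
  apply mul_left_cancel₀ (e4_ne h)
  push_cast at z
  linear_combination tt * r - z + h0 + 5 * h1 + h2

end

end Pool.Agent.V5helper40.FR
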