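import Pool.Agent.V5helper40.FR.XB

/-!
# The tables
-/

set_option autoImplicit false

namespace Pool.Agent.V5helper40.FR

open HahnSeries

noncomputable section

def chkPure (T : List ℤ) (iz e : ℕ) : Bool :=
  zeroL (addL (shL 8 T) (smulL (-1) (shL e (Zl iz))))

theorem cP0 : ∀ j < 7, chkPure (Tg0 j) (31 - 4 * j) (8 - j) = true := by decide +kernel
theorem cP1 : ∀ j < 7, chkPure (Th0 j) (24 - 4 * j) (6 - j) = true := by decide +kernel
theorem cP2 : ∀ j < 7, chkPure (Tg3 j) (25 - 4 * j) (6 - j) = true := by decide +kernel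
theorem cP3 : ∀ j < 7, chkPure (Th3 j) (26 - 4 * j) (6 - j) = true := by decide +kernel

theorem cR0 : ∀ i < 3, chkT Tg0 i = true := by decide +kernel
theorem cR1 : ∀ i < 3, chkT Th0 i = true := by decide +kernel
theorem cR2 : ∀ i < 3, chkT Tg3 i = true := by decide +kernel
theorem cR3 : ∀ i < 5, chkT Th3 i = true := by decide +kernel

theorem tg0 (hM : MM) : ∀ j < 10, tt * Xf (AA ^ (0 : ℤ)) (-7 + (j : ℕ)) = ev tt (Tg0 j) := by
  refine extT hM _ (-7) Tg0 10 (fun i hi => cR0 i (by omega)) (fun j hj => ?_)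
  refine pureT hM 0 (-7 + j) (Tg0 j) (31 - 4 * j) (8 - j) (by omega) ?_ ?_ (cP0 j hj)
  · omega
  · omega

theorem th0 (hM : MM) : ∀ j < 10, tt * Xf (AA ^ (-1 : ℤ)) (-7 + (j : ℕ)) = ev tt (Th0 j) := by
  refine extT hM _ (-7) Th0 10 (fun i hi => cR1 i (by omega)) (fun j hj => ?_)
  refine pureT hM (-1) (-7 + j) (Th0 j) (24 - 4 * j) (6 - j) (by omega) ?_ ?_ (cP1 j hj)
  · omega
  · omega

theorem tg3 (hM : MM) : ∀ j < 10, tt * Xf (AA ^ (-2 : ℤ)) (-9 + (j : ℕ)) = ev tt (Tg3 j) := by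
  refine extT hM _ (-9) Tg3 10 (fun i hi => cR2 i (by omega)) (fun j hj => ?_)
  refine pureT hM (-2) (-9 + j) (Tg3 j) (25 - 4 * j) (6 - j) (by omega) ?_ ?_ (cP2 j hj)
  · omega
  · omega

theorem th3 (hM : MM) : ∀ j < 12, tt * Xf (AA ^ (-3 : ℤ)) (-11 + (j : ℕ)) = ev tt (Th3 j) := by
  refine extT hM _ (-11) Th3 12 (fun i hi => cR3 i (by omega)) (fun j hj => ?_)
  refine pureT hM (-3) (-11 + j) (Th3 j) (26 - 4 * j) (6 - j) (by omega) ?_ ?_ (cP3 j hj)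
  · omega
  · omega

def chkSq (a n : ℤ) (T T' : List ℤ) : Bool :=
  zeroL (addL (smulL (4 * n - 7 * a) T') (smulL (-7) (addL (smulL 4 (eulA (-1) T))
      (smulL (-a) T))))

theorem cS0 : ∀ j : ℕ, j < 10 → j ≠ 7 → chkSq 0 (-7 + j) (Tg0 j) (S0 j) = true := by decide +kernel
theorem cS1 : ∀ j : ℕ, j < 9 → chkSq (-1) (-6 + j) (Th0 (j + 1)) (S1 j) = true := by decide +kernel
theorem cS2 : ∀ j : ℕ, j < 7 → chkSq (-2) (-6 + j) (Tg3 (j + 3)) (Tg2 j) = true := by decide +kernel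
theorem cS3 : ∀ j : ℕ, j < 7 → chkSq (-3) (-6 + j) (Th3 (j + 5)) (Th2l j) = true := by decide +kernel
theorem cS0r : chkT S0 0 = true := by decide +kernel

theorem ts0 (h : Rels) (hM : MM) : ∀ j < 10,
    tt * Xf (thh ^ 2 * AA ^ (0 : ℤ)) (-7 + (j : ℕ)) = ev tt (S0 j) := by
  have key : ∀ j < 10, j ≠ 7 → tt * Xf (thh ^ 2 * AA ^ (0 : ℤ)) (-7 + (j : ℕ)) = ev tt (S0 j) := by
    intro j hj hj7
    refine thsqT h 0 (-7 + j) (Tg0 j) (S0 j) (tg0 hM j hj) ?_ (cS0 j hj hj7)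
    omega
  intro j hj
  by_cases hj7 : j = 7
  · subst hj7
    have := recT hM (thh ^ 2 * AA ^ (0 : ℤ)) (-7) S0 0 cS0r (fun j hj2 => by
      have := key (0 + j) (by omega) (by omega)
      exact this)
    exact this
  · exact key j hj hj7

theorem ts1 (h : Rels) (hM : MM) : ∀ j < 9,
    tt * Xf (thh ^ 2 * AA ^ (-1 : ℤ)) (-6 + (j : ℕ)) = ev tt (S1 j) := by
  intro j hj
  refine thsqT h (-1) (-6 + j) (Th0 (j + 1)) (S1 j) ?_ ?_ (cS1 j hj)
  · have := th0 hM (j + 1) (by omega)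
    rw [show (-7 + ((j + 1 : ℕ) : ℤ)) = -6 + j by push_cast; ring] at this
    exact this
  · omega

theorem ts2 (h : Rels) (hM : MM) : ∀ j < 7,
    tt * Xf (thh ^ 2 * AA ^ (-2 : ℤ)) (-6 + (j : ℕ)) = ev tt (Tg2 j) := by
  intro j hj
  refine thsqT h (-2) (-6 + j) (Tg3 (j + 3)) (Tg2 j) ?_ ?_ (cS2 j hj)
  · have := tg3 hM (j + 3) (by omega)
    rw [show (-9 + ((j + 3 : ℕ) : ℤ)) = -6 + j by push_cast; ring] at this
    exact this
  · omega

theorem ts3 (h : Rels) (hM : MM) : ∀ j < 7,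
    tt * Xf (thh ^ 2 * AA ^ (-3 : ℤ)) (-6 + (j : ℕ)) = ev tt (Th2l j) := by
  intro j hj
  refine thsqT h (-3) (-6 + j) (Th3 (j + 5)) (Th2l j) ?_ ?_ (cS3 j hj)
  · have := th3 hM (j + 5) (by omega)
    rw [show (-11 + ((j + 5 : ℕ) : ℤ)) = -6 + j by push_cast; ring] at this
    exact this
  · omega

def chkTh (T0 T1 T2 T' : List ℤ) : Bool :=
  zeroL (addL (mulL e4L T') (smulL (-1) (addL T0 (addL (smulL 5 T1) T2))))

theorem cT1 : ∀ j < 7, chkTh (S0 (j + 1)) (S0 (j + 2)) (S0 (j + 3)) (Tg1 j) = true := by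
  decide +kernel
theorem cT2 : ∀ j < 7, chkTh (S1 j) (S1 (j + 1)) (S1 (j + 2)) (Th1 j) = true := by
  decide +kernel

theorem tg1 (h : Rels) (hM : MM) : ∀ j < 7,
    tt * Xf (thh * AA ^ (-1 : ℤ)) (-6 + (j : ℕ)) = ev tt (Tg1 j) := by
  intro j hj
  refine thT h (-1) (-6 + j) (S0 (j + 1)) (S0 (j + 2)) (S0 (j + 3)) (Tg1 j) ?_ ?_ ?_ (cT1 j hj)
  · have := ts0 h hM (j + 1) (by omega)
    rw [show (-7 + ((j + 1 : ℕ) : ℤ)) = -6 + j by push_cast; ring] at this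
    rw [show (-1 + 1 : ℤ) = 0 by norm_num]; exact this
  · have := ts0 h hM (j + 2) (by omega)
    rw [show (-7 + ((j + 2 : ℕ) : ℤ)) = -6 + j + 1 by push_cast; ring] at this
    rw [show (-1 + 1 : ℤ) = 0 by norm_num]; exact this
  · have := ts0 h hM (j + 3) (by omega)
    rw [show (-7 + ((j + 3 : ℕ) : ℤ)) = -6 + j + 2 by push_cast; ring] at this
    rw [show (-1 + 1 : ℤ) = 0 by norm_num]; exact this

theorem th1 (h : Rels) (hM : MM) : ∀ j < 7,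
    tt * Xf (thh * AA ^ (-2 : ℤ)) (-6 + (j : ℕ)) = ev tt (Th1 j) := by
  intro j hj
  refine thT h (-2) (-6 + j) (S1 j) (S1 (j + 1)) (S1 (j + 2)) (Th1 j) ?_ ?_ ?_ (cT2 j hj)
  · have := ts1 h hM j (by omega)
    rw [show (-2 + 1 : ℤ) = -1 by norm_num]; exact this
  · have := ts1 h hM (j + 1) (by omega)
    rw [show (-6 + ((j + 1 : ℕ) : ℤ)) = -6 + j + 1 by push_cast; ring] at this
    rw [show (-2 + 1 : ℤ) = -1 by norm_num]; exact this
  · have := ts1 h hM (j + 2) (by omega)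
    rw [show (-6 + ((j + 2 : ℕ) : ℤ)) = -6 + j + 2 by push_cast; ring] at this
    rw [show (-2 + 1 : ℤ) = -1 by norm_num]; exact this

/-- the factors `g_k` -/
def cg : ℕ → K
  | 0 => AA ^ (0 : ℤ)
  | 1 => thh * AA ^ (-1 : ℤ)
  | 2 => thh ^ 2 * AA ^ (-2 : ℤ)
  | _ => AA ^ (-2 : ℤ)

/-- the factors `h_k` -/
def ch : ℕ → K
  | 0 => AA ^ (-1 : ℤ)
  | 1 => thh * AA ^ (-2 : ℤ)
  | 2 => thh ^ 2 * AA ^ (-3 : ℤ)
  | _ => AA ^ (-3 : ℤ)

/-- tables for `g_k`, `n = i - 6` -/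
def TG (k i : ℕ) : List ℤ :=
  match k with
  | 0 => Tg0 (i + 1)
  | 1 => Tg1 i
  | 2 => Tg2 i
  | _ => Tg3 (i + 3)

/-- tables for `h_k`, `n = i - 6` -/
def TH (k i : ℕ) : List ℤ :=
  match k with
  | 0 => Th0 (i + 1)
  | 1 => Th1 i
  | 2 => Th2l i
  | _ => Th3 (i + 5)

theorem tabG (h : Rels) (hM : MM) (k i : ℕ) (hk : k < 4) (hi : i < 7) :
    tt * Xf (cg k) (-6 + i) = ev tt (TG k i) := by
  interval_cases k
  · have := tg0 hM (i + 1) (by omega)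
    rw [show (-7 + ((i + 1 : ℕ) : ℤ)) = -6 + i by push_cast; ring] at this
    exact this
  · exact tg1 h hM i hi
  · exact ts2 h hM i hi
  · have := tg3 hM (i + 3) (by omega)
    rw [show (-9 + ((i + 3 : ℕ) : ℤ)) = -6 + i by push_cast; ring] at this
    exact this

theorem tabH (h : Rels) (hM : MM) (k i : ℕ) (hk : k < 4) (hi : i < 7) :
    tt * Xf (ch k) (-6 + i) = ev tt (TH k i) := by
  interval_cases k
  · have := th0 hM (i + 1) (by omega)
    rw [show (-7 + ((i + 1 : ℕ) : ℤ)) = -6 + i by push_cast; ring] at this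
    exact this
  · exact th1 h hM i hi
  · exact ts3 h hM i hi
  · have := th3 hM (i + 5) (by omega)
    rw [show (-11 + ((i + 5 : ℕ) : ℤ)) = -6 + i by push_cast; ring] at this
    exact this

end

end Pool.Agent.V5helper40.FR
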